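import Pool.Agent.H728R2.OS.Base

open Set Filter Topology Complex Matrix
open scoped ComplexConjugate

namespace Pool.Agent.H728R2.OS

private theorem circ_open : IsOpenQuotientMap ((↑) : ℝ → UnitAddCircle) :=
  QuotientAddGroup.isOpenQuotientMap_mk

private theorem circ_eq (a b : ℝ) : (a : UnitAddCircle) = (b : UnitAddCircle) ↔ ∃ n : ℤ, b - a = n := by
  have h : (a : UnitAddCircle) = (b : UnitAddCircle) ↔ -a + b ∈ AddSubgroup.zmultiples (1 : ℝ) :=
    QuotientAddGroup.eq
  rw [h, AddSubgroup.mem_zmultiples_iff]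
  constructor
  · rintro ⟨n, hn⟩
    refine ⟨n, ?_⟩
    have : n • (1 : ℝ) = n := by simp
    rw [this] at hn
    linarith
  · rintro ⟨n, hn⟩
    refine ⟨n, ?_⟩
    have : n • (1 : ℝ) = n := by simp
    rw [this]
    linarith

private theorem int_zero {x : ℝ} {n : ℤ} (hx : x = n) (h : |x| < 1) : x = 0 := by
  rw [hx] at h
  have h2 : |n| < 1 := by exact_mod_cast h
  have h3 : n = 0 := Int.abs_lt_one_iff.mp h2
  rw [hx, h3]; simp

private theorem open_toTorus (d : ℕ) : IsOpenQuotientMap (toTorus (d := d)) := by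
  refine ⟨?_, ?_, ?_⟩
  · intro y
    choose z hz using fun i => circ_open.surjective (y i)
    exact ⟨z, funext hz⟩
  · exact continuous_pi fun i => circ_open.continuous.comp (continuous_apply i)
  · exact IsOpenMap.piMap (fun _ => circ_open.isOpenMap)
      (Filter.Eventually.of_forall fun _ => circ_open.surjective)

/-- `ℝ^d → 𝕋^d` is a quotient by a discrete group. -/
theorem isCov_toTorus (d : ℕ) : IsCov (toTorus (d := d)) := by
  refine ⟨open_toTorus d, ?_⟩
  let Γ : AddSubgroup (Fin d → ℝ) :=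
    { carrier := {v | ∀ i, ∃ n : ℤ, v i = n}
      zero_mem' := fun i => ⟨0, by simp⟩
      add_mem' := by
        intro a b ha hb i
        obtain ⟨m, hm⟩ := ha i
        obtain ⟨n, hn⟩ := hb i
        exact ⟨m + n, by rw [Pi.add_apply, hm, hn]; push_cast; ring⟩
      neg_mem' := by
        intro a ha i
        obtain ⟨m, hm⟩ := ha i
        exact ⟨-m, by rw [Pi.neg_apply, hm]; push_cast; ring⟩ }
  have hΓ : ∀ v, v ∈ Γ ↔ ∀ i, ∃ n : ℤ, v i = n := fun v => Iff.rfl
  refine ⟨Γ, ?_, ?_⟩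
  · apply discreteTopology_of_isOpen_singleton_zero
    rw [Metric.isOpen_singleton_iff]
    refine ⟨1, one_pos, ?_⟩
    rintro ⟨v, hv⟩ hd
    have hd' : ‖v‖ < 1 := by
      have : dist (⟨v, hv⟩ : Γ) 0 = ‖v‖ := by
        rw [Subtype.dist_eq]
        simp
      rw [this] at hd
      exact hd
    apply Subtype.ext
    funext i
    obtain ⟨n, hn⟩ := (hΓ v).mp hv i
    have h1 : |v i| < 1 := lt_of_le_of_lt (norm_le_pi_norm v i) hd'
    exact int_zero hn h1
  · intro z z'
    rw [hΓ]
    constructor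
    · intro h i
      have := congrFun h i
      exact (circ_eq _ _).mp this
    · intro h
      funext i
      exact (circ_eq _ _).mpr (h i)

/-- `ℝ^d × ℝ → 𝕋^d × 𝕋` is a quotient by a discrete group. -/
theorem isCov_toTorus1 (d : ℕ) : IsCov (toTorus1 (d := d)) := by
  refine ⟨?_, ?_⟩
  · exact (open_toTorus d).prodMap circ_open
  let Γ : AddSubgroup ((Fin d → ℝ) × ℝ) :=
    { carrier := {v | (∀ i, ∃ n : ℤ, v.1 i = n) ∧ ∃ n : ℤ, v.2 = n}
      zero_mem' := ⟨fun i => ⟨0, by simp⟩, 0, by simp⟩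
      add_mem' := by
        intro a b ha hb
        refine ⟨fun i => ?_, ?_⟩
        · obtain ⟨m, hm⟩ := ha.1 i
          obtain ⟨n, hn⟩ := hb.1 i
          exact ⟨m + n, by rw [Prod.fst_add, Pi.add_apply, hm, hn]; push_cast; ring⟩
        · obtain ⟨m, hm⟩ := ha.2
          obtain ⟨n, hn⟩ := hb.2
          exact ⟨m + n, by rw [Prod.snd_add, hm, hn]; push_cast; ring⟩
      neg_mem' := by
        intro a ha
        refine ⟨fun i => ?_, ?_⟩
        · obtain ⟨m, hm⟩ := ha.1 i
          exact ⟨-m, by rw [Prod.fst_neg, Pi.neg_apply, hm]; push_cast; ring⟩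
        · obtain ⟨m, hm⟩ := ha.2
          exact ⟨-m, by rw [Prod.snd_neg, hm]; push_cast; ring⟩ }
  have hΓ : ∀ v, v ∈ Γ ↔ (∀ i, ∃ n : ℤ, v.1 i = n) ∧ ∃ n : ℤ, v.2 = n := fun v => Iff.rfl
  refine ⟨Γ, ?_, ?_⟩
  · apply discreteTopology_of_isOpen_singleton_zero
    rw [Metric.isOpen_singleton_iff]
    refine ⟨1, one_pos, ?_⟩
    rintro ⟨v, hv⟩ hd
    have hd' : ‖v‖ < 1 := by
      have : dist (⟨v, hv⟩ : Γ) 0 = ‖v‖ := by
        rw [Subtype.dist_eq]
        simp
      rw [this] at hd
      exact hd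
    obtain ⟨h1, n, hn⟩ := (hΓ v).mp hv
    have hv1 : ‖v.1‖ < 1 := lt_of_le_of_lt (norm_fst_le v) hd'
    have hv2 : ‖v.2‖ < 1 := lt_of_le_of_lt (norm_snd_le v) hd'
    apply Subtype.ext
    apply Prod.ext
    · funext i
      obtain ⟨m, hm⟩ := h1 i
      have h1 : |v.1 i| < 1 := lt_of_le_of_lt (norm_le_pi_norm v.1 i) hv1
      exact int_zero hm h1
    · exact int_zero hn hv2
  · intro z z'
    rw [hΓ]
    unfold toTorus1
    rw [Prod.mk.injEq]
    constructor
    · rintro ⟨h, h'⟩
      refine ⟨fun i => ?_, ?_⟩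
      · have := congrFun h i
        exact (circ_eq _ _).mp this
      · exact (circ_eq _ _).mp h'
    · rintro ⟨h, h'⟩
      refine ⟨?_, ?_⟩
      · funext i
        exact (circ_eq _ _).mpr (h i)
      · exact (circ_eq _ _).mpr h'

/-- Two continuous lifts differ by a constant. -/
theorem lift_unique {V X : Type*} [NormedAddCommGroup V] [NormedSpace ℝ V] [TopologicalSpace X]
    {π : V → X} (hπ : IsCov π) {F G : V → V} (hF : Continuous F) (hG : Continuous G)
    (h : ∀ z, π (F z) = π (G z)) : ∃ c : V, ∀ z, G z = F z + c := by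
  obtain ⟨Γ, hΓ, hper⟩ := hπ.period
  let φ : V → Γ := fun z => ⟨G z - F z, (hper _ _).mp (h z)⟩
  have hφ : Continuous φ := Continuous.subtype_mk (hG.sub hF) _
  refine ⟨G 0 - F 0, fun z => ?_⟩
  have h1 : φ z = φ 0 := PreconnectedSpace.constant inferInstance hφ
  have h2 : G z - F z = G 0 - F 0 := congrArg Subtype.val h1
  rw [← h2]
  abel

/-- The derivative of a lift at `z` depends only on `π z`, and it is the same for all lifts. -/
theorem fderiv_lift {V X : Type*} [NormedAddCommGroup V] [NormedSpace ℝ V] [TopologicalSpace X]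
    {π : V → X} (hπ : IsCov π) {F G : V → V} (hF : Continuous F) (hG : Continuous G)
    (f : X → X) (hf : IsLift π F f) (hg : IsLift π G f) (z w : V) (hzw : π z = π w) :
    fderiv ℝ F z = fderiv ℝ G w := by
  obtain ⟨Γ, hΓ, hper⟩ := hπ.period
  have hg' : w - z ∈ Γ := (hper _ _).mp hzw
  have h1 : ∀ u, π (F u) = π (G (u + (w - z))) := by
    intro u
    rw [hf u, hg (u + (w - z))]
    congr 1
    apply (hper _ _).mpr
    simpa using hg'
  obtain ⟨c, hc⟩ := lift_unique hπ (G := fun u => G (u + (w - z))) hF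
    (hG.comp (continuous_id.add continuous_const)) h1
  have h2 : (fun u => G (u + (w - z))) = fun u => F u + c := funext hc
  have h3 : fderiv ℝ (fun u => G (u + (w - z))) z = fderiv ℝ G (z + (w - z)) :=
    fderiv_comp_add_right (w - z)
  have h4 : fderiv ℝ (fun u => F u + c) z = fderiv ℝ F z := fderiv_add_const c
  rw [← h4, ← h2, h3]
  congr 1
  abel

end Pool.Agent.H728R2.OS
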