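import Pool.Agent.H728R2.OS.Base

open Set Filter Topology Complex Matrix
open scoped ComplexConjugate

namespace Pool.Agent.H728R2.OS

/-- Periodic points are nonwandering. -/
theorem per_subset_omega {X : Type*} [TopologicalSpace X] (f : X ≃ₜ X) : Per f ⊆ Omega f := by
  rintro x ⟨n, hn, hx⟩ U hU
  have hxU : x ∈ U := mem_of_mem_nhds hU
  exact ⟨n, hn, x, ⟨x, hxU, hx⟩, hxU⟩

/-- The nonwandering set is closed. -/
theorem isClosed_omega {X : Type*} [TopologicalSpace X] (f : X ≃ₜ X) : IsClosed (Omega f) := by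
  rw [← isOpen_compl_iff, isOpen_iff_mem_nhds]
  intro x hx
  have hx' : ¬ ∀ U ∈ 𝓝 x, ∃ n : ℕ, 0 < n ∧ ((f^[n]) '' U ∩ U).Nonempty := hx
  push Not at hx'
  obtain ⟨U, hU, hn⟩ := hx'
  obtain ⟨V, hVU, hV, hxV⟩ := mem_nhds_iff.1 hU
  refine mem_nhds_iff.2 ⟨V, ?_, hV, hxV⟩
  intro y hy hyO
  obtain ⟨n, hn0, hne⟩ := hyO V (hV.mem_nhds hy)
  have h1 : ((f^[n]) '' U ∩ U).Nonempty :=
    hne.mono (inter_subset_inter (image_mono hVU) hVU)
  rw [hn n hn0] at h1
  exact not_nonempty_empty h1

/-- Nonwandering points are chain recurrent. -/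
theorem omega_subset_chainRec {X : Type*} [MetricSpace X] (f : X ≃ₜ X) :
    Omega f ⊆ ChainRec f := by
  intro x hx ε hε
  obtain ⟨δ, hδ, hcont⟩ := Metric.continuousAt_iff.1 f.continuous.continuousAt (ε / 2) (half_pos hε)
  have hU : Metric.ball x (min δ (ε / 2)) ∈ 𝓝 x :=
    Metric.ball_mem_nhds x (lt_min hδ (half_pos hε))
  obtain ⟨n, hn, z, ⟨u, hu, huz⟩, hz⟩ := hx _ hU
  rw [Metric.mem_ball] at hu hz
  have hu1 : dist u x < δ := lt_of_lt_of_le hu (min_le_left _ _)
  have hz1 : dist z x < ε / 2 := lt_of_lt_of_le hz (min_le_right _ _)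
  refine ⟨n, fun i => if i = 0 ∨ i = n then x else f^[i] u, hn, by simp, by simp, ?_⟩
  intro i hi
  have h1 : dist (f (if i = 0 ∨ i = n then x else f^[i] u)) (f^[i + 1] u) < ε / 2 := by
    by_cases h0 : i = 0
    · subst h0
      simp only [true_or, if_true, zero_add, Function.iterate_one]
      rw [dist_comm]
      exact hcont hu1
    · rw [if_neg (by omega), Function.iterate_succ_apply', dist_self]
      exact half_pos hε
  have h2 : dist (f^[i + 1] u) (if i + 1 = 0 ∨ i + 1 = n then x else f^[i + 1] u) < ε / 2 := by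
    by_cases h0 : i + 1 = n
    · rw [if_pos (Or.inr h0), h0, huz]
      exact hz1
    · rw [if_neg (by omega), dist_self]
      exact half_pos hε
  refine lt_of_le_of_lt (dist_triangle _ (f^[i + 1] u) _) ?_
  linarith

/-- The chain recurrent set of a homeomorphism of a compact metric space is closed. -/
theorem isClosed_chainRec {X : Type*} [MetricSpace X] [CompactSpace X] (f : X ≃ₜ X) :
    IsClosed (ChainRec f) := by
  rw [← closure_subset_iff_isClosed]
  intro x hx ε hε
  have hε3 : 0 < ε / 3 := by positivity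
  obtain ⟨δ, hδ, hcont⟩ := Metric.continuousAt_iff.1 f.continuous.continuousAt (ε / 3) hε3
  obtain ⟨y, hy, hxy⟩ := Metric.mem_closure_iff.1 hx (min δ (ε / 3)) (lt_min hδ hε3)
  obtain ⟨n, c, hn, hc0, hcn, hc⟩ := hy (ε / 3) hε3
  have hxy1 : dist y x < δ := by
    rw [dist_comm]; exact lt_of_lt_of_le hxy (min_le_left _ _)
  have hxy2 : dist y x < ε / 3 := by
    rw [dist_comm]; exact lt_of_lt_of_le hxy (min_le_right _ _)
  refine ⟨n, fun i => if i = 0 ∨ i = n then x else c i, hn, by simp, by simp, ?_⟩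
  intro i hi
  have h1 : dist (f (if i = 0 ∨ i = n then x else c i)) (f (c i)) < ε / 3 := by
    by_cases h0 : i = 0
    · subst h0
      simp only [true_or, if_true]
      rw [dist_comm, hc0]
      exact hcont hxy1
    · rw [if_neg (by omega), dist_self]
      exact hε3
  have h2 : dist (c (i + 1)) (if i + 1 = 0 ∨ i + 1 = n then x else c (i + 1)) < ε / 3 := by
    by_cases h0 : i + 1 = n
    · rw [if_pos (Or.inr h0), h0, hcn]
      exact hxy2
    · rw [if_neg (by omega), dist_self]
      exact hε3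
  have h3 := hc i hi
  refine lt_of_le_of_lt (dist_triangle _ (f (c i)) _) ?_
  have h4 := dist_triangle (f (c i)) (c (i + 1))
    (if i + 1 = 0 ∨ i + 1 = n then x else c (i + 1))
  linarith

/-- The chain recurrent set of a homeomorphism of a compact metric space is invariant. -/
theorem chainRec_inv {X : Type*} [MetricSpace X] [CompactSpace X] (f : X ≃ₜ X) (x : X) :
    f x ∈ ChainRec f ↔ x ∈ ChainRec f := by
  have key : ∀ g : X → X, Continuous g → (∀ z, f (g z) = g (f z)) → ∀ z, z ∈ ChainRec f →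
      g z ∈ ChainRec f := by
    intro g hg hfg z hz ε hε
    obtain ⟨δ, hδ, hu⟩ := Metric.uniformContinuous_iff.1
      (CompactSpace.uniformContinuous_of_continuous hg) ε hε
    obtain ⟨n, c, hn, hc0, hcn, hc⟩ := hz δ hδ
    refine ⟨n, fun i => g (c i), hn, by simp only [hc0], by simp only [hcn], ?_⟩
    intro i hi
    simp only [hfg]
    exact hu (hc i hi)
  constructor
  · intro h
    have h1 := key f.symm f.symm.continuous (by simp) _ h
    rwa [f.symm_apply_apply] at h1
  · exact key f f.continuous (fun _ => rfl) x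

end Pool.Agent.H728R2.OS
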