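import Pool.Agent.H728R2.OS.Base

open Set Filter Topology Complex Matrix
open scoped ComplexConjugate

namespace Pool.Agent.H728R2.OS

namespace NC

variable {X : Type*} [MetricSpace X]

/-- Chains from `x` to `y` of arbitrary precision. -/
def R (f : X ≃ₜ X) (x y : X) : Prop :=
  ∀ ε : ℝ, 0 < ε → ∃ (n : ℕ) (c : ℕ → X), 0 < n ∧ c 0 = x ∧ c n = y ∧
    ∀ i < n, dist (f (c i)) (c (i + 1)) < ε

theorem R_trans {f : X ≃ₜ X} {x y z : X} (h1 : R f x y) (h2 : R f y z) : R f x z := by
  intro ε hε
  obtain ⟨n, c, hn, c0, cn, hc⟩ := h1 ε hε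
  obtain ⟨m, d, hm, d0, dm, hd⟩ := h2 ε hε
  refine ⟨n + m, fun i => if i < n then c i else d (i - n), by omega, ?_, ?_, ?_⟩
  · simp [hn, c0]
  · simp [dm]
  · intro i hi
    simp only
    by_cases h1 : i < n
    · rw [if_pos h1]
      by_cases h2 : i + 1 < n
      · rw [if_pos h2]
        exact hc i h1
      · rw [if_neg h2]
        have e : i + 1 = n := by omega
        have := hc i h1
        rw [e, cn] at this
        rw [e, Nat.sub_self, d0]
        exact this
    · rw [if_neg h1, if_neg (by omega)]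
      have := hd (i - n) (by omega)
      rwa [show i + 1 - n = i - n + 1 by omega]

theorem R_orbit (f : X ≃ₜ X) (x : X) {n : ℕ} (hn : 0 < n) : R f x (f^[n] x) := by
  intro ε hε
  refine ⟨n, fun i => f^[i] x, hn, rfl, rfl, ?_⟩
  intro i _
  simp only
  rw [Function.iterate_succ_apply', dist_self]
  exact hε

variable [CompactSpace X]

theorem ucont (f : X ≃ₜ X) {ε : ℝ} (hε : 0 < ε) :
    ∃ δ : ℝ, 0 < δ ∧ ∀ a b : X, dist a b < δ → dist (f a) (f b) < ε := by
  have h := CompactSpace.uniformContinuous_of_continuous f.continuous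
  rw [Metric.uniformContinuous_iff] at h
  obtain ⟨δ, hδ, h⟩ := h ε hε
  exact ⟨δ, hδ, fun a b hab => h hab⟩

theorem R_closed {f : X ≃ₜ X} {p q : ℕ → X} {u v : X} (h : ∀ k, R f (p k) (q k))
    (hp : Tendsto p atTop (𝓝 u)) (hq : Tendsto q atTop (𝓝 v)) : R f u v := by
  intro ε hε
  obtain ⟨δ, hδ, huc⟩ := ucont f (show 0 < ε / 3 by linarith)
  have e1 := (Metric.tendsto_nhds.1 hp) δ hδ
  have e2 := (Metric.tendsto_nhds.1 hq) (ε / 3) (by linarith)
  obtain ⟨k, hk1, hk2⟩ := (e1.and e2).exists
  obtain ⟨n, c, hn, c0, cn, hc⟩ := h k (ε / 3) (by linarith)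
  refine ⟨n, fun i => if i = 0 then u else if i = n then v else c i, hn, by simp, ?_, ?_⟩
  · simp only
    rw [if_neg (by omega), if_pos trivial]
  · intro i hi
    simp only
    rw [if_neg (show ¬ i + 1 = 0 by omega)]
    have a1 : dist (if i = 0 then u else if i = n then v else c i) (c i) < δ := by
      by_cases h0 : i = 0
      · rw [if_pos h0, h0, c0, dist_comm]
        exact hk1
      · rw [if_neg h0, if_neg (by omega), dist_self]
        exact hδ
    have a2 := huc _ _ a1
    have a3 : dist (c (i + 1)) (if i + 1 = n then v else c (i + 1)) < ε / 3 := by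
      by_cases h0 : i + 1 = n
      · rw [if_pos h0, h0, cn]
        exact hk2
      · rw [if_neg h0, dist_self]
        linarith
    have a4 := hc i hi
    have a5 := dist_triangle4 (f (if i = 0 then u else if i = n then v else c i)) (f (c i))
      (c (i + 1)) (if i + 1 = n then v else c (i + 1))
    linarith

theorem R_fwd {f : X ≃ₜ X} {x : X} (h : R f x x) : R f (f x) x := by
  intro ε hε
  obtain ⟨δ, hδ, huc⟩ := ucont f (show 0 < ε / 2 by linarith)
  obtain ⟨n, c, hn, c0, cn, hc⟩ := h (min δ (ε / 2)) (lt_min hδ (by linarith))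
  have h0 := hc 0 hn
  rw [c0] at h0
  have h01 := lt_of_lt_of_le h0 (min_le_left _ _)
  have h02 := lt_of_lt_of_le h0 (min_le_right _ _)
  have a1 := huc _ _ h01
  rcases Nat.lt_or_ge 1 n with h1 | h1
  · refine ⟨n - 1, fun i => if i = 0 then f x else c (i + 1), by omega, by simp, ?_, ?_⟩
    · simp only
      rw [if_neg (by omega), show n - 1 + 1 = n by omega, cn]
    · intro i hi
      simp only
      rw [if_neg (show ¬ i + 1 = 0 by omega)]
      by_cases hi0 : i = 0
      · subst hi0
        rw [if_pos rfl]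
        have a2 := lt_of_lt_of_le (hc 1 h1) (min_le_right _ _)
        have a3 := dist_triangle (f (f x)) (f (c 1)) (c (1 + 1))
        simp only [Nat.zero_add] at a1 a2 a3 ⊢
        linarith
      · rw [if_neg hi0]
        have a2 := lt_of_lt_of_le (hc (i + 1) (by omega)) (min_le_right _ _)
        linarith
  · have e : n = 1 := by omega
    subst e
    rw [Nat.zero_add] at a1 h02
    rw [cn] at a1 h02
    refine ⟨1, fun i => if i = 0 then f x else x, by omega, by simp, by simp, ?_⟩
    intro i hi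
    have hi0 : i = 0 := by omega
    subst hi0
    simp only [if_true, Nat.zero_add, one_ne_zero, if_false]
    have a3 := dist_triangle (f (f x)) (f x) x
    linarith

theorem R_bwd {f : X ≃ₜ X} {x : X} (h : R f x x) : R f x (f.symm x) := by
  intro ε hε
  obtain ⟨δ, hδ, huc⟩ := ucont f.symm (show 0 < ε / 2 by linarith)
  obtain ⟨n, c, hn, c0, cn, hc⟩ := h (min δ (ε / 2)) (lt_min hδ (by linarith))
  have h0 := hc (n - 1) (by omega)
  rw [show n - 1 + 1 = n by omega, cn] at h0
  have h01 := lt_of_lt_of_le h0 (min_le_left _ _)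
  have h02 := lt_of_lt_of_le h0 (min_le_right _ _)
  have a1 := huc _ _ h01
  rw [Homeomorph.symm_apply_apply] at a1
  rcases Nat.lt_or_ge 1 n with h1 | h1
  · refine ⟨n - 1, fun i => if i = n - 1 then f.symm x else c i, by omega, ?_, by simp, ?_⟩
    · simp only
      rw [if_neg (by omega), c0]
    · intro i hi
      simp only
      rw [if_neg (show ¬ i = n - 1 by omega)]
      have a2 := lt_of_lt_of_le (hc i (by omega)) (min_le_right _ _)
      by_cases hi0 : i + 1 = n - 1
      · rw [if_pos hi0]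
        rw [hi0] at a2
        have a3 := dist_triangle (f (c i)) (c (n - 1)) (f.symm x)
        linarith
      · rw [if_neg hi0]
        linarith
  · have e : n = 1 := by omega
    subst e
    simp only [Nat.sub_self] at a1 h02
    rw [c0] at a1 h02
    refine ⟨1, fun i => if i = 0 then x else f.symm x, by omega, by simp, by simp, ?_⟩
    intro i hi
    have hi0 : i = 0 := by omega
    subst hi0
    simp only [if_true, Nat.zero_add, one_ne_zero, if_false]
    have a3 := dist_triangle (f x) x (f.symm x)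
    linarith

theorem R_fwd_self {f : X ≃ₜ X} {x : X} (h : R f x x) (n : ℕ) :
    R f (f^[n] x) (f^[n] x) ∧ R f (f^[n] x) x ∧ R f x (f^[n] x) := by
  induction n with
  | zero => exact ⟨h, h, h⟩
  | succ n ih =>
    obtain ⟨h1, h2, h3⟩ := ih
    rw [Function.iterate_succ_apply']
    have h4 := R_fwd h1
    have h5 : R f (f^[n] x) (f (f^[n] x)) := R_orbit f (f^[n] x) (n := 1) one_pos
    exact ⟨R_trans h4 h5, R_trans h4 h2, R_trans h3 h5⟩

theorem R_bwd_self {f : X ≃ₜ X} {x : X} (h : R f x x) (n : ℕ) :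
    R f (f.symm^[n] x) (f.symm^[n] x) ∧ R f (f.symm^[n] x) x ∧ R f x (f.symm^[n] x) := by
  induction n with
  | zero => exact ⟨h, h, h⟩
  | succ n ih =>
    obtain ⟨h1, h2, h3⟩ := ih
    rw [Function.iterate_succ_apply']
    have h4 := R_bwd h1
    have h5 : R f (f.symm (f.symm^[n] x)) (f.symm^[n] x) := by
      have := R_orbit f (f.symm (f.symm^[n] x)) (n := 1) one_pos
      rwa [Function.iterate_one, Homeomorph.apply_symm_apply] at this
    exact ⟨R_trans h5 h4, R_trans h5 h2, R_trans h3 h4⟩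

theorem R_of_omega {f : X ≃ₜ X} {x : X} (h : x ∈ Omega f) : R f x x := by
  intro ε hε
  obtain ⟨δ, hδ, huc⟩ := ucont f (show 0 < ε / 2 by linarith)
  obtain ⟨n, hn, y, hy⟩ := h (Metric.ball x (min δ (ε / 2)))
    (Metric.ball_mem_nhds x (lt_min hδ (by linarith)))
  obtain ⟨⟨u, hu, rfl⟩, hy2⟩ := hy
  have hu1 : dist u x < δ := lt_of_lt_of_le (Metric.mem_ball.1 hu) (min_le_left _ _)
  have hy3 : dist (f^[n] u) x < ε / 2 :=
    lt_of_lt_of_le (Metric.mem_ball.1 hy2) (min_le_right _ _)
  have hfu : dist (f x) (f u) < ε / 2 := huc _ _ (by rwa [dist_comm])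
  refine ⟨n, fun i => if i = 0 then x else if i = n then x else f^[i] u, hn, by simp, ?_, ?_⟩
  · simp only
    rw [if_neg (by omega), if_pos trivial]
  · intro i hi
    simp only
    rw [if_neg (show ¬ i + 1 = 0 by omega)]
    have a1 : dist (f (if i = 0 then x else if i = n then x else f^[i] u)) (f^[i + 1] u) <
        ε / 2 := by
      by_cases h0 : i = 0
      · subst h0
        simpa using hfu
      · rw [if_neg h0, if_neg (by omega), Function.iterate_succ_apply', dist_self]
        linarith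
    have a2 : dist (f^[i + 1] u) (if i + 1 = n then x else f^[i + 1] u) < ε / 2 := by
      by_cases h0 : i + 1 = n
      · rw [if_pos h0, h0]
        exact hy3
      · rw [if_neg h0, dist_self]
        linarith
    have a3 := dist_triangle (f (if i = 0 then x else if i = n then x else f^[i] u))
      (f^[i + 1] u) (if i + 1 = n then x else f^[i + 1] u)
    linarith

/-- Pieces with a dense orbit are chain transitive. -/
theorem R_piece {f : X ≃ₜ X} {L : Set X} {w : X} (hw : R f w w)
    (hL : L ⊆ closure (range (fun n : ℕ => f^[n] w) ∪ range fun n : ℕ => f.symm^[n] w))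
    {u v : X} (hu : u ∈ L) (hv : v ∈ L) : R f u v := by
  have key : ∀ y ∈ (range (fun n : ℕ => f^[n] w) ∪ range fun n : ℕ => f.symm^[n] w),
      R f y w ∧ R f w y := by
    rintro y (⟨n, rfl⟩ | ⟨n, rfl⟩)
    · exact (R_fwd_self hw n).2
    · exact (R_bwd_self hw n).2
  obtain ⟨p, hp1, hp2⟩ := mem_closure_iff_seq_limit.1 (hL hu)
  obtain ⟨q, hq1, hq2⟩ := mem_closure_iff_seq_limit.1 (hL hv)
  exact R_closed (fun k => R_trans (key _ (hp1 k)).1 (key _ (hq1 k)).2) hp2 hq2

/-- Accumulation of orbits. -/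
theorem acc {f : X ≃ₜ X} {L : Set X} (hcl : IsClosed L) (hinv : f '' L = L) {z : X}
    (hz : z ∈ Ws f L) : ∃ v ∈ L, ∃ φ : ℕ → ℕ, StrictMono φ ∧
      Tendsto (fun k => f^[φ k] z) atTop (𝓝 v) := by
  obtain ⟨p, hp, hlim⟩ := hz
  have hpm : ∀ m, f^[m] p ∈ L := by
    intro m
    induction m with
    | zero => exact hp
    | succ m ih =>
      rw [Function.iterate_succ_apply', ← hinv]
      exact ⟨_, ih, rfl⟩
  obtain ⟨v, hv, φ, hφ, hφ2⟩ := hcl.isCompact.tendsto_subseq hpm
  refine ⟨v, hv, φ, hφ, ?_⟩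
  have h1 : Tendsto (fun k => dist (f^[φ k] p) (f^[φ k] z)) atTop (𝓝 0) :=
    hlim.comp hφ.tendsto_atTop
  rw [tendsto_iff_dist_tendsto_zero] at hφ2 ⊢
  have h2 := h1.add hφ2
  rw [add_zero] at h2
  refine squeeze_zero (fun _ => dist_nonneg) ?_ h2
  intro k
  have := dist_triangle (f^[φ k] z) (f^[φ k] p) v
  rw [dist_comm (f^[φ k] z) (f^[φ k] p)] at this
  exact this

omit [CompactSpace X] in
theorem orbit_mem {f : X ≃ₜ X} {L : Set X} (hinv : f '' L = L) {z : X} (hz : z ∈ L) (m : ℕ) :
    f^[m] z ∈ L := by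
  induction m with
  | zero => exact hz
  | succ m ih =>
    rw [Function.iterate_succ_apply', ← hinv]
    exact ⟨_, ih, rfl⟩

omit [CompactSpace X] in
theorem inv_symm {f : X ≃ₜ X} {L : Set X} (hinv : f '' L = L) : f.symm '' L = L := by
  ext x
  constructor
  · rintro ⟨y, hy, rfl⟩
    rw [← hinv] at hy
    obtain ⟨w, hw, rfl⟩ := hy
    rwa [Homeomorph.symm_apply_apply]
  · intro hx
    refine ⟨f x, ?_, Homeomorph.symm_apply_apply f x⟩
    rw [← hinv]
    exact ⟨x, hx, rfl⟩

end NC

/-- If all chain recurrent points are nonwandering then there are no cycles. -/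
theorem noCycle_of_chainRec {X : Type*} [MetricSpace X] [CompactSpace X] (f : X ≃ₜ X)
    (h : ChainRec f ⊆ Omega f) : NoCycle f := by
  intro k Λ hΛ n c hc
  by_contra hcon
  push Not at hcon
  choose z hz using fun i => hcon i
  have hR : ∀ i (u v : X), u ∈ Λ i → v ∈ Λ i → NC.R f u v := by
    intro i u v hu hv
    obtain ⟨w, hw, hd⟩ := hΛ.dense_orbit i
    have hwO : w ∈ Omega f := by
      rw [← hΛ.union]
      exact mem_iUnion.2 ⟨i, hw⟩
    exact NC.R_piece (NC.R_of_omega hwO) hd hu hv
  have hA : ∀ i, ∀ u ∈ Λ (c (i + 1)), NC.R f (z i) u := by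
    intro i u hu
    obtain ⟨v, hv, φ, hφ, hlim⟩ := NC.acc (hΛ.closed _) (hΛ.invariant _) (hz i).1
    have h1 : NC.R f (z i) v := by
      refine NC.R_closed (p := fun _ => z i) (q := fun m => f^[φ (m + 1)] (z i)) ?_
        tendsto_const_nhds (hlim.comp (tendsto_add_atTop_nat 1))
      intro m
      apply NC.R_orbit
      have := hφ.le_apply (x := m + 1)
      omega
    exact NC.R_trans h1 (hR _ _ _ hv hu)
  have hB : ∀ i, ∀ u ∈ Λ (c i), NC.R f u (z i) := by
    intro i u hu
    obtain ⟨v, hv, φ, hφ, hlim⟩ := NC.acc (hΛ.closed _) (NC.inv_symm (hΛ.invariant _)) (hz i).2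
    have h1 : NC.R f v (z i) := by
      refine NC.R_closed (p := fun m => f.symm^[φ (m + 1)] (z i)) (q := fun _ => z i) ?_
        (hlim.comp (tendsto_add_atTop_nat 1)) tendsto_const_nhds
      intro m
      have h2 : 0 < φ (m + 1) := by
        have := hφ.le_apply (x := m + 1)
        omega
      have h3 := NC.R_orbit f (f.symm^[φ (m + 1)] (z i)) h2
      have h4 : f^[φ (m + 1)] (f.symm^[φ (m + 1)] (z i)) = z i :=
        (Function.LeftInverse.iterate (fun y => Homeomorph.apply_symm_apply f y) _) (z i)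
      rwa [h4] at h3
    exact NC.R_trans (hR _ _ _ hu hv) h1
  have hstep : ∀ i, NC.R f (z i) (z (i + 1)) := by
    intro i
    obtain ⟨v, hv, -⟩ := (hz i).1
    exact NC.R_trans (hA i v hv) (hB (i + 1) v hv)
  have hall : ∀ j : ℕ, NC.R f (z 0) (z (Fin.ofNat (n + 2) (j + 1))) := by
    intro j
    induction j with
    | zero =>
      have h1 := hstep 0
      have e : (0 + 1 : Fin (n + 2)) = Fin.ofNat (n + 2) (0 + 1) := by
        apply Fin.ext
        simp
      rwa [e] at h1
    | succ j ih =>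
      have h1 := hstep (Fin.ofNat (n + 2) (j + 1))
      have e : Fin.ofNat (n + 2) (j + 1) + 1 = Fin.ofNat (n + 2) (j + 1 + 1) := by
        apply Fin.ext
        rw [Fin.val_add]
        simp [Fin.ofNat]
      rw [e] at h1
      exact NC.R_trans ih h1
  have h00 : NC.R f (z 0) (z 0) := by
    have h1 := hall (n + 1)
    have e : Fin.ofNat (n + 2) (n + 1 + 1) = 0 := by
      apply Fin.ext
      simp [Fin.ofNat]
    rwa [e] at h1
  have hz0 : z 0 ∈ Omega f := h h00
  rw [← hΛ.union] at hz0
  obtain ⟨j, hj⟩ := mem_iUnion.1 hz0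
  have hj1 : j = c (0 + 1) := by
    by_contra hne
    obtain ⟨v, hv, φ, hφ, hlim⟩ := NC.acc (hΛ.closed _) (hΛ.invariant _) (hz 0).1
    have h1 : v ∈ Λ j := (hΛ.closed j).mem_of_tendsto hlim
      (Eventually.of_forall fun m => NC.orbit_mem (hΛ.invariant j) hj _)
    exact Set.disjoint_left.1 (hΛ.disjoint _ _ hne) h1 hv
  have hj2 : j = c 0 := by
    by_contra hne
    obtain ⟨v, hv, φ, hφ, hlim⟩ := NC.acc (hΛ.closed _) (NC.inv_symm (hΛ.invariant _)) (hz 0).2
    have h1 : v ∈ Λ j := (hΛ.closed j).mem_of_tendsto hlim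
      (Eventually.of_forall fun m => NC.orbit_mem (NC.inv_symm (hΛ.invariant j)) hj _)
    exact Set.disjoint_left.1 (hΛ.disjoint _ _ hne) h1 hv
  have h5 : (0 + 1 : Fin (n + 2)) = 0 := hc (hj1.symm.trans hj2)
  simp at h5

end Pool.Agent.H728R2.OS
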