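import Pool.Agent.H728R2.OS.Base

open Set Filter Topology Complex Matrix
open scoped ComplexConjugate

namespace Pool.Agent.H728R2.OS

namespace BlockAux

variable {Y V : Type*} [TopologicalSpace Y]
    [NormedAddCommGroup V] [NormedSpace ℝ V]

/-- The terms of the series for `η`. -/
noncomputable def G (D : BlockData Y V) : ℕ → Y → (V →L[ℝ] ℝ)
  | 0, y => (D.c (D.h.symm y)).comp (D.B y)
  | j + 1, y => D.δ (D.h.symm y) • ((G D j (D.h.symm y)).comp (D.B y))

theorem G_cont (D : BlockData Y V) (j : ℕ) : Continuous (G D j) := by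
  induction j with
  | zero =>
    show Continuous (fun y => (D.c (D.h.symm y)).comp (D.B y))
    exact (D.c_cont.comp D.h.symm.continuous).clm_comp D.B_cont
  | succ j ih =>
    show Continuous (fun y => D.δ (D.h.symm y) • ((G D j (D.h.symm y)).comp (D.B y)))
    exact (D.δ_cont.comp D.h.symm.continuous).smul
      ((ih.comp D.h.symm.continuous).clm_comp D.B_cont)

theorem prod_shift (D : BlockData Y V) (j : ℕ) (y : Y) :
    ∏ i ∈ Finset.range (j + 1), D.δ (D.h^[i] (D.h.symm^[j + 1] y)) =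
      D.δ (D.h.symm y) *
        ∏ i ∈ Finset.range j, D.δ (D.h^[i] (D.h.symm^[j] (D.h.symm y))) := by
  rw [Finset.prod_range_succ, mul_comm, Function.iterate_succ_apply]
  congr 2
  have h := (Function.LeftInverse.iterate (f := D.h.symm) (g := D.h)
    (fun x => D.h.apply_symm_apply x) j) (D.h.symm y)
  exact h

theorem G_le (D : BlockData Y V) (Mc : ℝ) (hMc : ∀ y, ‖D.c y‖ ≤ Mc) (j : ℕ) :
    ∀ (y : Y) (u : V), ‖G D j y u‖ ≤
      (∏ i ∈ Finset.range j, D.δ (D.h^[i] (D.h.symm^[j] y))) * (Mc * ‖(D.mB^[j + 1] (y, u)).2‖) := by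
  induction j with
  | zero =>
    intro y u
    have h0 : G D 0 y u = D.c (D.h.symm y) (D.B y u) := rfl
    have h1 : (D.mB^[0 + 1] (y, u)).2 = D.B y u := rfl
    rw [h0, h1]
    simp only [Finset.range_zero, Finset.prod_empty, one_mul]
    exact (D.c (D.h.symm y)).le_of_opNorm_le (hMc _) _
  | succ j ih =>
    intro y u
    have h0 : G D (j + 1) y u = D.δ (D.h.symm y) * (G D j (D.h.symm y) (D.B y u)) := rfl
    have h1 : (D.mB^[j + 1 + 1] (y, u)) = D.mB^[j + 1] (D.h.symm y, D.B y u) := by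
      rw [Function.iterate_succ_apply]; rfl
    rw [h0, h1, norm_mul, prod_shift, Real.norm_of_nonneg (D.δ_pos _).le, mul_assoc]
    exact mul_le_mul_of_nonneg_left (ih _ _) (D.δ_pos _).le

theorem G_h (D : BlockData Y V) (j : ℕ) (y : Y) (u : V) :
    G D (j + 1) (D.h y) (D.A y u) = D.δ y * G D j y u := by
  have h0 : G D (j + 1) (D.h y) (D.A y u) =
    D.δ (D.h.symm (D.h y)) * (G D j (D.h.symm (D.h y)) (D.B (D.h y) (D.A y u))) := rfl
  rw [h0, D.h.symm_apply_apply, D.AB]

theorem G_h0 (D : BlockData Y V) (y : Y) (u : V) :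
    G D 0 (D.h y) (D.A y u) = D.c y u := by
  have h0 : G D 0 (D.h y) (D.A y u) =
    D.c (D.h.symm (D.h y)) (D.B (D.h y) (D.A y u)) := rfl
  rw [h0, D.h.symm_apply_apply, D.AB]

/-- The invariant graph. -/
noncomputable def eta (D : BlockData Y V) (y : Y) : V →L[ℝ] ℝ :=
  ∑' j, (G D j y).comp (ContinuousLinearMap.id ℝ V - D.P y)

theorem exists_bd [CompactSpace Y] {E : Type*} [NormedAddCommGroup E] {f : Y → E}
    (hf : Continuous f) : ∃ M : ℝ, 0 ≤ M ∧ ∀ y, ‖f y‖ ≤ M := by
  obtain ⟨M, hM⟩ := (isCompact_range hf.norm).bddAbove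
  refine ⟨max M 0, le_max_right _ _, fun y => le_trans (hM ⟨y, rfl⟩) (le_max_left _ _)⟩

theorem P_sub (D : BlockData Y V) (y : Y) (v : V) : D.P y (v - D.P y v) = 0 := by
  rw [map_sub, D.proj, sub_self]

theorem fst_iter (D : BlockData Y V) (m : ℕ) : ∀ (y : Y) (w : V × ℝ),
    (D.mL^[m] (y, w)).2.1 = (D.mA^[m] (y, w.1)).2 := by
  induction m with
  | zero => intro y w; rfl
  | succ m ih =>
    intro y w
    rw [Function.iterate_succ_apply, Function.iterate_succ_apply]
    exact ih _ _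

theorem snd_iter (D : BlockData Y V) (m : ℕ) : ∀ (y : Y) (v : V) (s : ℝ),
    (D.mL^[m] (y, (v, s))).2.2 = (∏ i ∈ Finset.range m, D.δ (D.h^[i] y)) * s +
      (D.mL^[m] (y, (v, 0))).2.2 := by
  induction m with
  | zero => intro y v s; simp
  | succ m ih =>
    intro y v s
    rw [Function.iterate_succ_apply, Function.iterate_succ_apply]
    have h1 : D.mL (y, (v, s)) = (D.h y, (D.A y v, D.c y v + D.δ y * s)) := rfl
    have h2 : D.mL (y, (v, (0 : ℝ))) = (D.h y, (D.A y v, D.c y v + D.δ y * 0)) := rfl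
    rw [h1, h2, ih, ih (D.h y) (D.A y v) (D.c y v + D.δ y * 0), Finset.prod_range_succ']
    simp only [Function.iterate_succ_apply, Function.iterate_zero, id]
    ring

theorem sig_le (D : BlockData Y V) (C μ Mc : ℝ) (hC : 0 < C) (hμ : 0 < μ) (hMc0 : 0 ≤ Mc)
    (hMc : ∀ y, ‖D.c y‖ ≤ Mc)
    (hf : ∀ (m : ℕ) (y : Y), ∏ i ∈ Finset.range m, D.δ (D.h^[i] y) ≤ C * μ ^ m) (m : ℕ) :
    ∀ (y : Y) (v : V), ‖(D.mL^[m] (y, (v, 0))).2.2‖ ≤
      ∑ i ∈ Finset.range m, C * μ ^ (m - 1 - i) * (Mc * ‖(D.mA^[i] (y, v)).2‖) := by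
  induction m with
  | zero => intro y v; simp
  | succ m ih =>
    intro y v
    rw [Function.iterate_succ_apply]
    have h2 : D.mL (y, (v, (0 : ℝ))) = (D.h y, (D.A y v, D.c y v)) := by
      show (D.h y, (D.A y v, D.c y v + D.δ y * 0)) = _
      rw [mul_zero, add_zero]
    rw [h2, snd_iter, Finset.sum_range_succ', add_comm]
    refine (norm_add_le _ _).trans (add_le_add ?_ ?_)
    · refine (ih (D.h y) (D.A y v)).trans (le_of_eq ?_)
      refine Finset.sum_congr rfl fun i _ => ?_
      have h3 : m + 1 - 1 - (i + 1) = m - 1 - i := by omega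
      have h4 : D.mA^[i + 1] (y, v) = D.mA^[i] (D.h y, D.A y v) := by
        rw [Function.iterate_succ_apply]; rfl
      rw [h3, h4]
    · rw [norm_mul]
      have hp : 0 ≤ ∏ i ∈ Finset.range m, D.δ (D.h^[i] (D.h y)) :=
        Finset.prod_nonneg fun i _ => (D.δ_pos _).le
      rw [Real.norm_of_nonneg hp]
      refine mul_le_mul ?_ ((D.c y).le_of_opNorm_le (hMc _) _) (norm_nonneg _) (by positivity)
      simpa using hf m (D.h y)

end BlockAux

open BlockAux in
/-- Invariant splitting for a block triangular cocycle with hyperbolic quotient and contracted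
fibres. -/
theorem block_splitting {Y V : Type*} [TopologicalSpace Y] [CompactSpace Y]
    [NormedAddCommGroup V] [NormedSpace ℝ V] [CompleteSpace V] (D : BlockData Y V)
    (C μ : ℝ) (hC : 0 < C) (hμ : 0 < μ) (hμ1 : μ < 1)
    (hs : ∀ (m : ℕ) (y : Y) (v : V), ‖(D.mA^[m] (y, D.P y v)).2‖ ≤ C * μ ^ m * ‖D.P y v‖)
    (hu : ∀ (m : ℕ) (y : Y) (v : V),
      ‖(D.mB^[m] (y, v - D.P y v)).2‖ ≤ C * μ ^ m * ‖v - D.P y v‖)
    (hf : ∀ (m : ℕ) (y : Y), ∏ i ∈ Finset.range m, D.δ (D.h^[i] y) ≤ C * μ ^ m) :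
    ∃ (Q : Y → (V × ℝ) →L[ℝ] (V × ℝ)) (C' μ' : ℝ), 0 < C' ∧ 0 < μ' ∧ μ' < 1 ∧ Continuous Q ∧
      (∀ y w, Q y (Q y w) = Q y w) ∧
      (∀ y w, (D.mL (y, Q y w)).2 = Q (D.h y) (D.mL (y, w)).2) ∧
      ∀ (m : ℕ) (y : Y) (w : V × ℝ),
        ‖(D.mL^[m] (y, Q y w)).2‖ ≤ C' * μ' ^ m * ‖Q y w‖ ∧
        ‖(D.mM^[m] (y, w - Q y w)).2‖ ≤ C' * μ' ^ m * ‖w - Q y w‖ := by
  obtain ⟨Mc, hMc0, hMc⟩ := exists_bd D.c_cont
  have hP1c : Continuous (fun y => ContinuousLinearMap.id ℝ V - D.P y) :=
    continuous_const.sub D.P_cont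
  obtain ⟨M1, hM10, hM1⟩ := exists_bd hP1c
  -- bounds for the terms
  have hterm : ∀ j y, ‖(G D j y).comp (ContinuousLinearMap.id ℝ V - D.P y)‖ ≤
      C * Mc * C * μ * M1 * μ ^ j := by
    intro j y
    refine ContinuousLinearMap.opNorm_le_bound _ (by positivity) fun v => ?_
    have h0 : (G D j y).comp (ContinuousLinearMap.id ℝ V - D.P y) v = G D j y (v - D.P y v) := rfl
    rw [h0]
    refine (G_le D Mc hMc j y _).trans ?_
    have h1 := hf j (D.h.symm^[j] y)
    have h2 := hu (j + 1) y v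
    have h3 : ‖v - D.P y v‖ ≤ M1 * ‖v‖ :=
      (ContinuousLinearMap.id ℝ V - D.P y).le_of_opNorm_le (hM1 y) v
    have h4 : μ ^ (j + 1) ≤ μ := by
      rw [pow_succ]
      exact mul_le_of_le_one_left hμ.le (pow_le_one₀ hμ.le hμ1.le)
    calc (∏ i ∈ Finset.range j, D.δ (D.h^[i] (D.h.symm^[j] y))) *
          (Mc * ‖(D.mB^[j + 1] (y, v - D.P y v)).2‖)
        ≤ (C * μ ^ j) * (Mc * (C * μ * (M1 * ‖v‖))) := by
          refine mul_le_mul h1 ?_ (by positivity) (by positivity)
          refine mul_le_mul_of_nonneg_left ?_ hMc0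
          refine h2.trans ?_
          exact mul_le_mul (mul_le_mul_of_nonneg_left h4 hC.le) h3 (norm_nonneg _) (by positivity)
      _ = C * Mc * C * μ * M1 * μ ^ j * ‖v‖ := by ring
  have hsumb : Summable (fun j : ℕ => C * Mc * C * μ * M1 * μ ^ j) :=
    (summable_geometric_of_lt_one hμ.le hμ1).mul_left _
  have hetac : Continuous (BlockAux.eta D) := by
    unfold BlockAux.eta
    refine continuous_tsum (fun j => (G_cont D j).clm_comp hP1c) hsumb hterm
  have hsumE : ∀ y, Summable (fun j => (G D j y).comp (ContinuousLinearMap.id ℝ V - D.P y)) :=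
    fun y => Summable.of_norm_bounded hsumb (fun j => hterm j y)
  have hev : ∀ y v, HasSum (fun j => G D j y (v - D.P y v)) (BlockAux.eta D y v) := by
    intro y v
    have h := (hsumE y).hasSum
    have h2 := h.mapL (ContinuousLinearMap.apply ℝ ℝ v)
    exact h2
  have hev0 : ∀ y u, D.P y u = 0 → BlockAux.eta D y (D.P y u) = 0 := by
    intro y u h; rw [h, map_zero]
  have hetaP : ∀ y v, BlockAux.eta D y (D.P y v) = 0 := by
    intro y v
    have h := hev y (D.P y v)
    rw [D.proj, sub_self] at h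
    simp only [map_zero] at h
    exact h.unique hasSum_zero
  have hkey : ∀ y v, BlockAux.eta D (D.h y) (D.A y v) = D.c y (v - D.P y v) + D.δ y * BlockAux.eta D y v := by
    intro y v
    have h := hev (D.h y) (D.A y v)
    have h1 : D.A y v - D.P (D.h y) (D.A y v) = D.A y (v - D.P y v) := by
      rw [map_sub, D.comm]
    rw [h1] at h
    have h2 := (hev y v).mul_left (D.δ y)
    have h3 : (fun j => D.δ y * G D j y (v - D.P y v)) =
        fun j => G D (j + 1) (D.h y) (D.A y (v - D.P y v)) := by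
      funext j; rw [G_h]
    rw [h3] at h2
    have h4 := (hasSum_nat_add_iff (f := fun j => G D j (D.h y) (D.A y (v - D.P y v))) 1).mp h2
    have h5 := h.unique h4
    rw [h5, Finset.sum_range_one, G_h0]
    ring
  obtain ⟨Me, hMe0, hMe⟩ := exists_bd hetac
  -- the rate
  set μ' : ℝ := (1 + μ) / 2 with hμ'
  have hμ'0 : 0 < μ' := by rw [hμ']; positivity
  have hμ'1 : μ' < 1 := by rw [hμ']; linarith
  have hμμ' : μ < μ' := by rw [hμ']; linarith
  have hr1 : μ / μ' < 1 := (div_lt_one hμ'0).mpr hμμ'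
  have hr0 : 0 ≤ μ / μ' := by positivity
  have htend := tendsto_self_mul_const_pow_of_lt_one hr0 hr1
  obtain ⟨K, hK⟩ := htend.bddAbove_range
  have hK' : ∀ m : ℕ, (m : ℝ) * (μ / μ') ^ m ≤ K := fun m => hK ⟨m, rfl⟩
  have hK0 : 0 ≤ K := by have := hK' 0; simpa using this
  -- m μ^(m-1) ≤ (K / μ) μ'^m
  have hmm : ∀ m : ℕ, (m : ℝ) * μ ^ (m - 1) ≤ K / μ * μ' ^ m := by
    intro m
    rcases Nat.eq_zero_or_pos m with rfl | hm
    · simp; positivity
    have h1 := hK' m
    have h2 : (m : ℝ) * μ ^ m ≤ K * μ' ^ m := by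
      rw [div_pow] at h1
      have h3 : (m : ℝ) * μ ^ m = (m : ℝ) * (μ ^ m / μ' ^ m) * μ' ^ m := by
        field_simp
      rw [h3]
      exact mul_le_mul_of_nonneg_right h1 (by positivity)
    have h4 : μ ^ m = μ ^ (m - 1) * μ := by
      rw [← pow_succ, Nat.sub_add_cancel hm]
    rw [h4] at h2
    rw [div_mul_eq_mul_div, le_div_iff₀ hμ]
    linarith
  let Q : Y → (V × ℝ) →L[ℝ] (V × ℝ) := fun y =>
    (ContinuousLinearMap.inl ℝ V ℝ).comp ((D.P y).comp (ContinuousLinearMap.fst ℝ V ℝ)) +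
    (ContinuousLinearMap.inr ℝ V ℝ).comp
      (ContinuousLinearMap.snd ℝ V ℝ - (BlockAux.eta D y).comp (ContinuousLinearMap.fst ℝ V ℝ))
  have hQ : ∀ y w, Q y w = (D.P y w.1, w.2 - BlockAux.eta D y w.1) := by
    intro y w
    simp [Q]
  have hQc : Continuous Q := by
    refine Continuous.add ?_ ?_
    · exact continuous_const.clm_comp (D.P_cont.clm_comp continuous_const)
    · exact continuous_const.clm_comp (continuous_const.sub (hetac.clm_comp continuous_const))
  have hMM : ∀ (m : ℕ) (y : Y) (u : V), D.P y u = 0 →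
      ‖(D.mM^[m] (y, (u, BlockAux.eta D y u))).2‖ ≤ (1 + Me) * ‖(D.mB^[m] (y, u)).2‖ := by
    intro m
    induction m with
    | zero =>
      intro y u _
      simp only [Function.iterate_zero, id]
      refine max_le ?_ ?_
      · show ‖u‖ ≤ _
        nlinarith [norm_nonneg u]
      · show ‖BlockAux.eta D y u‖ ≤ _
        have := (BlockAux.eta D y).le_of_opNorm_le (hMe y) u
        nlinarith [norm_nonneg u]
    | succ m ih =>
      intro y u hPu
      rw [Function.iterate_succ_apply, Function.iterate_succ_apply]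
      have hBA : D.A (D.h.symm y) (D.B y u) = u := by
        have := D.BA (D.h.symm y) u
        rwa [D.h.apply_symm_apply] at this
      have hPB : D.P (D.h.symm y) (D.B y u) = 0 := by
        have h1 := D.comm (D.h.symm y) (D.B y u)
        rw [hBA, D.h.apply_symm_apply, hPu] at h1
        have h2 := D.AB (D.h.symm y) (D.P (D.h.symm y) (D.B y u))
        rw [h1, map_zero] at h2
        exact h2.symm
      have hk := hkey (D.h.symm y) (D.B y u)
      rw [hBA, D.h.apply_symm_apply, hPB, sub_zero] at hk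
      have h3 : D.mM (y, (u, BlockAux.eta D y u)) =
          (D.h.symm y, (D.B y u, BlockAux.eta D (D.h.symm y) (D.B y u))) := by
        show (D.h.symm y, (D.B y u, (D.δ (D.h.symm y))⁻¹ *
          (BlockAux.eta D y u - D.c (D.h.symm y) (D.B y u)))) = _
        rw [hk, add_sub_cancel_left, inv_mul_cancel_left₀ (D.δ_pos _).ne']
      rw [h3]
      exact ih (D.h.symm y) (D.B y u) hPB
  refine ⟨Q, C + C * Mc * C * (K / μ) + (1 + Me) * C, μ', by positivity, hμ'0, hμ'1, hQc,
    ?_, ?_, ?_⟩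
  · intro y w
    rw [hQ y (Q y w), hQ y w]
    simp only [D.proj, hetaP, sub_zero]
  · intro y w
    rw [hQ, hQ]
    show (D.A y (D.P y w.1), D.c y (D.P y w.1) + D.δ y * (w.2 - BlockAux.eta D y w.1)) =
      (D.P (D.h y) (D.A y w.1), D.c y w.1 + D.δ y * w.2 - BlockAux.eta D (D.h y) (D.A y w.1))
    rw [D.comm, hkey, map_sub]
    congr 1
    ring
  · intro m y w
    have hμm : μ ^ m ≤ μ' ^ m := pow_le_pow_left₀ hμ.le hμμ'.le m
    constructor
    · rw [hQ]
      set v' := D.P y w.1 with hv'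
      set s' := w.2 - BlockAux.eta D y w.1 with hs'
      have hn1 : ‖v'‖ ≤ ‖(v', s')‖ := le_max_left _ _
      have hn2 : ‖s'‖ ≤ ‖(v', s')‖ := le_max_right _ _
      have hrange : C + C * Mc * C * (K / μ) ≤ C + C * Mc * C * (K / μ) + (1 + Me) * C := by
        have : 0 ≤ (1 + Me) * C := by positivity
        linarith
      refine le_trans (max_le ?_ ?_) (mul_le_mul_of_nonneg_right
        (mul_le_mul_of_nonneg_right hrange (by positivity)) (norm_nonneg _))
      · rw [fst_iter]
        refine (hs m y w.1).trans ?_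
        have h1 : C * μ ^ m ≤ (C + C * Mc * C * (K / μ)) * μ' ^ m := by
          have : 0 ≤ C * Mc * C * (K / μ) := by positivity
          calc C * μ ^ m ≤ C * μ' ^ m := mul_le_mul_of_nonneg_left hμm hC.le
            _ ≤ _ := mul_le_mul_of_nonneg_right (by linarith) (by positivity)
        exact mul_le_mul h1 hn1 (norm_nonneg _) (by positivity)
      · rw [snd_iter]
        refine (norm_add_le _ _).trans ?_
        have hp : 0 ≤ ∏ i ∈ Finset.range m, D.δ (D.h^[i] y) :=
          Finset.prod_nonneg fun i _ => (D.δ_pos _).le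
        have h1 : ‖(∏ i ∈ Finset.range m, D.δ (D.h^[i] y)) * s'‖ ≤
            C * μ' ^ m * ‖(v', s')‖ := by
          rw [norm_mul, Real.norm_of_nonneg hp]
          exact mul_le_mul ((hf m y).trans (mul_le_mul_of_nonneg_left hμm hC.le)) hn2
            (norm_nonneg _) (by positivity)
        have h2 : ‖(D.mL^[m] (y, (v', 0))).2.2‖ ≤
            C * Mc * C * (K / μ) * μ' ^ m * ‖(v', s')‖ := by
          refine (sig_le D C μ Mc hC hμ hMc0 hMc hf m y v').trans ?_
          have h3 : ∀ i ∈ Finset.range m,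
              C * μ ^ (m - 1 - i) * (Mc * ‖(D.mA^[i] (y, v')).2‖) ≤
                C * Mc * C * μ ^ (m - 1) * ‖v'‖ := by
            intro i hi
            have hi' := Finset.mem_range.mp hi
            have h5 := hs i y w.1
            have h6 : μ ^ (m - 1) = μ ^ (m - 1 - i) * μ ^ i := by
              rw [← pow_add]; congr 1; omega
            rw [h6]
            calc C * μ ^ (m - 1 - i) * (Mc * ‖(D.mA^[i] (y, v')).2‖)
                ≤ C * μ ^ (m - 1 - i) * (Mc * (C * μ ^ i * ‖v'‖)) := by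
                  refine mul_le_mul_of_nonneg_left ?_ (by positivity)
                  exact mul_le_mul_of_nonneg_left h5 hMc0
              _ = _ := by ring
          refine (Finset.sum_le_sum h3).trans ?_
          rw [Finset.sum_const, Finset.card_range, nsmul_eq_mul]
          have h7 := hmm m
          calc (m : ℝ) * (C * Mc * C * μ ^ (m - 1) * ‖v'‖)
              = C * Mc * C * ((m : ℝ) * μ ^ (m - 1)) * ‖v'‖ := by ring
            _ ≤ C * Mc * C * (K / μ * μ' ^ m) * ‖(v', s')‖ := by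
                refine mul_le_mul ?_ hn1 (norm_nonneg _) (by positivity)
                exact mul_le_mul_of_nonneg_left h7 (by positivity)
            _ = _ := by ring
        calc _ ≤ C * μ' ^ m * ‖(v', s')‖ + C * Mc * C * (K / μ) * μ' ^ m * ‖(v', s')‖ :=
              add_le_add h1 h2
          _ = _ := by ring
    · have h1 : w - Q y w = (w.1 - D.P y w.1, BlockAux.eta D y (w.1 - D.P y w.1)) := by
        rw [hQ, map_sub, hetaP, sub_zero]
        ext
        · rfl
        · show w.2 - (w.2 - BlockAux.eta D y w.1) = _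
          ring
      rw [h1]
      refine (hMM m y _ (P_sub D y w.1)).trans ?_
      have h2 := hu m y w.1
      have h3 : ‖w.1 - D.P y w.1‖ ≤ ‖(w.1 - D.P y w.1, BlockAux.eta D y (w.1 - D.P y w.1))‖ :=
        le_max_left _ _
      calc (1 + Me) * ‖(D.mB^[m] (y, w.1 - D.P y w.1)).2‖
          ≤ (1 + Me) * (C * μ' ^ m * ‖(w.1 - D.P y w.1, BlockAux.eta D y (w.1 - D.P y w.1))‖) := by
            refine mul_le_mul_of_nonneg_left ?_ (by positivity)
            refine h2.trans ?_
            exact mul_le_mul (mul_le_mul_of_nonneg_left hμm hC.le) h3 (norm_nonneg _)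
              (by positivity)
        _ = ((1 + Me) * C) * μ' ^ m * ‖(w.1 - D.P y w.1, BlockAux.eta D y (w.1 - D.P y w.1))‖ := by ring
        _ ≤ _ := by
            refine mul_le_mul_of_nonneg_right (mul_le_mul_of_nonneg_right ?_ (by positivity))
              (norm_nonneg _)
            have : 0 ≤ C * Mc * C * (K / μ) := by positivity
            linarith

end Pool.Agent.H728R2.OS
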