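import Pool.Agent.H728R2.OS.Base

open Set Filter Topology Complex Matrix
open scoped ComplexConjugate

namespace Pool.Agent.H728R2.OS

private theorem lift_iter {V X : Type*} {π : V → X} [NormedAddCommGroup V] [NormedSpace ℝ V]
    {F : V → V} {f : X → X} (h : IsLift π F f) (m : ℕ) : IsLift π (F^[m]) (f^[m]) := by
  induction m with
  | zero => exact fun z => rfl
  | succ m ih =>
    intro z
    rw [Function.iterate_succ_apply', Function.iterate_succ_apply', h, ih]

/-- Hyperbolicity does not depend on the lifts. (`hu` is the uniqueness of derivatives of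
lifts.) -/
theorem isHypLift_indep {V X : Type*} [NormedAddCommGroup V] [NormedSpace ℝ V]
    [TopologicalSpace X] {π : V → X}
    (hu : ∀ (F G : V → V), Continuous F → Continuous G → ∀ f : X → X, IsLift π F f →
      IsLift π G f → ∀ z w : V, π z = π w → fderiv ℝ F z = fderiv ℝ G w)
    {f : X ≃ₜ X} {S : Set X} {F G F' G' : V → V} (hF : ContDiff ℝ 1 F) (hG : ContDiff ℝ 1 G)
    (lF : IsLift π F f) (lG : IsLift π G f.symm) (hF' : ContDiff ℝ 1 F') (hG' : ContDiff ℝ 1 G')
    (lF' : IsLift π F' f) (lG' : IsLift π G' f.symm) (h : IsHypLift π F G f S) :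
    IsHypLift π F' G' f S := by
  obtain ⟨P, c, μ, hc, hμ, hμ1, hP, h1, h2, h3⟩ := h
  refine ⟨P, c, μ, hc, hμ, hμ1, hP, h1, fun z hz => ?_, fun m z hz v => ?_⟩
  · rw [hu F' F hF'.continuous hF.continuous f lF' lF z z rfl]
    exact h2 z hz
  · rw [hu (F'^[m]) (F^[m]) (hF'.continuous.iterate m) (hF.continuous.iterate m) (f^[m])
      (lift_iter lF' m) (lift_iter lF m) z z rfl,
      hu (G'^[m]) (G^[m]) (hG'.continuous.iterate m) (hG.continuous.iterate m) (f.symm^[m])
      (lift_iter lG' m) (lift_iter lG m) z z rfl]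
    exact h3 m z hz v

/-- Hyperbolicity for the inverse. -/
theorem isHyperbolic_symm {V X : Type*} [NormedAddCommGroup V] [NormedSpace ℝ V]
    [TopologicalSpace X] {π : V → X}
    (hu : ∀ (F G : V → V), Continuous F → Continuous G → ∀ f : X → X, IsLift π F f →
      IsLift π G f → ∀ z w : V, π z = π w → fderiv ℝ F z = fderiv ℝ G w)
    {f : X ≃ₜ X} {S : Set X} (hinv : ∀ x, f x ∈ S ↔ x ∈ S) (h : IsHyperbolic π f S) :
    IsHyperbolic π f.symm S := by
  obtain ⟨F, G, hF, hG, lF, lG, P, c, μ, hc, hμ, hμ1, hP, h1, h2, h3⟩ := h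
  refine ⟨G, F, hG, hF, lG, lF, fun x => ContinuousLinearMap.id ℝ V - P x, c, μ, hc, hμ, hμ1,
    continuousOn_const.sub hP, fun x hx => ?_, fun z hz => ?_, fun m z hz v => ?_⟩
  · ext v
    have h4 := DFunLike.congr_fun (h1 x hx) v
    simp only [ContinuousLinearMap.comp_apply, ContinuousLinearMap.sub_apply,
      ContinuousLinearMap.id_apply, map_sub] at h4 ⊢
    rw [h4]
    abel
  · have hFG : IsLift π (F ∘ G) (id : X → X) := by
      intro w
      show π (F (G w)) = π w
      rw [lF, lG, Homeomorph.apply_symm_apply]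
    have hGF : IsLift π (G ∘ F) (id : X → X) := by
      intro w
      show π (G (F w)) = π w
      rw [lG, lF, Homeomorph.symm_apply_apply]
    have hid : IsLift π (id : V → V) (id : X → X) := fun w => rfl
    have dF := hF.differentiable one_ne_zero
    have dG := hG.differentiable one_ne_zero
    have a1 : fderiv ℝ F (G z) ∘L fderiv ℝ G z = ContinuousLinearMap.id ℝ V := by
      rw [← fderiv_comp z (dF (G z)) (dG z),
        hu (F ∘ G) id (hF.continuous.comp hG.continuous) continuous_id id hFG hid z z rfl,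
        fderiv_id]
    have a2 : fderiv ℝ G z ∘L fderiv ℝ F (G z) = ContinuousLinearMap.id ℝ V := by
      have h5 : π (F (G z)) = π z := hFG z
      rw [← hu G G hG.continuous hG.continuous f.symm lG lG (F (G z)) z h5,
        ← fderiv_comp (G z) (dG (F (G z))) (dF (G z)),
        hu (G ∘ F) id (hG.continuous.comp hF.continuous) continuous_id id hGF hid (G z) (G z) rfl,
        fderiv_id]
    have hz' : π (G z) ∈ S := by
      rw [← hinv, lG, Homeomorph.apply_symm_apply]
      exact hz
    have h4 := h2 (G z) hz'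
    rw [lG, Homeomorph.apply_symm_apply] at h4
    have h5 : fderiv ℝ G z ∘L P (π z) = P (f.symm (π z)) ∘L fderiv ℝ G z := by
      calc fderiv ℝ G z ∘L P (π z)
          = fderiv ℝ G z ∘L (P (π z) ∘L (fderiv ℝ F (G z) ∘L fderiv ℝ G z)) := by
            rw [a1, ContinuousLinearMap.comp_id]
        _ = fderiv ℝ G z ∘L ((P (π z) ∘L fderiv ℝ F (G z)) ∘L fderiv ℝ G z) := by
            rw [ContinuousLinearMap.comp_assoc]
        _ = (fderiv ℝ G z ∘L fderiv ℝ F (G z)) ∘L (P (f.symm (π z)) ∘L fderiv ℝ G z) := by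
            rw [← h4]
            simp only [ContinuousLinearMap.comp_assoc]
        _ = _ := by rw [a2, ContinuousLinearMap.id_comp]
    rw [ContinuousLinearMap.comp_sub, ContinuousLinearMap.sub_comp, ContinuousLinearMap.comp_id,
      ContinuousLinearMap.id_comp, h5]
  · obtain ⟨h4, h5⟩ := h3 m z hz v
    have e1 : (ContinuousLinearMap.id ℝ V - P (π z)) v = v - P (π z) v := rfl
    have e2 : v - (ContinuousLinearMap.id ℝ V - P (π z)) v = P (π z) v := by
      rw [e1]
      abel
    rw [e2, e1]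
    exact ⟨h5, h4⟩

/-- The union of two disjoint closed invariant hyperbolic sets is hyperbolic. -/
theorem isHyperbolic_union {V X : Type*} [NormedAddCommGroup V] [NormedSpace ℝ V]
    [TopologicalSpace X] {π : V → X}
    (hu : ∀ (F G : V → V), Continuous F → Continuous G → ∀ f : X → X, IsLift π F f →
      IsLift π G f → ∀ z w : V, π z = π w → fderiv ℝ F z = fderiv ℝ G w)
    {f : X ≃ₜ X} {S U : Set X} (hS : IsClosed S) (hU : IsClosed U) (hd : Disjoint S U)
    (iS : ∀ x, f x ∈ S ↔ x ∈ S) (iU : ∀ x, f x ∈ U ↔ x ∈ U)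
    (h1 : IsHyperbolic π f S) (h2 : IsHyperbolic π f U) : IsHyperbolic π f (S ∪ U) := by
  classical
  obtain ⟨F, G, hF, hG, lF, lG, P, c, μ, hc, hμ, hμ1, hP, p1, p2, p3⟩ := h1
  obtain ⟨F', G', hF', hG', lF', lG', h2⟩ := h2
  obtain ⟨Q, c', μ', hc', hμ', hμ1', hQ, q1, q2, q3⟩ :=
    isHypLift_indep hu hF' hG' lF' lG' hF hG lF lG h2
  have nS : ∀ x, x ∈ U → x ∉ S := fun x hx hx' => Set.disjoint_left.1 hd hx' hx
  have eS : ∀ x ∈ S, (if x ∈ S then P x else Q x) = P x := fun x hx => if_pos hx
  have eU : ∀ x ∈ U, (if x ∈ S then P x else Q x) = Q x := fun x hx => if_neg (nS x hx)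
  have hb : ∀ m : ℕ, c * μ ^ m ≤ max c c' * max μ μ' ^ m := fun m => by
    gcongr
    · exact le_max_left _ _
    · exact le_max_left _ _
  have hb' : ∀ m : ℕ, c' * μ' ^ m ≤ max c c' * max μ μ' ^ m := fun m => by
    gcongr
    · exact le_max_right _ _
    · exact le_max_right _ _
  refine ⟨F, G, hF, hG, lF, lG, fun x => if x ∈ S then P x else Q x, max c c', max μ μ',
    lt_max_of_lt_left hc, lt_max_of_lt_left hμ, max_lt hμ1 hμ1', ?_, ?_, ?_, ?_⟩
  · exact ContinuousOn.union_of_isClosed (hP.congr eS) (hQ.congr eU) hS hU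
  · rintro x (hx | hx)
    · simp only [if_pos hx]
      exact p1 x hx
    · simp only [if_neg (nS x hx)]
      exact q1 x hx
  · rintro z (hz | hz)
    · simp only [if_pos hz, if_pos ((iS _).2 hz)]
      exact p2 z hz
    · simp only [if_neg (nS _ hz), if_neg (nS _ ((iU _).2 hz))]
      exact q2 z hz
  · rintro m z (hz | hz) v
    · simp only [if_pos hz]
      obtain ⟨h4, h5⟩ := p3 m z hz v
      exact ⟨h4.trans (mul_le_mul_of_nonneg_right (hb m) (norm_nonneg _)),
        h5.trans (mul_le_mul_of_nonneg_right (hb m) (norm_nonneg _))⟩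
    · simp only [if_neg (nS _ hz)]
      obtain ⟨h4, h5⟩ := q3 m z hz v
      exact ⟨h4.trans (mul_le_mul_of_nonneg_right (hb' m) (norm_nonneg _)),
        h5.trans (mul_le_mul_of_nonneg_right (hb' m) (norm_nonneg _))⟩

end Pool.Agent.H728R2.OS
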