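import Pool.Agent.H728R2.OS.Base

open Set Filter Topology Complex Matrix
open scoped ComplexConjugate

set_option linter.unusedSectionVars false
set_option linter.style.haveILetI false

namespace Pool.Agent.H728R2.OS

section aux

variable {V X : Type*} [NormedAddCommGroup V] [NormedSpace ℝ V] [TopologicalSpace X]

private theorem hypu_wd {π : V → X} (hπ : Function.Surjective π) {F : V → V}
    (hF : ∀ z w, π z = π w → fderiv ℝ F z = fderiv ℝ F w) (z : V) :
    fderiv ℝ F (Function.surjInv hπ (π z)) = fderiv ℝ F z :=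
  hF _ _ (Function.surjInv_eq hπ _)

private theorem hypu_cont {π : V → X} (hq : IsOpenQuotientMap π) {F : V → V}
    (hC : ContDiff ℝ 1 F) (hF : ∀ z w, π z = π w → fderiv ℝ F z = fderiv ℝ F w) :
    Continuous (fun x => fderiv ℝ F (Function.surjInv hq.surjective x)) := by
  refine hq.isQuotientMap.continuous_iff.2 ?_
  have : (fun x => fderiv ℝ F (Function.surjInv hq.surjective x)) ∘ π = fderiv ℝ F :=
    funext (hypu_wd hq.surjective hF)
  rw [this]
  exact hC.continuous_fderiv one_ne_zero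

private theorem hypu_iter_diff {F : V → V} (hF : ContDiff ℝ 1 F) (m : ℕ) :
    Differentiable ℝ (F^[m]) := by
  have h : ContDiff ℝ 1 (F^[m]) := by
    induction m with
    | zero => simpa using contDiff_id
    | succ m ih => rw [Function.iterate_succ]; exact ih.comp hF
  exact h.differentiable one_ne_zero

private theorem hypu_iter_fderiv {F : V → V} (hF : ContDiff ℝ 1 F) (m : ℕ) (z v : V) :
    fderiv ℝ (F^[m + 1]) z v = fderiv ℝ (F^[m]) (F z) (fderiv ℝ F z v) := by
  rw [Function.iterate_succ, fderiv_comp z (hypu_iter_diff hF m (F z))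
    (hF.differentiable one_ne_zero z)]
  rfl

/-- iterating a cocycle which is given by the derivative of the lift -/
private theorem hypu_cocycle {Y : Type*} {F : V → V} (hF : ContDiff ℝ 1 F) (π : V → X)
    (val : Y → X) (M : Y × V → Y × V)
    (hM : ∀ (y : Y) (z v : V), π z = val y → (M (y, v)).2 = fderiv ℝ F z v ∧
      π (F z) = val (M (y, v)).1) : ∀ (m : ℕ) (y : Y) (z v : V), π z = val y →
      (M^[m] (y, v)).2 = fderiv ℝ (F^[m]) z v := by
  intro m
  induction m with
  | zero => intro y z v _; simp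
  | succ m ih =>
    intro y z v hz
    obtain ⟨h1, h2⟩ := hM y z v hz
    rw [Function.iterate_succ, Function.comp_apply, hypu_iter_fderiv hF, ← h1]
    have := ih (M (y, v)).1 (F z) (M (y, v)).2 h2
    exact this

/-- derivatives of a lift of a map and of a lift of its inverse -/
private theorem hypu_inv {π : V → X} {F G : V → V} (hF : ContDiff ℝ 1 F) (hG : ContDiff ℝ 1 G)
    (hu : ∀ (F G : V → V), Continuous F → Continuous G →
      ∀ f : X → X, IsLift π F f → IsLift π G f →
      ∀ z w : V, π z = π w → fderiv ℝ F z = fderiv ℝ G w)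
    (hid : ∀ z, π (G (F z)) = π z) (z v : V) :
    fderiv ℝ G (F z) (fderiv ℝ F z v) = v := by
  have h1 := hu (G ∘ F) id (hG.continuous.comp hF.continuous) continuous_id id
    (fun z => hid z) (fun z => rfl) z z rfl
  rw [fderiv_comp z (hG.differentiable one_ne_zero _) (hF.differentiable one_ne_zero _),
    fderiv_id] at h1
  have := congrArg (fun L => L v) h1
  simpa using this

end aux

/-- Hyperbolicity of a closed invariant set of the skew product over a hyperbolic set of the base,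
if the fibres are contracted. `hblock` is the abstract statement on block triangular cocycles. -/
theorem hyperbolic_of_contraction {d : ℕ} {T : Torus d ≃ₜ Torus d}
    {f : (Torus d × Circ) ≃ₜ (Torus d × Circ)} (hT : ∀ x y, (f (x, y)).1 = T x)
    (hcov : IsCov (toTorus (d := d))) (hcov1 : IsCov (toTorus1 (d := d)))
    (hu : ∀ (F G : (Fin d → ℝ) → (Fin d → ℝ)), Continuous F → Continuous G →
      ∀ f : Torus d → Torus d, IsLift toTorus F f → IsLift toTorus G f →
      ∀ z w : Fin d → ℝ, toTorus z = toTorus w → fderiv ℝ F z = fderiv ℝ G w)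
    (hu1 : ∀ (F G : (Fin d → ℝ) × ℝ → (Fin d → ℝ) × ℝ), Continuous F → Continuous G →
      ∀ f : Torus d × Circ → Torus d × Circ, IsLift toTorus1 F f → IsLift toTorus1 G f →
      ∀ z w : (Fin d → ℝ) × ℝ, toTorus1 z = toTorus1 w → fderiv ℝ F z = fderiv ℝ G w)
    (hblock : ∀ (Y : Type) [TopologicalSpace Y] [CompactSpace Y] (D : BlockData Y (Fin d → ℝ))
      (C μ : ℝ), 0 < C → 0 < μ → μ < 1 →
      (∀ (m : ℕ) (y : Y) (v : Fin d → ℝ),
        ‖(D.mA^[m] (y, D.P y v)).2‖ ≤ C * μ ^ m * ‖D.P y v‖) →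
      (∀ (m : ℕ) (y : Y) (v : Fin d → ℝ),
        ‖(D.mB^[m] (y, v - D.P y v)).2‖ ≤ C * μ ^ m * ‖v - D.P y v‖) →
      (∀ (m : ℕ) (y : Y), ∏ i ∈ Finset.range m, D.δ (D.h^[i] y) ≤ C * μ ^ m) →
      ∃ (Q : Y → ((Fin d → ℝ) × ℝ) →L[ℝ] ((Fin d → ℝ) × ℝ)) (C' μ' : ℝ),
        0 < C' ∧ 0 < μ' ∧ μ' < 1 ∧ Continuous Q ∧
        (∀ y w, Q y (Q y w) = Q y w) ∧
        (∀ y w, (D.mL (y, Q y w)).2 = Q (D.h y) (D.mL (y, w)).2) ∧
        ∀ (m : ℕ) (y : Y) (w : (Fin d → ℝ) × ℝ),
          ‖(D.mL^[m] (y, Q y w)).2‖ ≤ C' * μ' ^ m * ‖Q y w‖ ∧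
          ‖(D.mM^[m] (y, w - Q y w)).2‖ ≤ C' * μ' ^ m * ‖w - Q y w‖)
    {Λ : Set (Torus d)} (hΛ : IsHyperbolic toTorus T Λ) (hΛi : ∀ x, T x ∈ Λ ↔ x ∈ Λ)
    {R : Set (Torus d × Circ)} (hR : IsClosed R) (hRi : ∀ z, f z ∈ R ↔ z ∈ R)
    (hRΛ : ∀ z ∈ R, z.1 ∈ Λ)
    {F G : (Fin d → ℝ) × ℝ → (Fin d → ℝ) × ℝ} (hF : ContDiff ℝ 1 F) (hG : ContDiff ℝ 1 G)
    (lF : IsLift toTorus1 F f) (lG : IsLift toTorus1 G f.symm)
    (w : Torus d × Circ → ℝ) (w_pos : ∀ z, 0 < w z)
    (hw : ∀ z, fderiv ℝ F z ((0 : Fin d → ℝ), (1 : ℝ)) = (0, (w (toTorus1 z))⁻¹))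
    (C μ : ℝ) (hC : 0 < C) (hμ : 0 < μ) (hμ1 : μ < 1)
    (hcontr : ∀ z ∈ R, ∀ n : ℕ, (Phi f w n z)⁻¹ ≤ C * μ ^ n) :
    IsHyperbolic toTorus1 f R := by
  obtain ⟨FT, GT, hFT, hGT, lFT, lGT, P0, c0, μ0, hc0, hμ0, hμ01, hP0, hPP, hPcomm, hPbd⟩ := hΛ
  have hT' : ∀ z : Torus d × Circ, (f z).1 = T z.1 := fun z => hT z.1 z.2
  have hTs : ∀ z : Torus d × Circ, (f.symm z).1 = T.symm z.1 := by
    intro z
    have := hT' (f.symm z)
    rw [f.apply_symm_apply] at this
    rw [this, T.symm_apply_apply]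
  -- derivatives only depend on the base point
  have wdFT := fun z w h => hu FT FT hFT.continuous hFT.continuous T lFT lFT z w h
  have wdGT := fun z w h => hu GT GT hGT.continuous hGT.continuous T.symm lGT lGT z w h
  have wdF := fun z w h => hu1 F F hF.continuous hF.continuous f lF lF z w h
  have wdG := fun z w h => hu1 G G hG.continuous hG.continuous f.symm lG lG z w h
  -- the first component of the derivatives of `F`, `G`
  have hF1 : ∀ z u, (fderiv ℝ F z u).1 = fderiv ℝ FT z.1 u.1 := by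
    intro z u
    have hl : IsLift toTorus1 (fun z => (FT z.1, (F z).2)) f := by
      intro z
      have h1 := lF z
      have h2 := lFT z.1
      have h3 : toTorus1 (FT z.1, (F z).2) = (toTorus (FT z.1), (toTorus1 (F z)).2) := rfl
      rw [h3, h1, h2]
      refine Prod.ext ?_ rfl
      exact (hT' (toTorus1 z)).symm
    have hd1 : DifferentiableAt ℝ (fun z : (Fin d → ℝ) × ℝ => FT z.1) z :=
      (hFT.differentiable one_ne_zero _).comp z differentiableAt_fst
    have hd2 : DifferentiableAt ℝ (fun z : (Fin d → ℝ) × ℝ => (F z).2) z :=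
      (hF.differentiable one_ne_zero z).snd
    have h1 := hu1 F (fun z => (FT z.1, (F z).2)) hF.continuous
      ((hFT.continuous.comp continuous_fst).prodMk (continuous_snd.comp hF.continuous)) f lF hl
      z z rfl
    rw [h1, hd1.fderiv_prodMk hd2]
    have h2 : fderiv ℝ (fun z : (Fin d → ℝ) × ℝ => FT z.1) z =
        (fderiv ℝ FT z.1).comp (ContinuousLinearMap.fst ℝ _ _) := by
      have := fderiv_comp z (hFT.differentiable one_ne_zero z.1)
        (differentiableAt_fst (𝕜 := ℝ) (p := z))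
      rw [fderiv_fst] at this
      exact this
    rw [h2]
    rfl
  have hG1 : ∀ z u, (fderiv ℝ G z u).1 = fderiv ℝ GT z.1 u.1 := by
    intro z u
    have hl : IsLift toTorus1 (fun z => (GT z.1, (G z).2)) f.symm := by
      intro z
      have h1 := lG z
      have h2 := lGT z.1
      have h3 : toTorus1 (GT z.1, (G z).2) = (toTorus (GT z.1), (toTorus1 (G z)).2) := rfl
      rw [h3, h1, h2]
      refine Prod.ext ?_ rfl
      exact (hTs (toTorus1 z)).symm
    have hd1 : DifferentiableAt ℝ (fun z : (Fin d → ℝ) × ℝ => GT z.1) z :=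
      (hGT.differentiable one_ne_zero _).comp z differentiableAt_fst
    have hd2 : DifferentiableAt ℝ (fun z : (Fin d → ℝ) × ℝ => (G z).2) z :=
      (hG.differentiable one_ne_zero z).snd
    have h1 := hu1 G (fun z => (GT z.1, (G z).2)) hG.continuous
      ((hGT.continuous.comp continuous_fst).prodMk (continuous_snd.comp hG.continuous)) f.symm lG hl
      z z rfl
    rw [h1, hd1.fderiv_prodMk hd2]
    have h2 : fderiv ℝ (fun z : (Fin d → ℝ) × ℝ => GT z.1) z =
        (fderiv ℝ GT z.1).comp (ContinuousLinearMap.fst ℝ _ _) := by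
      have := fderiv_comp z (hGT.differentiable one_ne_zero z.1)
        (differentiableAt_fst (𝕜 := ℝ) (p := z))
      rw [fderiv_fst] at this
      exact this
    rw [h2]
    rfl
  -- inverses
  have invT : ∀ z v, fderiv ℝ GT (FT z) (fderiv ℝ FT z v) = v :=
    hypu_inv hFT hGT hu (fun z => by rw [lGT, lFT, T.symm_apply_apply])
  have invT' : ∀ z v, fderiv ℝ FT (GT z) (fderiv ℝ GT z v) = v :=
    hypu_inv hGT hFT hu (fun z => by rw [lFT, lGT, T.apply_symm_apply])
  have invF' : ∀ z v, fderiv ℝ F (G z) (fderiv ℝ G z v) = v :=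
    hypu_inv hG hF hu1 (fun z => by rw [lF, lG, f.apply_symm_apply])
  -- the functions on the tori
  let sT := Function.surjInv hcov.quot.surjective
  let sF := Function.surjInv hcov1.quot.surjective
  have hsT : ∀ x, toTorus (sT x) = x := Function.surjInv_eq hcov.quot.surjective
  have hsF : ∀ x, toTorus1 (sF x) = x := Function.surjInv_eq hcov1.quot.surjective
  let A0 : Torus d → (Fin d → ℝ) →L[ℝ] (Fin d → ℝ) := fun x => fderiv ℝ FT (sT x)
  let B0 : Torus d → (Fin d → ℝ) →L[ℝ] (Fin d → ℝ) := fun x => fderiv ℝ GT (sT x)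
  let DF : Torus d × Circ → ((Fin d → ℝ) × ℝ) →L[ℝ] ((Fin d → ℝ) × ℝ) :=
    fun x => fderiv ℝ F (sF x)
  have hA0 : Continuous A0 := hypu_cont hcov.quot hFT wdFT
  have hB0 : Continuous B0 := hypu_cont hcov.quot hGT wdGT
  have hDF : Continuous DF := hypu_cont hcov1.quot hF wdF
  have eA0 : ∀ z x, toTorus z = x → A0 x = fderiv ℝ FT z := by
    rintro z x rfl; exact wdFT _ _ (hsT _)
  have eB0 : ∀ z x, toTorus z = x → B0 x = fderiv ℝ GT z := by
    rintro z x rfl; exact wdGT _ _ (hsT _)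
  have eDF : ∀ z x, toTorus1 z = x → DF x = fderiv ℝ F z := by
    rintro z x rfl; exact wdF _ _ (hsF _)
  have eδ : ∀ x, (w x)⁻¹ = (DF x ((0 : Fin d → ℝ), (1 : ℝ))).2 := by
    intro x
    rw [eDF (sF x) x (hsF x), hw, hsF]
  have hδc : Continuous fun x => (w x)⁻¹ := by
    have : (fun x => (w x)⁻¹) = fun x => (DF x ((0 : Fin d → ℝ), (1 : ℝ))).2 := funext eδ
    rw [this]
    exact continuous_snd.comp (hDF.clm_apply continuous_const)
  haveI : CompactSpace R := isCompact_iff_compactSpace.1 hR.isCompact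
  let hY : R ≃ₜ R :=
    { toFun := fun y => ⟨f y.1, (hRi _).2 y.2⟩
      invFun := fun y => ⟨f.symm y.1, (hRi _).1 (by rw [f.apply_symm_apply]; exact y.2)⟩
      left_inv := fun y => Subtype.ext (f.symm_apply_apply _)
      right_inv := fun y => Subtype.ext (f.apply_symm_apply _)
      continuous_toFun := (f.continuous.comp continuous_subtype_val).subtype_mk _
      continuous_invFun := (f.symm.continuous.comp continuous_subtype_val).subtype_mk _ }
  let D : BlockData R (Fin d → ℝ) :=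
    { h := hY
      A := fun y => A0 y.1.1
      B := fun y => B0 y.1.1
      c := fun y => (ContinuousLinearMap.snd ℝ (Fin d → ℝ) ℝ).comp
        ((DF y.1).comp (ContinuousLinearMap.inl ℝ (Fin d → ℝ) ℝ))
      δ := fun y => (w y.1)⁻¹
      P := fun y => P0 y.1.1
      A_cont := hA0.comp (continuous_fst.comp continuous_subtype_val)
      B_cont := hB0.comp (continuous_fst.comp continuous_subtype_val)
      c_cont := continuous_const.clm_comp
        ((hDF.comp continuous_subtype_val).clm_comp continuous_const)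
      δ_cont := hδc.comp continuous_subtype_val
      P_cont := hP0.comp_continuous (continuous_fst.comp continuous_subtype_val)
        (fun y => hRΛ _ y.2)
      AB := by
        intro y v
        have e1 := eA0 (sT y.1.1) y.1.1 (hsT _)
        have e2 := eB0 (FT (sT y.1.1)) (f y.1).1 (by rw [lFT, hsT, hT'])
        change B0 (f y.1).1 (A0 y.1.1 v) = v
        rw [e1, e2, invT]
      BA := by
        intro y v
        have e1 := eB0 (sT (f y.1).1) (f y.1).1 (hsT _)
        have e2 := eA0 (GT (sT (f y.1).1)) y.1.1 (by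
          rw [lGT, hsT, hT', T.symm_apply_apply])
        change A0 y.1.1 (B0 (f y.1).1 v) = v
        rw [e1, e2, invT']
      δ_pos := fun y => inv_pos.2 (w_pos _)
      proj := by
        intro y v
        have := congrArg (fun L => L v) (hPP y.1.1 (hRΛ _ y.2))
        exact this
      comm := by
        intro y v
        have e1 := eA0 (sT y.1.1) y.1.1 (hsT _)
        have h1 := hPcomm (sT y.1.1) (by rw [hsT]; exact hRΛ _ y.2)
        rw [hsT] at h1
        have h2 := congrArg (fun L => L v) h1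
        change A0 y.1.1 (P0 y.1.1 v) = P0 (f y.1).1 (A0 y.1.1 v)
        rw [e1, hT']
        exact h2 }
  -- constants
  let C1 := max c0 C
  let μ1 := max μ0 μ
  have hC1 : 0 < C1 := lt_max_of_lt_left hc0
  have hμ1' : 0 < μ1 := lt_max_of_lt_left hμ0
  have hμ11 : μ1 < 1 := max_lt hμ01 hμ1
  have hb0 : ∀ m : ℕ, c0 * μ0 ^ m ≤ C1 * μ1 ^ m := fun m =>
    mul_le_mul (le_max_left _ _) (pow_le_pow_left₀ hμ0.le (le_max_left _ _) m)
      (pow_nonneg hμ0.le m) hC1.le
  have hb1 : ∀ m : ℕ, C * μ ^ m ≤ C1 * μ1 ^ m := fun m =>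
    mul_le_mul (le_max_right _ _) (pow_le_pow_left₀ hμ.le (le_max_right _ _) m)
      (pow_nonneg hμ.le m) hC1.le
  -- iterates
  have itA : ∀ (m : ℕ) (y : R) (z v : Fin d → ℝ), toTorus z = y.1.1 →
      (D.mA^[m] (y, v)).2 = fderiv ℝ (FT^[m]) z v := by
    refine hypu_cocycle hFT toTorus (fun y : R => y.1.1) D.mA ?_
    intro y z v hz
    refine ⟨?_, ?_⟩
    · change A0 y.1.1 v = _
      rw [eA0 z _ hz]
    · change toTorus (FT z) = (f y.1).1
      rw [lFT, hz, hT']
  have itB : ∀ (m : ℕ) (y : R) (z v : Fin d → ℝ), toTorus z = y.1.1 →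
      (D.mB^[m] (y, v)).2 = fderiv ℝ (GT^[m]) z v := by
    refine hypu_cocycle hGT toTorus (fun y : R => y.1.1) D.mB ?_
    intro y z v hz
    refine ⟨?_, ?_⟩
    · change B0 y.1.1 v = _
      rw [eB0 z _ hz]
    · change toTorus (GT z) = (f.symm y.1).1
      rw [lGT, hz, hTs]
  have mLeq : ∀ (y : R) (z u : (Fin d → ℝ) × ℝ), toTorus1 z = y.1 →
      (D.mL (y, u)).2 = fderiv ℝ F z u := by
    intro y z u hz
    have e1 := eA0 z.1 y.1.1 (by rw [← hz]; rfl)
    have e2 := eDF z y.1 hz
    change (A0 y.1.1 u.1, (DF y.1 (u.1, 0)).2 + (w y.1)⁻¹ * u.2) = fderiv ℝ F z u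
    refine Prod.ext ?_ ?_
    · simp only
      rw [hF1, e1]
    · simp only
      have h1 : u = (u.1, (0 : ℝ)) + u.2 • ((0 : Fin d → ℝ), (1 : ℝ)) := by
        refine Prod.ext ?_ ?_ <;> simp
      have h2 : fderiv ℝ F z u = fderiv ℝ F z (u.1, 0) + u.2 • fderiv ℝ F z (0, 1) := by
        conv_lhs => rw [h1]
        rw [map_add, map_smul]
      rw [h2, hw, hz, e2]
      simp [mul_comm]
  have itL : ∀ (m : ℕ) (y : R) (z u : (Fin d → ℝ) × ℝ), toTorus1 z = y.1 →
      (D.mL^[m] (y, u)).2 = fderiv ℝ (F^[m]) z u := by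
    refine hypu_cocycle hF toTorus1 (fun y : R => y.1) D.mL ?_
    intro y z v hz
    refine ⟨mLeq y z v hz, ?_⟩
    change toTorus1 (F z) = f y.1
    rw [lF, hz]
  have mMeq : ∀ (y : R) (z u : (Fin d → ℝ) × ℝ), toTorus1 z = y.1 →
      (D.mM (y, u)).2 = fderiv ℝ G z u := by
    intro y z u hz
    have hz' : toTorus1 (G z) = (D.h.symm y).1 := by
      change toTorus1 (G z) = f.symm y.1
      rw [lG, hz]
    have e1 := eB0 z.1 y.1.1 (by rw [← hz]; rfl)
    have h1 : (fderiv ℝ G z u).1 = D.B y u.1 := by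
      change _ = B0 y.1.1 u.1
      rw [hG1, e1]
    have h2 := mLeq (D.h.symm y) (G z) (fderiv ℝ G z u) hz'
    rw [invF'] at h2
    have h3 : D.c (D.h.symm y) (fderiv ℝ G z u).1 + D.δ (D.h.symm y) * (fderiv ℝ G z u).2 = u.2 :=
      congrArg Prod.snd h2
    have hpos := D.δ_pos (D.h.symm y)
    refine Prod.ext h1.symm ?_
    change (D.δ (D.h.symm y))⁻¹ * (u.2 - D.c (D.h.symm y) (D.B y u.1)) = _
    rw [← h1, ← h3]
    field_simp
    ring
  have itM : ∀ (m : ℕ) (y : R) (z u : (Fin d → ℝ) × ℝ), toTorus1 z = y.1 →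
      (D.mM^[m] (y, u)).2 = fderiv ℝ (G^[m]) z u := by
    refine hypu_cocycle hG toTorus1 (fun y : R => y.1) D.mM ?_
    intro y z v hz
    refine ⟨mMeq y z v hz, ?_⟩
    change toTorus1 (G z) = f.symm y.1
    rw [lG, hz]
  obtain ⟨Q, C', μ', hC', hμ', hμ'1, hQc, hQQ, hQcomm, hQbd⟩ := hblock R D C1 μ1 hC1 hμ1' hμ11
    (by
      intro m y v
      have e0 := hsT y.1.1
      rw [itA m y (sT y.1.1) _ e0]
      have h1 := (hPbd m (sT y.1.1) (by rw [e0]; exact hRΛ _ y.2) v).1
      rw [e0] at h1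
      exact h1.trans (mul_le_mul_of_nonneg_right (hb0 m) (norm_nonneg _)))
    (by
      intro m y v
      have e0 := hsT y.1.1
      rw [itB m y (sT y.1.1) _ e0]
      have h1 := (hPbd m (sT y.1.1) (by rw [e0]; exact hRΛ _ y.2) v).2
      rw [e0] at h1
      exact h1.trans (mul_le_mul_of_nonneg_right (hb0 m) (norm_nonneg _)))
    (by
      intro m y
      have h1 := hcontr y.1 y.2 m
      have h2 : ∏ i ∈ Finset.range m, D.δ (D.h^[i] y) = (Phi f w m y.1)⁻¹ := by
        unfold Phi
        rw [← Finset.prod_inv_distrib]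
        refine Finset.prod_congr rfl fun i _ => ?_
        have h3 : ∀ i : ℕ, (D.h^[i] y).1 = f^[i] y.1 := by
          intro i
          induction i with
          | zero => rfl
          | succ i ih =>
            rw [Function.iterate_succ_apply', Function.iterate_succ_apply']
            change f (D.h^[i] y).1 = _
            rw [ih]
        change (w (D.h^[i] y).1)⁻¹ = _
        rw [h3]
      rw [h2]
      exact h1.trans (hb1 m))
  classical
  refine ⟨F, G, hF, hG, lF, lG, fun x => if h : x ∈ R then Q ⟨x, h⟩ else 0, C', μ', hC', hμ', hμ'1,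
    ?_, ?_, ?_, ?_⟩
  · rw [continuousOn_iff_continuous_domRestrict]
    have : R.domRestrict (fun x => if h : x ∈ R then Q ⟨x, h⟩ else 0) = Q := by
      funext y
      simp [Set.domRestrict, y.2]
    rw [this]
    exact hQc
  · intro x hx
    simp only [hx, dif_pos]
    refine ContinuousLinearMap.ext fun u => ?_
    exact hQQ ⟨x, hx⟩ u
  · intro z hz
    have hz' : f (toTorus1 z) ∈ R := (hRi _).2 hz
    simp only [hz, hz', dif_pos]
    refine ContinuousLinearMap.ext fun u => ?_
    have h1 := hQcomm ⟨toTorus1 z, hz⟩ u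
    rw [mLeq _ z _ rfl, mLeq _ z _ rfl] at h1
    exact h1
  · intro m z hz v
    simp only [hz, dif_pos]
    have h1 := hQbd m ⟨toTorus1 z, hz⟩ v
    rw [itL m _ z _ rfl, itM m _ z _ rfl] at h1
    exact h1

end Pool.Agent.H728R2.OS
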