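import Pool.Agent.H728R2.OS.Base

open Set Filter Topology Complex Matrix
open scoped ComplexConjugate

namespace Pool.Agent.H728R2.OS

namespace FIXFIN

variable {d : ℕ}

theorem tor_sub (a b : Fin d → ℝ) : toTorus (a - b) = toTorus a - toTorus b := by
  funext i
  show ((a i - b i : ℝ) : UnitAddCircle) = (a i : UnitAddCircle) - (b i : UnitAddCircle)
  exact AddCircle.coe_sub _ _ _

theorem tor_add (a b : Fin d → ℝ) : toTorus (a + b) = toTorus a + toTorus b := by
  funext i
  show ((a i + b i : ℝ) : UnitAddCircle) = (a i : UnitAddCircle) + (b i : UnitAddCircle)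
  exact AddCircle.coe_add _ _ _

theorem int_small {v : Fin d → ℝ} (h : toTorus v = 0) (hn : ‖v‖ < 1) : v = 0 := by
  funext i
  have h1 : ((v i : ℝ) : UnitAddCircle) = 0 := congrFun h i
  obtain ⟨n, hn1⟩ := (AddCircle.coe_eq_zero_iff (1 : ℝ)).1 h1
  have h2 : |v i| < 1 := by
    have := norm_le_pi_norm v i
    rw [Real.norm_eq_abs] at this
    linarith
  have h3 : v i = (n : ℝ) := by
    rw [← hn1]
    simp
  rw [h3] at h2 ⊢
  have h4 : |n| < 1 := by exact_mod_cast h2
  have h5 : n = 0 := Int.abs_lt_one_iff.1 h4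
  rw [h5]
  simp

theorem loc_const {g : (Fin d → ℝ) → (Fin d → ℝ)} (hg : Continuous g)
    (h : ∀ u, toTorus (g u) = 0) (z : Fin d → ℝ) : ∀ᶠ u in 𝓝 z, g u = g z := by
  have h1 : ∀ᶠ u in 𝓝 z, ‖g u - g z‖ < 1 := by
    have h2 : Continuous fun u => ‖g u - g z‖ := (hg.sub continuous_const).norm
    have h3 := h2.tendsto z
    simp only [sub_self, norm_zero] at h3
    exact h3.eventually_lt_const one_pos
  filter_upwards [h1] with u hu
  have h2 : g u - g z = 0 := int_small (by rw [tor_sub, h, h, sub_zero]) hu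
  exact sub_eq_zero.1 h2

theorem shift {H : (Fin d → ℝ) → (Fin d → ℝ)} {h : Torus d → Torus d} (hH : Continuous H)
    (hl : ∀ u, toTorus (H u) = h (toTorus u)) {k : Fin d → ℝ} (hk : toTorus k = 0)
    (z : Fin d → ℝ) : fderiv ℝ H (z + k) = fderiv ℝ H z := by
  have hc : Continuous fun u => H (u + k) - H u :=
    (hH.comp (continuous_id.add continuous_const)).sub hH
  have h1 := loc_const hc (fun u => by rw [tor_sub, hl, hl, tor_add, hk, add_zero, sub_self]) z
  have h2 : (fun u => H (u + k)) =ᶠ[𝓝 z] fun u => H u + (H (z + k) - H z) := by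
    filter_upwards [h1] with u hu
    rw [← hu]
    abel
  have h3 := h2.fderiv_eq (𝕜 := ℝ)
  rw [fderiv_comp_add_right, fderiv_add_const] at h3
  exact h3

theorem lift_iter {H : (Fin d → ℝ) → (Fin d → ℝ)} {h : Torus d → Torus d}
    (hl : ∀ u, toTorus (H u) = h (toTorus u)) (n : ℕ) (u : Fin d → ℝ) :
    toTorus (H^[n] u) = h^[n] (toTorus u) := by
  induction n generalizing u with
  | zero => rfl
  | succ n ih => rw [Function.iterate_succ_apply, Function.iterate_succ_apply, ih, hl]

theorem cd_iter {H : (Fin d → ℝ) → (Fin d → ℝ)} (hH : ContDiff ℝ 1 H) (n : ℕ) :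
    ContDiff ℝ 1 (H^[n]) := by
  induction n with
  | zero => exact contDiff_id
  | succ n ih =>
    rw [Function.iterate_succ]
    exact ih.comp hH

theorem fderiv_iter {H : (Fin d → ℝ) → (Fin d → ℝ)} {h : Torus d → Torus d}
    (hH : ContDiff ℝ 1 H) (hl : ∀ u, toTorus (H u) = h (toTorus u)) {z : Fin d → ℝ}
    (hz : h (toTorus z) = toTorus z) (n : ℕ) :
    fderiv ℝ (H^[n]) z = (fderiv ℝ H z) ^ n := by
  induction n with
  | zero =>
    rw [pow_zero]
    exact fderiv_id
  | succ n ih =>
    have h1 : DifferentiableAt ℝ (H^[n]) (H z) :=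
      ((cd_iter hH n).differentiable one_ne_zero).differentiableAt
    have h2 : DifferentiableAt ℝ H z := (hH.differentiable one_ne_zero).differentiableAt
    rw [Function.iterate_succ, fderiv_comp z h1 h2]
    have h3 : H z = z + (H z - z) := by abel
    have h4 : fderiv ℝ (H^[n]) (H z) = fderiv ℝ (H^[n]) z := by
      conv_lhs => rw [h3]
      exact shift (cd_iter hH n).continuous (lift_iter hl n)
        (by rw [tor_sub, hl, hz, sub_self]) z
    rw [h4, ih, pow_succ]
    rfl

theorem comm_iter {F : (Fin d → ℝ) → (Fin d → ℝ)} {T : Torus d → Torus d} {S : Set (Torus d)}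
    (hF : ContDiff ℝ 1 F) (hl : ∀ u, toTorus (F u) = T (toTorus u))
    {P : Torus d → (Fin d → ℝ) →L[ℝ] (Fin d → ℝ)}
    (hc : ∀ z, toTorus z ∈ S → fderiv ℝ F z ∘L P (toTorus z) = P (T (toTorus z)) ∘L fderiv ℝ F z)
    {z : Fin d → ℝ} (hz : ∀ j, T^[j] (toTorus z) ∈ S) (j : ℕ) :
    fderiv ℝ (F^[j]) z ∘L P (toTorus z) = P (T^[j] (toTorus z)) ∘L fderiv ℝ (F^[j]) z := by
  induction j with
  | zero =>
    have h1 : fderiv ℝ (F^[0]) z = ContinuousLinearMap.id ℝ _ := fderiv_id
    rw [h1]
    rfl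
  | succ j ih =>
    have h1 : DifferentiableAt ℝ F (F^[j] z) := (hF.differentiable one_ne_zero).differentiableAt
    have h2 : DifferentiableAt ℝ (F^[j]) z :=
      ((cd_iter hF j).differentiable one_ne_zero).differentiableAt
    have h3 : toTorus (F^[j] z) = T^[j] (toTorus z) := lift_iter hl j z
    have h4 := hc (F^[j] z) (by rw [h3]; exact hz j)
    rw [h3] at h4
    rw [Function.iterate_succ', fderiv_comp z h1 h2, ContinuousLinearMap.comp_assoc, ih,
      ← ContinuousLinearMap.comp_assoc, h4, ContinuousLinearMap.comp_assoc,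
      Function.iterate_succ_apply']

/-- a fixed vector of a contracted sequence vanishes -/
theorem vanish {c μ : ℝ} (hμ0 : 0 < μ) (hμ1 : μ < 1) {m : ℕ} (hm : 0 < m) {w : Fin d → ℝ}
    (h : ∀ n : ℕ, ‖w‖ ≤ c * μ ^ (m * n) * ‖w‖) : w = 0 := by
  have h1 : Tendsto (fun n : ℕ => c * μ ^ (m * n) * ‖w‖) atTop (𝓝 (c * 0 * ‖w‖)) := by
    have h2 : Tendsto (fun n : ℕ => μ ^ (m * n)) atTop (𝓝 0) := by
      have h3 : Tendsto (fun n : ℕ => (μ ^ m) ^ n) atTop (𝓝 0) :=
        tendsto_pow_atTop_nhds_zero_of_lt_one (by positivity)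
          (pow_lt_one₀ hμ0.le hμ1 hm.ne')
      simpa only [pow_mul] using h3
    exact (h2.const_mul c).mul_const _
  have h2 := ge_of_tendsto' h1 h
  rw [mul_zero, zero_mul] at h2
  exact norm_le_zero_iff.1 h2

theorem tor_surj (x : Torus d) : ∃ z, toTorus z = x := by
  have h : ∀ i, ∃ y : ℝ, (y : UnitAddCircle) = x i := fun i => QuotientAddGroup.mk_surjective (x i)
  choose z hz using h
  exact ⟨z, funext hz⟩

theorem tor_open : IsOpenMap (toTorus : (Fin d → ℝ) → Torus d) := by
  have h : (toTorus : (Fin d → ℝ) → Torus d) =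
      Pi.map (fun _ : Fin d => ((↑) : ℝ → UnitAddCircle)) := rfl
  rw [h]
  exact IsOpenMap.piMap (fun _ => QuotientAddGroup.isOpenMap_coe)
    (Filter.Eventually.of_forall fun _ => QuotientAddGroup.mk_surjective)

theorem isolated {T : Torus d ≃ₜ Torus d} {S : Set (Torus d)}
    (hS : IsHyperbolic toTorus T S) (hper : Per T ⊆ S) {m : ℕ} (hm : 0 < m) {x : Torus d}
    (hx : T^[m] x = x) : ∀ᶠ y in 𝓝 x, T^[m] y = y → y = x := by
  obtain ⟨F, G, hF, hG, hFl, hGl, P, c, μ, hc, hμ0, hμ1, -, hPP, hcomm, hbd⟩ := hS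
  obtain ⟨z, rfl⟩ := tor_surj x
  have hSz : ∀ j, T^[j] (toTorus z) ∈ S := by
    intro j
    apply hper
    refine ⟨m, hm, ?_⟩
    rw [← Function.iterate_add_apply, add_comm, Function.iterate_add_apply, hx]
  have hzS : toTorus z ∈ S := hSz 0
  have hx' : T.symm^[m] (toTorus z) = toTorus z := by
    conv_lhs => rw [← hx]
    exact (T.left_inv.iterate m : Function.LeftInverse (T.symm^[m]) (T^[m])) _
  -- the derivatives
  set A := fderiv ℝ (F^[m]) z with hA
  have hAn : ∀ n, fderiv ℝ (F^[m * n]) z = A ^ n := by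
    intro n
    rw [Function.iterate_mul]
    exact fderiv_iter (cd_iter hF m) (lift_iter hFl m) hx n
  have hBn : ∀ n, fderiv ℝ (G^[m * n]) z = (fderiv ℝ (G^[m]) z) ^ n := by
    intro n
    rw [Function.iterate_mul]
    exact fderiv_iter (cd_iter hG m) (lift_iter hGl m) hx' n
  have hAP : ∀ v, A (P (toTorus z) v) = P (toTorus z) (A v) := by
    intro v
    have h1 := comm_iter hF hFl hcomm hSz m
    rw [hx] at h1
    exact congrArg (fun L : (Fin d → ℝ) →L[ℝ] (Fin d → ℝ) => L v) h1
  have hBA : ∀ v, fderiv ℝ (G^[m]) z (A v) = v := by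
    intro v
    have h1 : DifferentiableAt ℝ (G^[m]) (F^[m] z) :=
      ((cd_iter hG m).differentiable one_ne_zero).differentiableAt
    have h2 : DifferentiableAt ℝ (F^[m]) z :=
      ((cd_iter hF m).differentiable one_ne_zero).differentiableAt
    have h3 : fderiv ℝ (G^[m]) (F^[m] z) = fderiv ℝ (G^[m]) z := by
      have h4 : F^[m] z = z + (F^[m] z - z) := by abel
      conv_lhs => rw [h4]
      exact shift (cd_iter hG m).continuous (lift_iter hGl m)
        (by rw [tor_sub, lift_iter hFl m, hx, sub_self]) z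
    have h5 : fderiv ℝ (G^[m] ∘ F^[m]) z = fderiv ℝ (G^[m]) z ∘L A := by
      rw [fderiv_comp z h1 h2, h3]
    have h6 : fderiv ℝ (G^[m] ∘ F^[m]) z = ContinuousLinearMap.id ℝ _ := by
      have hcont : Continuous fun u => G^[m] (F^[m] u) - u :=
        ((cd_iter hG m).continuous.comp (cd_iter hF m).continuous).sub continuous_id
      have hli : ∀ y, T.symm^[m] (T^[m] y) = y :=
        (T.left_inv.iterate m : Function.LeftInverse (T.symm^[m]) (T^[m]))
      have h7 := loc_const hcont (fun u => by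
        rw [tor_sub, lift_iter hGl m, lift_iter hFl m, hli, sub_self]) z
      have h8 : (G^[m] ∘ F^[m]) =ᶠ[𝓝 z] fun u => u + (G^[m] (F^[m] z) - z) := by
        filter_upwards [h7] with u hu
        rw [← hu]
        show G^[m] (F^[m] u) = _
        abel
      rw [h8.fderiv_eq (𝕜 := ℝ), fderiv_add_const]
      exact fderiv_fun_id
    rw [h5] at h6
    exact congrArg (fun L : (Fin d → ℝ) →L[ℝ] (Fin d → ℝ) => L v) h6
  -- no fixed vectors
  have hinj : ∀ v, A v = v → v = 0 := by
    intro v hv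
    have hpow : ∀ (L : (Fin d → ℝ) →L[ℝ] (Fin d → ℝ)) (w : Fin d → ℝ), L w = w →
        ∀ n : ℕ, (L ^ n) w = w := by
      intro L w hw n
      induction n with
      | zero => rfl
      | succ n ih =>
        rw [pow_succ]
        show (L ^ n) (L w) = w
        rw [hw, ih]
    have h1 : P (toTorus z) v = 0 := by
      apply vanish hμ0 hμ1 hm (c := c)
      intro n
      have h2 := (hbd (m * n) z hzS v).1
      rw [hAn, hpow A (P (toTorus z) v) (by rw [hAP, hv]) n] at h2
      exact h2
    have h3 : v - P (toTorus z) v = 0 := by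
      apply vanish hμ0 hμ1 hm (c := c)
      intro n
      have h2 := (hbd (m * n) z hzS v).2
      have hBv : fderiv ℝ (G^[m]) z v = v := by
        conv_lhs => rw [← hv]
        exact hBA v
      rw [hBn, hpow (fderiv ℝ (G^[m]) z) (v - P (toTorus z) v) (by rw [h1, sub_zero, hBv]) n] at h2
      exact h2
    rw [h1, sub_zero] at h3
    exact h3
  -- local uniqueness upstairs
  set k := F^[m] z - z with hk
  have hder : HasFDerivAt (fun u => F^[m] u - u - k) (A - ContinuousLinearMap.id ℝ _) z := by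
    have h2 : DifferentiableAt ℝ (F^[m]) z :=
      ((cd_iter hF m).differentiable one_ne_zero).differentiableAt
    exact (h2.hasFDerivAt.sub (hasFDerivAt_id z)).sub_const k
  have hne : ∀ᶠ u in 𝓝[≠] z, F^[m] u - u - k ≠ 0 := by
    apply hder.eventually_ne
    have hker : LinearMap.ker ((A - ContinuousLinearMap.id ℝ _ :
        (Fin d → ℝ) →L[ℝ] (Fin d → ℝ)) : (Fin d → ℝ) →ₗ[ℝ] (Fin d → ℝ)) = ⊥ := by
      rw [LinearMap.ker_eq_bot']
      intro v hv
      apply hinj
      exact sub_eq_zero.1 hv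
    obtain ⟨K, _, hK⟩ := LinearMap.exists_antilipschitzWith _ hker
    exact ⟨K, hK⟩
  have hsm : ∀ᶠ u in 𝓝 z, ‖F^[m] u - u - k‖ < 1 := by
    have h2 : Continuous fun u => ‖F^[m] u - u - k‖ :=
      (((cd_iter hF m).continuous.sub continuous_id).sub continuous_const).norm
    have h3 := h2.tendsto z
    rw [hk] at h3
    simp only [sub_self, norm_zero] at h3
    exact h3.eventually_lt_const one_pos
  have hup : ∀ᶠ u in 𝓝 z, T^[m] (toTorus u) = toTorus u → u = z := by
    rw [eventually_nhdsWithin_iff] at hne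
    filter_upwards [hne, hsm] with u h1 h2 h3
    by_contra hu
    apply h1 hu
    apply int_small _ h2
    rw [tor_sub, tor_sub, lift_iter hFl m, h3, sub_self, zero_sub, neg_eq_zero, hk, tor_sub,
      lift_iter hFl m, hx, sub_self]
  have := tor_open.image_mem_nhds hup
  filter_upwards [this] with y hy
  obtain ⟨u, hu, rfl⟩ := hy
  intro h
  rw [hu h]

end FIXFIN

/-- A diffeomorphism of the torus has only finitely many points of period `m` if they all lie in a
hyperbolic set. -/
theorem finite_fix {d : ℕ} {T : Torus d ≃ₜ Torus d} {S : Set (Torus d)}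
    (hS : IsHyperbolic toTorus T S) (hper : Per T ⊆ S) (m : ℕ) (hm : 0 < m) :
    {x | T^[m] x = x}.Finite := by
  by_contra hinf
  have hclosed : IsClosed {x | T^[m] x = x} :=
    isClosed_eq (T.continuous.iterate m) continuous_id
  obtain ⟨x, hxm, hx⟩ := Set.Infinite.exists_accPt_of_subset_isCompact
    (show {x | T^[m] x = x}.Infinite from hinf) hclosed.isCompact subset_rfl
  have h1 := FIXFIN.isolated hS hper hm (x := x) hxm
  rw [accPt_iff_frequently] at hx
  obtain ⟨y, ⟨hy1, hy2⟩, hy3⟩ := (hx.and_eventually h1).exists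
  exact hy1 (hy3 hy2)

end Pool.Agent.H728R2.OS
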