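import Pool.Agent.H728R2.OS.Base

open Set Filter Topology Complex Matrix
open scoped ComplexConjugate

namespace Pool.Agent.H728R2.OS

private theorem ITER_norm_e (y : Circ) : ‖e y‖ = 1 := by
  unfold e
  exact Circle.norm_coe _

private theorem ITER_e_add (y : Circ) (θ : ℝ) :
    e (y + (θ : UnitAddCircle)) =
      e y * (Complex.exp (Real.pi * θ * I) * Complex.exp (Real.pi * θ * I)) := by
  unfold e
  rw [AddCircle.toCircle_add, Circle.coe_mul, AddCircle.toCircle_apply_mk, Circle.coe_exp]
  congr 1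
  rw [← Complex.exp_add]
  congr 1
  push_cast
  ring

private theorem ITER_ne (a b u : ℂ) (h : ‖a‖ ^ 2 - ‖b‖ ^ 2 = 1) (hu : ‖u‖ = 1) :
    conj b * u + conj a ≠ 0 := by
  intro h0
  have h1 : conj a = -(conj b * u) := by
    linear_combination h0
  have h2 : ‖a‖ = ‖b‖ := by
    have := congrArg norm h1
    rwa [norm_neg, norm_mul, RCLike.norm_conj, RCLike.norm_conj, hu, mul_one] at this
  rw [h2, sub_self] at h
  exact zero_ne_one h

/-- The iterates of the rotated skew product in Moebius coordinates. -/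
theorem iter_mob {B : Type*} [TopologicalSpace B] (T : B ≃ₜ B) (f : (B × Circ) ≃ₜ (B × Circ))
    (hT : ∀ x y, (f (x, y)).1 = T x) (a b : B → ℂ) (hab : ∀ x, ‖a x‖ ^ 2 - ‖b x‖ ^ 2 = 1)
    (hf : Mob f a b) (θ : ℝ) (n : ℕ) (x : B) (y : Circ) :
    ((f.trans (rotC θ))^[n] (x, y)).1 = T^[n] x ∧
    (pr (fun j => a (T^[j] x)) (fun j => b (T^[j] x)) θ n 1 0 * e y +
      pr (fun j => a (T^[j] x)) (fun j => b (T^[j] x)) θ n 1 1 ≠ 0) ∧
    e ((f.trans (rotC θ))^[n] (x, y)).2 =
      (pr (fun j => a (T^[j] x)) (fun j => b (T^[j] x)) θ n 0 0 * e y +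
        pr (fun j => a (T^[j] x)) (fun j => b (T^[j] x)) θ n 0 1) /
      (pr (fun j => a (T^[j] x)) (fun j => b (T^[j] x)) θ n 1 0 * e y +
        pr (fun j => a (T^[j] x)) (fun j => b (T^[j] x)) θ n 1 1) := by
  induction n with
  | zero => simp [pr]
  | succ n ih =>
    obtain ⟨ih1, ih2, ih3⟩ := ih
    set P := pr (fun j => a (T^[j] x)) (fun j => b (T^[j] x)) θ n with hP
    set z := (f.trans (rotC θ))^[n] (x, y) with hz
    have hP' : pr (fun j => a (T^[j] x)) (fun j => b (T^[j] x)) θ (n + 1) =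
        rot θ * su (a (T^[n] x)) (b (T^[n] x)) * P := rfl
    set w := Complex.exp (Real.pi * θ * I) with hw
    have hw0 : w ≠ 0 := Complex.exp_ne_zero _
    have hwi : Complex.exp (-(Real.pi * θ * I)) = w⁻¹ := by rw [Complex.exp_neg]
    set A := a (T^[n] x) with hA
    set Bb := b (T^[n] x) with hB
    have e00 : pr (fun j => a (T^[j] x)) (fun j => b (T^[j] x)) θ (n + 1) 0 0 =
        w * (A * P 0 0 + Bb * P 1 0) := by
      rw [hP']
      simp only [rot, su, Matrix.mul_apply, Fin.sum_univ_two, Matrix.of_apply, Matrix.cons_val',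
        Matrix.cons_val_zero, Matrix.cons_val_one, Matrix.cons_val_fin_one]
      ring
    have e01 : pr (fun j => a (T^[j] x)) (fun j => b (T^[j] x)) θ (n + 1) 0 1 =
        w * (A * P 0 1 + Bb * P 1 1) := by
      rw [hP']
      simp only [rot, su, Matrix.mul_apply, Fin.sum_univ_two, Matrix.of_apply, Matrix.cons_val',
        Matrix.cons_val_zero, Matrix.cons_val_one, Matrix.cons_val_fin_one]
      ring
    have e10 : pr (fun j => a (T^[j] x)) (fun j => b (T^[j] x)) θ (n + 1) 1 0 =
        w⁻¹ * (conj Bb * P 0 0 + conj A * P 1 0) := by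
      rw [hP', ← hwi]
      simp only [rot, su, Matrix.mul_apply, Fin.sum_univ_two, Matrix.of_apply, Matrix.cons_val',
        Matrix.cons_val_zero, Matrix.cons_val_one, Matrix.cons_val_fin_one]
      ring
    have e11 : pr (fun j => a (T^[j] x)) (fun j => b (T^[j] x)) θ (n + 1) 1 1 =
        w⁻¹ * (conj Bb * P 0 1 + conj A * P 1 1) := by
      rw [hP', ← hwi]
      simp only [rot, su, Matrix.mul_apply, Fin.sum_univ_two, Matrix.of_apply, Matrix.cons_val',
        Matrix.cons_val_zero, Matrix.cons_val_one, Matrix.cons_val_fin_one]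
      ring
    rw [e00, e01, e10, e11]
    set E := e y with hE
    set Nn := P 0 0 * E + P 0 1 with hN
    set Dd := P 1 0 * E + P 1 1 with hD
    have hne : conj Bb * e z.2 + conj A ≠ 0 := ITER_ne A Bb (e z.2) (hab _) (ITER_norm_e _)
    have hND : e z.2 * Dd = Nn := by
      rw [ih3]
      field_simp
    have hden : conj Bb * Nn + conj A * Dd ≠ 0 := by
      rw [← hND]
      have : conj Bb * (e z.2 * Dd) + conj A * Dd = (conj Bb * e z.2 + conj A) * Dd := by ring
      rw [this]
      exact mul_ne_zero hne ih2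
    have hzz : (f.trans (rotC θ))^[n + 1] (x, y) = ((f z).1, (f z).2 + (θ : UnitAddCircle)) := by
      rw [Function.iterate_succ_apply', ← hz]
      rfl
    rw [hzz]
    have hzeq : z = (z.1, z.2) := rfl
    refine ⟨?_, ?_, ?_⟩
    · show (f z).1 = _
      rw [hzeq, hT, ih1, Function.iterate_succ_apply']
    · have : w⁻¹ * (conj Bb * P 0 0 + conj A * P 1 0) * E +
          w⁻¹ * (conj Bb * P 0 1 + conj A * P 1 1) = w⁻¹ * (conj Bb * Nn + conj A * Dd) := by
        rw [hN, hD]; ring
      rw [this]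
      exact mul_ne_zero (inv_ne_zero hw0) hden
    · have h1 : w⁻¹ * (conj Bb * P 0 0 + conj A * P 1 0) * E +
          w⁻¹ * (conj Bb * P 0 1 + conj A * P 1 1) = w⁻¹ * (conj Bb * Nn + conj A * Dd) := by
        rw [hN, hD]; ring
      have h2 : w * (A * P 0 0 + Bb * P 1 0) * E + w * (A * P 0 1 + Bb * P 1 1) =
          w * (A * Nn + Bb * Dd) := by
        rw [hN, hD]; ring
      rw [h1, h2]
      show e ((f z).2 + (θ : UnitAddCircle)) = _
      rw [ITER_e_add, ← hw]
      have h3 : e (f z).2 = (A * e z.2 + Bb) / (conj Bb * e z.2 + conj A) := by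
        have := hf z.1 z.2
        rw [ih1] at this
        rw [hzeq, ih1]
        exact this
      rw [h3, ← hND]
      have h4 : conj Bb * (e z.2 * Dd) + conj A * Dd = (conj Bb * e z.2 + conj A) * Dd := by ring
      have h5 : A * (e z.2 * Dd) + Bb * Dd = (A * e z.2 + Bb) * Dd := by ring
      rw [h4, h5]
      field_simp

/-- `e` is injective. -/
theorem e_injective : Function.Injective e := by
  intro x y h
  unfold e at h
  exact AddCircle.injective_toCircle one_ne_zero (Subtype.val_injective h)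

end Pool.Agent.H728R2.OS
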