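import Pool.Agent.H728R2.OS.Base

open Set Filter Topology Complex Matrix
open scoped ComplexConjugate

namespace Pool.Agent.H728R2.OS

private theorem sl2_e_coe (t : ℝ) : e ((t : ℝ) : UnitAddCircle) =
    ((Real.cos (Real.pi * t) : ℂ) + (Real.sin (Real.pi * t) : ℂ) * I) ^ 2 := by
  unfold e
  rw [AddCircle.toCircle_apply_mk, Circle.coe_exp]
  have h1 : ((Real.cos (Real.pi * t) : ℂ) + (Real.sin (Real.pi * t) : ℂ) * I) =
      Complex.exp ((Real.pi * t : ℝ) * I) := by
    rw [Complex.exp_mul_I, Complex.ofReal_cos, Complex.ofReal_sin]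
  rw [h1, ← Complex.exp_nat_mul]
  congr 1
  push_cast
  ring

/-- Projective maps in the coordinates `e = exp (2 π i t)`. -/
theorem projective_mob {g : Circ → Circ} (hg : IsProjective g) :
    ∃ a b : ℂ, ‖a‖ ^ 2 - ‖b‖ ^ 2 = 1 ∧
      ∀ y, e (g y) = (a * e y + b) / (conj b * e y + conj a) := by
  obtain ⟨A, hdet, hA⟩ := hg
  rw [Matrix.det_fin_two] at hdet
  refine ⟨((((A 0 0 + A 1 1) / 2 : ℝ) : ℂ) + (((A 1 0 - A 0 1) / 2 : ℝ) : ℂ) * I),
    ((((A 0 0 - A 1 1) / 2 : ℝ) : ℂ) + (((A 1 0 + A 0 1) / 2 : ℝ) : ℂ) * I), ?_, ?_⟩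
  · rw [← Complex.normSq_eq_norm_sq, ← Complex.normSq_eq_norm_sq, Complex.normSq_add_mul_I,
      Complex.normSq_add_mul_I]
    linear_combination hdet
  · intro y
    obtain ⟨t, rfl⟩ := QuotientAddGroup.mk_surjective y
    obtain ⟨s, hs⟩ := QuotientAddGroup.mk_surjective (g (QuotientAddGroup.mk t))
    obtain ⟨c, hc⟩ := hA t s hs.symm
    have hc0 := congrFun hc 0
    have hc1 := congrFun hc 1
    simp only [Matrix.mulVec, dotProduct, Fin.sum_univ_two, Matrix.cons_val_zero,
      Matrix.cons_val_one, Pi.smul_apply, smul_eq_mul] at hc0 hc1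
    have e1 := sl2_e_coe s
    have e2 := sl2_e_coe t
    change e (QuotientAddGroup.mk s) = _ at e1
    change e (QuotientAddGroup.mk t) = _ at e2
    rw [hs] at e1
    rw [e1, e2]
    have hcs := Real.cos_sq_add_sin_sq (Real.pi * t)
    have hcs' := Real.cos_sq_add_sin_sq (Real.pi * s)
    generalize Real.cos (Real.pi * t) = C at *
    generalize Real.sin (Real.pi * t) = S at *
    generalize Real.cos (Real.pi * s) = C' at *
    generalize Real.sin (Real.pi * s) = S' at *
    generalize A 0 0 = p at *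
    generalize A 0 1 = q at *
    generalize A 1 0 = r at *
    generalize A 1 1 = u at *
    have hcne : c ≠ 0 := by
      rintro rfl
      rw [zero_mul] at hc0 hc1
      have hC : C = 0 := by linear_combination u * hc0 - q * hc1 - C * hdet
      have hS : S = 0 := by linear_combination p * hc1 - r * hc0 - S * hdet
      rw [hC, hS] at hcs
      norm_num at hcs
    have hc0' : (p : ℂ) * C + q * S = c * C' := by exact_mod_cast hc0
    have hc1' : (r : ℂ) * C + u * S = c * S' := by exact_mod_cast hc1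
    have hcs1 : (C : ℂ) ^ 2 + S ^ 2 = 1 := by exact_mod_cast hcs
    have hcs2 : (C' : ℂ) ^ 2 + S' ^ 2 = 1 := by exact_mod_cast hcs'
    have hI : (I : ℂ) ^ 2 = -1 := Complex.I_sq
    simp only [map_add, map_mul, Complex.conj_ofReal, Complex.conj_I]
    push_cast
    have hnum : ((p + u) / 2 + (r - q) / 2 * I) * ((C : ℂ) + S * I) ^ 2 +
        ((p - u) / 2 + (r + q) / 2 * I) = (C + S * I) * (c * (C' + S' * I)) := by
      linear_combination (-((p - u) / 2 + (r + q) / 2 * I)) * hcs1 + (C + S * I) * hc0' +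
        (C + S * I) * I * hc1' + (((p - u) / 2 + (r + q) / 2 * I) * S ^ 2 -
          (C + S * I) * q * S) * hI
    have hden : ((p - u) / 2 + (r + q) / 2 * -I) * ((C : ℂ) + S * I) ^ 2 +
        ((p + u) / 2 + (r - q) / 2 * -I) = (C + S * I) * (c * (C' - S' * I)) := by
      linear_combination (-((p + u) / 2 + (r - q) / 2 * -I)) * hcs1 + (C + S * I) * hc0' -
        (C + S * I) * I * hc1' + (((p + u) / 2 + (r - q) / 2 * -I) * S ^ 2 -
          (C + S * I) * q * S) * hI
    rw [hnum, hden]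
    have z1 : ((C : ℂ) + S * I) ≠ 0 := by
      have : ((C : ℂ) + S * I) * (C - S * I) = 1 := by
        linear_combination hcs1 - S ^ 2 * hI
      exact left_ne_zero_of_mul_eq_one this
    have z2 : ((C' : ℂ) - S' * I) ≠ 0 := by
      have : ((C' : ℂ) - S' * I) * (C' + S' * I) = 1 := by
        linear_combination hcs2 - S' ^ 2 * hI
      exact left_ne_zero_of_mul_eq_one this
    have z3 : (c : ℂ) ≠ 0 := by exact_mod_cast hcne
    rw [eq_div_iff (mul_ne_zero z1 (mul_ne_zero z3 z2))]
    linear_combination ((C + S * I) * c * (C' + S' * I)) * hcs2 -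
      ((C + S * I) * c * (C' + S' * I)) * S' ^ 2 * hI

end Pool.Agent.H728R2.OS
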