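import Pool.Agent.H728R2.OS.Base

open Set Filter Topology Complex Matrix
open scoped ComplexConjugate

namespace Pool.Agent.H728R2.OS

namespace ChainAux

theorem chainRec_fst {B : Type*} [MetricSpace B] [CompactSpace B] (D : TopData B)
    {z : B × Circ} (hz : z ∈ ChainRec D.F) : z.1 ∈ ChainRec D.T := by
  intro ε hε
  obtain ⟨n, c, hn, h0, hn', hc⟩ := hz ε hε
  refine ⟨n, fun i => (c i).1, hn, by simp [h0], by simp [hn'], fun i hi => ?_⟩
  have h1 := hc i hi
  have h2 : dist (D.F (c i)).1 (c (i+1)).1 ≤ dist (D.F (c i)) (c (i+1)) := by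
    rw [Prod.dist_eq]; exact le_max_left _ _
  rw [D.fst_F] at h2
  exact lt_of_le_of_lt h2 h1

/-- A closed chain, extended periodically to `ℤ`. -/
theorem exists_periodic {X : Type*} [MetricSpace X] (f : X ≃ₜ X) {x : X} (hx : x ∈ ChainRec f)
    {ε : ℝ} (hε : 0 < ε) : ∃ (L : ℕ) (c : ℤ → X), 0 < L ∧ c 0 = x ∧ (∀ i, c (i + L) = c i) ∧
      ∀ i, dist (f (c i)) (c (i+1)) < ε := by
  obtain ⟨n, c, hn, h0, hn', hc⟩ := hx ε hε
  have hn0 : (0:ℤ) < n := by exact_mod_cast hn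
  refine ⟨n, fun i => c (i % n).toNat, hn, by simp [h0], fun i => by simp, fun i => ?_⟩
  have h1 : 0 ≤ i % n := Int.emod_nonneg _ hn0.ne'
  have h2 : i % n < n := Int.emod_lt_of_pos _ hn0
  have h3 : (i + 1) % n = (i % n + 1) % n := by simp
  have h4 : (i % n).toNat < n := by omega
  have h5 := hc _ h4
  rcases lt_or_eq_of_le (Int.add_one_le_iff.mpr h2) with h | h
  · have h6 : (i % n + 1) % n = i % n + 1 := Int.emod_eq_of_lt (by omega) h
    have h7 : ((i + 1) % n).toNat = (i % n).toNat + 1 := by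
      rw [h3, h6]; omega
    simp only [h7]
    exact h5
  · have h6 : (i + 1) % n = 0 := by
      rw [h3, h]; simp
    have h7 : (i % n).toNat + 1 = n := by omega
    rw [h7, hn'] at h5
    simp only [h6]
    simpa [h0] using h5

theorem tendsto_fwd {X : Type*} [MetricSpace X] (f : X ≃ₜ X) (c : ℕ → ℤ → X) (ε : ℕ → ℝ)
    (hε : Tendsto ε atTop (𝓝 0)) (hc : ∀ n i, dist (f (c n i)) (c n (i+1)) < ε n) {x : X}
    (hx : Tendsto (fun n => c n 0) atTop (𝓝 x)) (i : ℕ) :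
    Tendsto (fun n => c n i) atTop (𝓝 (f^[i] x)) := by
  induction i with
  | zero => simpa using hx
  | succ i ih =>
    rw [Function.iterate_succ_apply']
    have h1 : Tendsto (fun n => f (c n i)) atTop (𝓝 (f (f^[i] x))) :=
      (f.continuous.tendsto _).comp ih
    refine h1.congr_dist ?_
    refine squeeze_zero (fun n => dist_nonneg) (fun n => ?_) hε
    have h2 := hc n i
    push_cast
    exact h2.le

theorem tendsto_bwd {X : Type*} [MetricSpace X] (f : X ≃ₜ X) (c : ℕ → ℤ → X) (ε : ℕ → ℝ)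
    (hε : Tendsto ε atTop (𝓝 0)) (hc : ∀ n i, dist (f (c n i)) (c n (i+1)) < ε n) {x : X}
    (hx : Tendsto (fun n => c n 0) atTop (𝓝 x)) (i : ℕ) :
    Tendsto (fun n => c n (-(i:ℤ))) atTop (𝓝 (f.symm^[i] x)) := by
  induction i with
  | zero => simpa using hx
  | succ i ih =>
    rw [Function.iterate_succ_apply']
    have h1 : Tendsto (fun n => f (c n (-((i + 1 : ℕ):ℤ)))) atTop (𝓝 (f.symm^[i] x)) := by
      refine ih.congr_dist ?_
      refine squeeze_zero (fun n => dist_nonneg) (fun n => ?_) hε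
      have h2 := hc n (-((i + 1 : ℕ):ℤ))
      have h3 : -((i + 1 : ℕ):ℤ) + 1 = -(i:ℤ) := by push_cast; ring
      rw [h3] at h2
      rw [dist_comm]
      exact h2.le
    have h4 : Tendsto (fun n => f.symm (f (c n (-((i + 1 : ℕ):ℤ))))) atTop
        (𝓝 (f.symm (f.symm^[i] x))) := (f.symm.continuous.tendsto _).comp h1
    simpa using h4

theorem chainRec_of_tendsto {X : Type*} [MetricSpace X] (f : X ≃ₜ X) (c : ℕ → ℤ → X) (L : ℕ → ℕ)
    (hL : ∀ n, 0 < L n) (hper : ∀ n i, c n (i + L n) = c n i) (ε : ℕ → ℝ)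
    (hε : Tendsto ε atTop (𝓝 0)) (hc : ∀ n i, dist (f (c n i)) (c n (i+1)) < ε n) {x : X}
    (hx : Tendsto (fun n => c n 0) atTop (𝓝 x)) : x ∈ ChainRec f := by
  intro η hη
  have h1 : ∀ᶠ n in atTop, dist (f (c n 0)) (f x) < η/3 := by
    have := (f.continuous.tendsto x).comp hx
    exact (Metric.tendsto_nhds.mp this) _ (by positivity)
  have h2 : ∀ᶠ n in atTop, dist (c n 0) x < η / 3 := (Metric.tendsto_nhds.mp hx) _ (by positivity)
  have h3 : ∀ᶠ n in atTop, ε n < η/3 := hε.eventually_lt_const (by positivity)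
  obtain ⟨n, h1, h2, h3⟩ := (h1.and (h2.and h3)).exists
  have hLn := hL n
  have hcL : c n (L n) = c n 0 := by
    have := hper n 0
    simpa using this
  refine ⟨L n, fun i => if i = 0 ∨ i = L n then x else c n i, hL n, by simp, by simp,
    fun i hi => ?_⟩
  have hA : dist (f (if i = 0 ∨ i = L n then x else c n i)) (f (c n i)) < η/3 := by
    by_cases h : i = 0 ∨ i = L n
    · have hi0 : i = 0 := by omega
      subst hi0
      simp only [true_or, if_true]
      rw [dist_comm]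
      exact_mod_cast h1
    · rw [if_neg h]
      simp [hη]
  have hB : dist (c n ((i:ℤ)+1)) (if i + 1 = 0 ∨ i+1 = L n then x else c n ((i+1 : ℕ):ℤ))
      < η/3 := by
    by_cases h : i + 1 = 0 ∨ i + 1 = L n
    · have hi0 : i + 1 = L n := by omega
      rw [if_pos h]
      have h5 : ((i:ℤ) + 1) = (L n : ℤ) := by exact_mod_cast hi0
      rw [h5, hcL]
      exact h2
    · rw [if_neg h]
      push_cast
      simp [hη]
  have hC := hc n i
  have hD := dist_triangle4 (f (if i = 0 ∨ i = L n then x else c n i)) (f (c n i))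
    (c n ((i:ℤ)+1)) (if i + 1 = 0 ∨ i+1 = L n then x else c n ((i+1 : ℕ):ℤ))
  have hE : dist (f (if i = 0 ∨ i = L n then x else c n i))
      (if i + 1 = 0 ∨ i+1 = L n then x else c n ((i+1 : ℕ):ℤ)) < η := by linarith
  exact hE

/-- Products of the weight along a sequence. -/
noncomputable def P {Z : Type*} (φ : Z → ℝ) (c : ℤ → Z) (t : ℤ) (n : ℕ) : ℝ :=
  ∏ i ∈ Finset.range n, φ (c (t + i))

theorem P_mul {Z : Type*} (φ : Z → ℝ) (c : ℤ → Z) (t : ℤ) (N J : ℕ) :
    P φ c t (J * N) = ∏ j ∈ Finset.range J, P φ c (t + j * N) N := by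
  induction J with
  | zero => simp [P]
  | succ J ih =>
    rw [Finset.prod_range_succ, ← ih, P, Nat.succ_mul, Finset.prod_range_add]
    congr 1
    unfold P
    apply Finset.prod_congr rfl
    intro i _
    push_cast
    rw [add_assoc]

theorem P_pos {Z : Type*} (φ : Z → ℝ) (hφ : ∀ z, 0 < φ z) (c : ℤ → Z) (t : ℤ) (n : ℕ) :
    0 < P φ c t n := Finset.prod_pos fun _ _ => hφ _

theorem iter_symm {X : Type*} [TopologicalSpace X] (f : X ≃ₜ X) (x : X) {i n : ℕ} (h : i ≤ n) :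
    f^[i] (f.symm^[n] x) = f.symm^[n - i] x := by
  obtain ⟨k, rfl⟩ := Nat.exists_eq_add_of_le h
  rw [Function.iterate_add_apply]
  have h1 : Function.LeftInverse (f^[i]) (f.symm^[i]) :=
    Function.LeftInverse.iterate f.apply_symm_apply i
  rw [h1]
  simp

theorem tendsto_P_fwd {X : Type*} [MetricSpace X] (f : X ≃ₜ X) (φ : X → ℝ) (hφ : Continuous φ)
    (c : ℕ → ℤ → X) (ε : ℕ → ℝ)
    (hε : Tendsto ε atTop (𝓝 0)) (hc : ∀ n i, dist (f (c n i)) (c n (i+1)) < ε n) {x : X}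
    (hx : Tendsto (fun n => c n 0) atTop (𝓝 x)) (m : ℕ) :
    Tendsto (fun n => P φ (c n) 0 m) atTop (𝓝 (Phi f φ m x)) := by
  unfold P Phi
  apply tendsto_finsetProd
  intro i _
  have h := tendsto_fwd f c ε hε hc hx i
  have h2 : Tendsto (fun n => φ (c n i)) atTop (𝓝 (φ (f^[i] x))) := (hφ.tendsto _).comp h
  simpa using h2

theorem tendsto_P_bwd {X : Type*} [MetricSpace X] (f : X ≃ₜ X) (φ : X → ℝ) (hφ : Continuous φ)
    (c : ℕ → ℤ → X) (ε : ℕ → ℝ)
    (hε : Tendsto ε atTop (𝓝 0)) (hc : ∀ n i, dist (f (c n i)) (c n (i+1)) < ε n) {x : X}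
    (hx : Tendsto (fun n => c n 0) atTop (𝓝 x)) (m : ℕ) :
    Tendsto (fun n => P φ (c n) (-(m:ℤ)) m) atTop (𝓝 (Phi f φ m (f.symm^[m] x))) := by
  unfold P Phi
  apply tendsto_finsetProd
  intro i hi
  have hi' : i < m := Finset.mem_range.mp hi
  have h := tendsto_bwd f c ε hε hc hx (m - i)
  rw [iter_symm f x hi'.le]
  have h2 : Tendsto (fun n => φ (c n (-((m - i : ℕ):ℤ)))) atTop (𝓝 (φ (f.symm^[m-i] x))) :=
    (hφ.tendsto _).comp h
  have h3 : (-((m - i : ℕ):ℤ)) = -(m:ℤ) + i := by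
    push_cast [Nat.cast_sub hi'.le]
    ring
  rw [h3] at h2
  exact h2

section main

variable {B : Type*} [MetricSpace B] [CompactSpace B] (D : TopData B)

theorem claimA (N : ℕ)
    (hg : ∀ z : B × Circ, z.1 ∈ D.Λ → 4 ≤ D.up N z ∨ 4 ≤ D.dn N z)
    (hT : ChainRec D.T ⊆ D.Λ) : ∃ δ > 0, ∀ (L : ℕ) (c : ℤ → B × Circ), 0 < L →
      (∀ i, c (i+L) = c i) → (∀ i, dist (D.F (c i)) (c (i+1)) < δ) →
      2 ≤ P D.φ c 0 N ∨ P D.φ c (-(N:ℤ)) N ≤ 1/2 := by
  by_contra hcon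
  push Not at hcon
  have hδ : ∀ n : ℕ, (0:ℝ) < 1 / ((n:ℝ) + 1) := fun n => by positivity
  choose L c hL hper hc h1 h2 using fun n : ℕ => hcon (1 / ((n:ℝ) + 1)) (hδ n)
  obtain ⟨z, s, hs, hz⟩ := CompactSpace.tendsto_subseq (fun n => c n 0)
  have hε : Tendsto (fun n : ℕ => 1 / (((s n : ℕ):ℝ) + 1)) atTop (𝓝 0) :=
    tendsto_one_div_add_atTop_nhds_zero_nat.comp hs.tendsto_atTop
  have hz' : Tendsto (fun n => (fun n => c (s n)) n 0) atTop (𝓝 z) := hz
  have hc' : ∀ n i, dist (D.F ((fun n => c (s n)) n i)) ((fun n => c (s n)) n (i+1))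
      < (fun n : ℕ => 1 / (((s n : ℕ):ℝ) + 1)) n := fun n i => hc (s n) i
  have hrec : z ∈ ChainRec D.F := chainRec_of_tendsto D.F (fun n => c (s n)) (fun n => L (s n))
    (fun n => hL _) (fun n i => hper _ i) _ hε hc' hz'
  have hΛ : z.1 ∈ D.Λ := hT (chainRec_fst D hrec)
  have hf := tendsto_P_fwd D.F D.φ D.φ_cont (fun n => c (s n)) _ hε hc' hz' N
  have hb := tendsto_P_bwd D.F D.φ D.φ_cont (fun n => c (s n)) _ hε hc' hz' N
  have hf2 : Phi D.F D.φ N z ≤ 2 := le_of_tendsto' hf fun n => (h1 (s n)).le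
  have hb2 : 1/2 ≤ Phi D.F D.φ N (D.F.symm^[N] z) := ge_of_tendsto' hb fun n => (h2 (s n)).le
  rcases hg z hΛ with h | h
  · unfold TopData.up at h
    linarith
  · unfold TopData.dn at h
    have : (Phi D.F D.φ N (D.F.symm^[N] z))⁻¹ ≤ 2 := by
      rw [inv_le_comm₀ (by linarith) (by norm_num)]
      linarith
    linarith

theorem dichotomy {N L : ℕ} (hL : 0 < L) {c : ℤ → B × Circ} (hper : ∀ i, c (i+L) = c i)
    (h : ∀ t : ℤ, 2 ≤ P D.φ c t N ∨ P D.φ c (t - N) N ≤ 1/2) :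
    (∀ j : ℤ, P D.φ c (j * N) N ≤ 1/2) ∨ (∀ j : ℤ, 2 ≤ P D.φ c (j * N) N) := by
  by_cases h1 : ∀ j : ℤ, P D.φ c (j * N) N ≤ 1/2
  · exact Or.inl h1
  right
  push Not at h1
  obtain ⟨j0, hj0⟩ := h1
  have hstep : ∀ j : ℤ, 1/2 < P D.φ c (j * N) N → 2 ≤ P D.φ c ((j + 1) * N) N := by
    intro j hj
    rcases h ((j+1) * N) with h2 | h2
    · exact h2
    · have : (j + 1) * (N:ℤ) - N = j * N := by ring
      rw [this] at h2
      linarith
  have hfwd : ∀ k : ℕ, 2 ≤ P D.φ c ((j0 + (k + 1)) * N) N := by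
    intro k
    induction k with
    | zero => simpa using hstep j0 hj0
    | succ k ih =>
      have h3 := hstep (j0 + (k + 1)) (by linarith)
      push_cast
      rw [← add_assoc] at h3 ⊢
      rw [← add_assoc]
      exact h3
  have hper2 : ∀ (m : ℕ) (i : ℤ), c (i + m * L) = c i := by
    intro m
    induction m with
    | zero => intro i; simp
    | succ m ih =>
      intro i
      have : i + ((m + 1 : ℕ):ℤ) * L = (i + m * L) + L := by push_cast; ring
      rw [this, hper, ih]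
  intro j
  -- choose m with j + m * L > j0
  obtain ⟨m, hm⟩ : ∃ m : ℕ, j0 + 1 ≤ j + m * L := by
    refine ⟨(j0 + 1 - j).toNat, ?_⟩
    have h4 : (j0 + 1 - j) ≤ ((j0 + 1 - j).toNat : ℤ) := Int.self_le_toNat _
    have h5 : (1:ℤ) ≤ L := by exact_mod_cast hL
    have h6 : ((j0 + 1 - j).toNat : ℤ) * 1 ≤ ((j0 + 1 - j).toNat : ℤ) * L :=
      mul_le_mul_of_nonneg_left h5 (by positivity)
    linarith
  have h7 := hfwd (j + m * L - j0 - 1).toNat
  have h8 : (((j + m * L - j0 - 1).toNat : ℕ) : ℤ) = j + m * L - j0 - 1 :=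
    Int.toNat_of_nonneg (by linarith)
  rw [h8] at h7
  have h9 : (j0 + (j + (m:ℤ) * L - j0 - 1 + 1)) * (N:ℤ) = j * N + (m * N : ℕ) * L := by
    push_cast; ring
  rw [h9] at h7
  have h10 : P D.φ c (j * N + (m * N : ℕ) * L) N = P D.φ c (j * N) N := by
    unfold P
    apply Finset.prod_congr rfl
    intro i _
    have : j * (N:ℤ) + (m * N : ℕ) * L + i = (j * N + i) + (m * N : ℕ) * L := by ring
    rw [this, hper2]
  rw [h10] at h7
  exact h7

theorem Phi_add {Z : Type*} (f : Z → Z) (φ : Z → ℝ) (m n : ℕ) (z : Z) :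
    Phi f φ (m + n) z = Phi f φ m z * Phi f φ n (f^[m] z) := by
  unfold Phi
  rw [Finset.prod_range_add]
  congr 1
  apply Finset.prod_congr rfl
  intro i _
  rw [add_comm m i, Function.iterate_add_apply]

theorem Phi_pos (n : ℕ) (z : B × Circ) : 0 < Phi D.F D.φ n z :=
  Finset.prod_pos fun _ _ => D.φ_pos _

theorem bdd_Phi {X : Type*} [TopologicalSpace X] [CompactSpace X] (f : X → X) (φ : X → ℝ)
    (hφ : Continuous φ) (hpos : ∀ x, 0 < φ x) {N : ℕ} (hN : 0 < N) {z : X}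
    (h : ∀ J : ℕ, Phi f φ (J * N) z ≤ 1) : ∃ C : ℝ, ∀ n, Phi f φ n z ≤ C := by
  obtain ⟨M, hM⟩ := (isCompact_univ.image hφ).bddAbove
  have hM' : ∀ x, φ x ≤ max 1 M := fun x => (hM ⟨x, mem_univ _, rfl⟩).trans (le_max_right _ _)
  have h1 : (1:ℝ) ≤ max 1 M := le_max_left _ _
  refine ⟨(max 1 M) ^ N, fun n => ?_⟩
  have h2 : n = (n / N) * N + n % N := (Nat.div_add_mod' n N).symm
  rw [h2, Phi_add]
  have h3 : ∀ (r : ℕ) (w : X), Phi f φ r w ≤ (max 1 M) ^ r := by
    intro r w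
    unfold Phi
    calc ∏ i ∈ Finset.range r, φ (f^[i] w) ≤ ∏ i ∈ Finset.range r, (max 1 M) :=
          Finset.prod_le_prod (fun _ _ => (hpos _).le) (fun _ _ => hM' _)
      _ = (max 1 M) ^ r := by simp
  have h4 : (max 1 M) ^ (n % N) ≤ (max 1 M) ^ N :=
    pow_le_pow_right₀ h1 (Nat.mod_lt n hN).le
  have h5 : ∀ (r : ℕ) (w : X), 0 < Phi f φ r w := fun r w => Finset.prod_pos fun _ _ => hpos _
  calc Phi f φ (n / N * N) z * Phi f φ (n % N) (f^[n / N * N] z)
      ≤ 1 * (max 1 M) ^ N :=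
        mul_le_mul (h _) ((h3 _ _).trans h4) (h5 _ _).le zero_le_one
    _ = _ := one_mul _

theorem dn_eq {X : Type*} [TopologicalSpace X] (f : X ≃ₜ X) (φ : X → ℝ) (n : ℕ) (z : X) :
    (Phi f φ n (f.symm^[n] z))⁻¹ = Phi f.symm (fun w => (φ (f.symm w))⁻¹) n z := by
  unfold Phi
  rw [← Finset.prod_inv_distrib, ← Finset.prod_range_reflect]
  apply Finset.prod_congr rfl
  intro i hi
  have hi' : i < n := Finset.mem_range.mp hi
  rw [iter_symm f z (by omega)]
  have h1 : n - (n - 1 - i) = i + 1 := by omega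
  rw [h1, Function.iterate_succ_apply']

end main

end ChainAux

open ChainAux

/-- The chain recurrent set of the skew product is contained in the two graphs. -/
theorem chainRec_subset {B : Type*} [MetricSpace B] [CompactSpace B] (D : TopData B) (N : ℕ)
    (hN : 0 < N) (hg : ∀ z : B × Circ, z.1 ∈ D.Λ → 4 ≤ D.up N z ∨ 4 ≤ D.dn N z)
    (hT : ChainRec D.T ⊆ D.Λ) : ChainRec D.F ⊆ D.S ∪ D.U := by
  intro z hz
  have hΛ : z.1 ∈ D.Λ := hT (chainRec_fst D hz)
  obtain ⟨δ, hδ, hA⟩ := claimA D N hg hT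
  have hε : ∀ n : ℕ, 0 < min δ (1 / ((n:ℝ) + 1)) := fun n => lt_min hδ (by positivity)
  choose L c hL h0 hper hc using fun n : ℕ => exists_periodic D.F hz (hε n)
  have hlim : Tendsto (fun n : ℕ => min δ (1 / ((n:ℝ) + 1))) atTop (𝓝 0) := by
    refine squeeze_zero (fun n => (hε n).le) (fun n => min_le_right _ _)
      tendsto_one_div_add_atTop_nhds_zero_nat
  have hz0 : Tendsto (fun n => c n 0) atTop (𝓝 z) := by
    simp only [h0]
    exact tendsto_const_nhds
  have hsh : ∀ n (t : ℤ), 2 ≤ P D.φ (c n) t N ∨ P D.φ (c n) (t - N) N ≤ 1/2 := by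
    intro n t
    have h1 := hA (L n) (fun i => c n (t + i)) (hL n) (fun i => by
      show c n (t + (i + L n)) = c n (t + i)
      rw [← add_assoc, hper]) (fun i => by
      have := hc n (t + i)
      rw [add_assoc] at this
      exact this.trans_le (min_le_left _ _))
    have h2 : P D.φ (fun i => c n (t + i)) 0 N = P D.φ (c n) t N := by
      unfold P
      simp
    have h3 : P D.φ (fun i => c n (t + i)) (-(N:ℤ)) N = P D.φ (c n) (t - N) N := by
      unfold P
      apply Finset.prod_congr rfl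
      intro i _
      congr 2
      ring_nf
    rw [h2, h3] at h1
    exact h1
  have hdic := fun n => dichotomy D (hL n) (hper n) (hsh n)
  by_cases hS : ∀ J : ℕ, Phi D.F D.φ (J * N) z ≤ 1
  · left
    exact ⟨hΛ, bdd_Phi D.F D.φ D.φ_cont D.φ_pos hN hS⟩
  by_cases hU : ∀ J : ℕ, Phi D.F.symm (fun w => (D.φ (D.F.symm w))⁻¹) (J * N) z ≤ 1
  · right
    refine ⟨hΛ, ?_⟩
    obtain ⟨C, hC⟩ := bdd_Phi D.F.symm (fun w => (D.φ (D.F.symm w))⁻¹)
      ((D.φ_cont.comp D.F.symm.continuous).inv₀ (fun w => (D.φ_pos _).ne'))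
      (fun w => inv_pos.mpr (D.φ_pos _)) hN hU
    refine ⟨C, fun n => ?_⟩
    unfold TopData.dn
    rw [dn_eq]
    exact hC n
  exfalso
  push Not at hS hU
  obtain ⟨J1, hJ1⟩ := hS
  obtain ⟨J2, hJ2⟩ := hU
  rw [← dn_eq] at hJ2
  have hJ2' : Phi D.F D.φ (J2 * N) (D.F.symm^[J2 * N] z) < 1 := by
    have hp := Phi_pos D (J2 * N) (D.F.symm^[J2 * N] z)
    exact (one_lt_inv₀ hp).mp hJ2
  have t1 := tendsto_P_fwd D.F D.φ D.φ_cont c _ hlim hc hz0 (J1 * N)
  have t2 := tendsto_P_bwd D.F D.φ D.φ_cont c _ hlim hc hz0 (J2 * N)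
  have e1 := t1.eventually_const_lt hJ1
  have e2 := t2.eventually_lt_const hJ2'
  obtain ⟨n, e1, e2⟩ := (e1.and e2).exists
  rw [P_mul] at e1 e2
  rcases hdic n with h | h
  · have : ∏ j ∈ Finset.range J1, P D.φ (c n) (0 + j * N) N ≤ 1 := by
      apply Finset.prod_le_one (fun j _ => (P_pos _ D.φ_pos _ _ _).le)
      intro j _
      rw [zero_add]
      exact (h j).trans (by norm_num)
    linarith
  · have : 1 ≤ ∏ j ∈ Finset.range J2, P D.φ (c n) (-((J2 * N : ℕ):ℤ) + j * N) N := by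
      apply Finset.one_le_prod
      intro j _
      have h1 := h (-(J2:ℤ) + j)
      have h2 : (-(J2:ℤ) + j) * N = -((J2 * N : ℕ):ℤ) + j * N := by push_cast; ring
      rw [h2] at h1
      linarith
    linarith

end Pool.Agent.H728R2.OS
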