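import Pool.Agent.H728R2.OS.Base

open Set Filter Topology Complex Matrix
open scoped ComplexConjugate

namespace Pool.Agent.H728R2.OS

private lemma cnt_mem {X : Type*} [TopologicalSpace X] (f : X ≃ₜ X) {m : ℕ} (hm : 0 < m) {x : X}
    (hx : f^[m] x = x) : x ∈ Omega f := by
  intro U hU
  have hxU : x ∈ U := mem_of_mem_nhds hU
  exact ⟨m, hm, x, ⟨x, hxU, hx⟩, hxU⟩

private lemma cnt_orbit {X : Type*} [TopologicalSpace X] (f : X ≃ₜ X) {m : ℕ} {x : X}
    (hx : f^[m] x = x) (i : ℕ) : f^[m] (f^[i] x) = f^[i] x := by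
  rw [← Function.iterate_add_apply, Nat.add_comm, Function.iterate_add_apply, hx]

private lemma cnt_inv {X : Type*} [TopologicalSpace X] (f : X ≃ₜ X) {x : X}
    (hx : x ∈ Omega f) : f x ∈ Omega f := by
  intro U hU
  have h1 : f ⁻¹' U ∈ 𝓝 x := f.continuous.continuousAt.preimage_mem_nhds hU
  obtain ⟨n, hn, z, ⟨w, hw, hwz⟩, hz⟩ := hx _ h1
  refine ⟨n, hn, f z, ⟨f w, hw, ?_⟩, hz⟩
  rw [← hwz, ← Function.iterate_succ_apply, Function.iterate_succ_apply']

private lemma cnt_fin {X : Type*} [TopologicalSpace X] {f g : X ≃ₜ X} (h : OmegaConj f g)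
    (m : ℕ) (hm : 0 < m) (hg : {x | g^[m] x = x}.Finite) : {x | f^[m] x = x}.Finite := by
  obtain ⟨h, H⟩ := h
  have hit : ∀ (x : X) (hx : f^[m] x = x) (i : ℕ),
      (h ⟨f^[i] x, cnt_mem f hm (cnt_orbit f hx i)⟩ : X) = g^[i] (h ⟨x, cnt_mem f hm hx⟩ : X) := by
    intro x hx i
    induction i with
    | zero => rfl
    | succ i ih =>
      have h2 : g^[i + 1] (h ⟨x, cnt_mem f hm hx⟩ : X) =
          g (h ⟨f^[i] x, cnt_mem f hm (cnt_orbit f hx i)⟩ : X) := by
        rw [Function.iterate_succ_apply', ← ih]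
      rw [h2]
      apply H
      show f^[i + 1] x = f (f^[i] x)
      rw [Function.iterate_succ_apply']
  have hmem : ∀ (x : X) (hx : f^[m] x = x),
      g^[m] (h ⟨x, cnt_mem f hm hx⟩ : X) = (h ⟨x, cnt_mem f hm hx⟩ : X) := by
    intro x hx
    rw [← hit x hx m]
    congr 2
    exact Subtype.ext hx
  have hfin : Finite {x | g^[m] x = x} := hg
  have hinj : Function.Injective (fun x : {x | f^[m] x = x} =>
      (⟨(h ⟨x.1, cnt_mem f hm x.2⟩ : X), hmem x.1 x.2⟩ : {x | g^[m] x = x})) := by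
    intro x y hxy
    have h1 : (h ⟨x.1, cnt_mem f hm x.2⟩ : X) = (h ⟨y.1, cnt_mem f hm y.2⟩ : X) := by
      have h0 := congrArg (fun t : {x | g^[m] x = x} => (t : X)) hxy
      exact h0
    have h2 := h.injective (Subtype.ext h1)
    have h3 := congrArg (fun t : Omega f => (t : X)) h2
    exact Subtype.ext h3
  exact Finite.of_injective _ hinj

private lemma cnt_symm {X : Type*} [TopologicalSpace X] {f g : X ≃ₜ X} (h : OmegaConj f g) :
    OmegaConj g f := by
  obtain ⟨h, H⟩ := h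
  refine ⟨h.symm, ?_⟩
  intro u v huv
  set x := h.symm u with hx
  have h1 : (h ⟨f x, cnt_inv f x.2⟩ : X) = g (h x) := H x ⟨f x, cnt_inv f x.2⟩ rfl
  have h2 : h x = u := by rw [hx]; exact h.apply_symm_apply u
  have h3 : h ⟨f x, cnt_inv f x.2⟩ = v := by
    apply Subtype.ext
    rw [h1, h2, huv]
  rw [← h3, h.symm_apply_apply]

/-- Conjugate nonwandering sets have the same number of periodic points. -/
theorem omegaConj_fix {X : Type*} [TopologicalSpace X] {f g : X ≃ₜ X} (h : OmegaConj f g)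
    (m : ℕ) (hm : 0 < m) : {x | f^[m] x = x}.Finite ↔ {x | g^[m] x = x}.Finite :=
  ⟨cnt_fin (cnt_symm h) m hm, cnt_fin h m hm⟩

end Pool.Agent.H728R2.OS
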