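import Pool.Agent.H728R2.OS.Base

open Set Filter Topology Complex Matrix
open scoped ComplexConjugate

namespace Pool.Agent.H728R2.OS

private theorem CUT_rot : rot 0 = 1 := by
  unfold rot
  ext i j
  fin_cases i <;> fin_cases j <;> simp

private theorem CUT_succ (a b : ℕ → ℂ) (m : ℕ) (v : Fin 2 → ℂ) :
    pr a b 0 (m + 1) *ᵥ v = su (a m) (b m) *ᵥ (pr a b 0 m *ᵥ v) := by
  rw [Matrix.mulVec_mulVec]
  show (rot 0 * su (a m) (b m) * pr a b 0 m) *ᵥ v = _
  rw [CUT_rot, Matrix.one_mul]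

private theorem CUT_succ0 (a b : ℕ → ℂ) (m : ℕ) (v : Fin 2 → ℂ) :
    (pr a b 0 (m + 1) *ᵥ v) 0 = a m * (pr a b 0 m *ᵥ v) 0 + b m * (pr a b 0 m *ᵥ v) 1 := by
  rw [CUT_succ]
  generalize pr a b 0 m *ᵥ v = w
  simp [su, Matrix.mulVec, dotProduct, Fin.sum_univ_two]

private theorem CUT_succ1 (a b : ℕ → ℂ) (m : ℕ) (v : Fin 2 → ℂ) :
    (pr a b 0 (m + 1) *ᵥ v) 1 =
      conj (b m) * (pr a b 0 m *ᵥ v) 0 + conj (a m) * (pr a b 0 m *ᵥ v) 1 := by
  rw [CUT_succ]
  generalize pr a b 0 m *ᵥ v = w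
  simp [su, Matrix.mulVec, dotProduct, Fin.sum_univ_two]

private theorem CUT_one_le {a b : ℂ} (h : ‖a‖ ^ 2 - ‖b‖ ^ 2 = 1) : 1 ≤ ‖a‖ := by
  nlinarith [norm_nonneg a, norm_nonneg b, sq_nonneg ‖b‖]

private theorem CUT_inv_le {a b : ℂ} (h : ‖a‖ ^ 2 - ‖b‖ ^ 2 = 1) : ‖(conj a)⁻¹‖ ≤ 1 := by
  rw [norm_inv, RCLike.norm_conj]
  exact inv_le_one_of_one_le₀ (CUT_one_le h)

private theorem CUT_ratio_le {a b : ℂ} (h : ‖a‖ ^ 2 - ‖b‖ ^ 2 = 1) : ‖(conj a)⁻¹‖ * ‖b‖ ≤ 1 := by
  have h1 := CUT_one_le h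
  rw [norm_inv, RCLike.norm_conj, inv_mul_le_iff₀ (by linarith), mul_one]
  nlinarith [norm_nonneg a, norm_nonneg b]

private theorem CUT_conj {a b : ℂ} (h : ‖a‖ ^ 2 - ‖b‖ ^ 2 = 1) :
    a * conj a = 1 + b * conj b := by
  rw [Complex.mul_conj, Complex.mul_conj, Complex.normSq_eq_norm_sq, Complex.normSq_eq_norm_sq]
  have : ‖a‖ ^ 2 = 1 + ‖b‖ ^ 2 := by linarith
  rw [this]
  push_cast
  ring

private theorem CUT_ne {a b : ℂ} (h : ‖a‖ ^ 2 - ‖b‖ ^ 2 = 1) : conj a ≠ 0 := by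
  have h1 := CUT_one_le h
  intro h2
  have h3 : a = 0 := by simpa using h2
  rw [h3, norm_zero] at h1
  norm_num at h1

/-- the two boundary terms -/
private theorem CUT_bd {a b p q : ℂ} (h : ‖a‖ ^ 2 - ‖b‖ ^ 2 = 1) :
    ‖(conj a)⁻¹ * p‖ ^ 2 + ‖q + (conj a)⁻¹ * (b * p)‖ ^ 2 ≤ 3 * (‖p‖ ^ 2 + ‖q‖ ^ 2) := by
  have h1 : ‖(conj a)⁻¹ * p‖ ≤ ‖p‖ := by
    rw [norm_mul]
    calc ‖(conj a)⁻¹‖ * ‖p‖ ≤ 1 * ‖p‖ := mul_le_mul_of_nonneg_right (CUT_inv_le h) (norm_nonneg _)
      _ = ‖p‖ := one_mul _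
  have h2 : ‖q + (conj a)⁻¹ * (b * p)‖ ≤ ‖q‖ + ‖p‖ := by
    refine (norm_add_le _ _).trans (add_le_add le_rfl ?_)
    rw [norm_mul, norm_mul, ← mul_assoc]
    calc ‖(conj a)⁻¹‖ * ‖b‖ * ‖p‖ ≤ 1 * ‖p‖ :=
          mul_le_mul_of_nonneg_right (CUT_ratio_le h) (norm_nonneg _)
      _ = ‖p‖ := one_mul _
  have h3 := pow_le_pow_left₀ (norm_nonneg _) h1 2
  have h4 := pow_le_pow_left₀ (norm_nonneg _) h2 2
  nlinarith [sq_nonneg (‖q‖ - ‖p‖), sq_nonneg ‖q‖, sq_nonneg ‖p‖]

/-- The summed inequality for periodic sequences. The isometry bound and the walk are hypotheses. -/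
theorem sum_le_of_periodic (a b : ℕ → ℂ) (h : ∀ j, ‖a j‖ ^ 2 - ‖b j‖ ^ 2 = 1) (k : ℕ)
    (hk : 0 < k) (hper : ∀ j, a (j + k) = a j ∧ b (j + k) = b j) (ε : ℝ) (hε : 0 < ε)
    (hgap : ∀ (N : ℕ) [NeZero N], k ∣ N →
      ∃ W : EuclideanSpace ℂ (ZMod N × Fin 2) →ₗ[ℂ] EuclideanSpace ℂ (ZMod N × Fin 2),
      (∀ ψ, 2 * ε * ‖ψ‖ ≤ ‖ψ - W ψ‖) ∧
      (∀ ψ (j : ZMod N), W ψ (j + 1, 0) =
        (conj (a j.val))⁻¹ * (ψ (j, 0) + b j.val * ψ (j + 1, 1))) ∧
      (∀ ψ (j : ZMod N), W ψ (j, 1) =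
        (conj (a j.val))⁻¹ * (-(conj (b j.val) * ψ (j, 0)) + ψ (j + 1, 1))))
    (n : ℕ) (v : Fin 2 → ℂ) :
    ε ^ 2 * ∑ j ∈ Finset.range (n + 1), nsq (pr a b 0 j *ᵥ v) ≤
      nsq v + nsq (pr a b 0 n *ᵥ v) := by
  obtain ⟨N, hN⟩ : ∃ N, N = k * (n + 2) := ⟨_, rfl⟩
  have hNn : n + 2 ≤ N := by rw [hN]; exact Nat.le_mul_of_pos_left _ hk
  have : NeZero N := ⟨by omega⟩
  obtain ⟨W, hW, hW0, hW1⟩ := hgap N ⟨n + 2, hN⟩
  obtain ⟨V, hV⟩ : ∃ V : ℕ → Fin 2 → ℂ, V = fun j => pr a b 0 j *ᵥ v := ⟨_, rfl⟩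
  have hV0 : V 0 = v := by rw [hV]; simp [pr]
  have hVs0 : ∀ m, V (m + 1) 0 = a m * V m 0 + b m * V m 1 := fun m => by
    rw [hV]; exact CUT_succ0 a b m v
  have hVs1 : ∀ m, V (m + 1) 1 = conj (b m) * V m 0 + conj (a m) * V m 1 := fun m => by
    rw [hV]; exact CUT_succ1 a b m v
  have hgoal : ε ^ 2 * ∑ j ∈ Finset.range (n + 1), nsq (V j) ≤ nsq (V 0) + nsq (V n) := by
    let ψ : EuclideanSpace ℂ (ZMod N × Fin 2) :=
      WithLp.toLp 2 (fun x : ZMod N × Fin 2 => if x.1.val ≤ n then V x.1.val x.2 else 0)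
    have hψ : ∀ (j : ZMod N) (c : Fin 2), ψ (j, c) = if j.val ≤ n then V j.val c else 0 :=
      fun j c => rfl
    have hψle : ∀ (j : ZMod N) (c : Fin 2), j.val ≤ n → ψ (j, c) = V j.val c :=
      fun j c hj => by rw [hψ, if_pos hj]
    have hψgt : ∀ (j : ZMod N) (c : Fin 2), n < j.val → ψ (j, c) = 0 :=
      fun j c hj => by rw [hψ, if_neg (by omega)]
    -- norms
    have nrm : ∀ φ : EuclideanSpace ℂ (ZMod N × Fin 2), ‖φ‖ ^ 2 =
        ∑ j : ZMod N, (‖φ (j, 0)‖ ^ 2 + ‖φ (j, 1)‖ ^ 2) := by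
      intro φ
      rw [EuclideanSpace.norm_sq_eq, Fintype.sum_prod_type]
      refine Finset.sum_congr rfl fun j _ => ?_
      rw [Fin.sum_univ_two]
    have nrm' : ∀ φ : EuclideanSpace ℂ (ZMod N × Fin 2), ‖φ‖ ^ 2 =
        ∑ j : ZMod N, (‖φ (j + 1, 0)‖ ^ 2 + ‖φ (j, 1)‖ ^ 2) := by
      intro φ
      rw [nrm, Finset.sum_add_distrib, Finset.sum_add_distrib]
      congr 1
      exact (Equiv.sum_comp (Equiv.addRight (1 : ZMod N)) (fun j => ‖φ (j, 0)‖ ^ 2)).symm
    -- the norm of ψ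
    have low : ∑ j ∈ Finset.range (n + 1), nsq (V j) ≤ ‖ψ‖ ^ 2 := by
      rw [nrm]
      have hinj : Set.InjOn (fun j : ℕ => (j : ZMod N)) (Finset.range (n + 1) : Set ℕ) := by
        intro i hi j hj hij
        simp only [Finset.coe_range, Set.mem_Iio] at hi hj
        have h1 := congrArg ZMod.val hij
        simp only at h1
        rwa [ZMod.val_natCast_of_lt (by omega), ZMod.val_natCast_of_lt (by omega)] at h1
      calc ∑ j ∈ Finset.range (n + 1), nsq (V j)
          = ∑ j ∈ Finset.range (n + 1), (‖ψ ((j : ZMod N), 0)‖ ^ 2 + ‖ψ ((j : ZMod N), 1)‖ ^ 2) := by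
            refine Finset.sum_congr rfl fun j hj => ?_
            rw [Finset.mem_range] at hj
            rw [hψ, hψ, ZMod.val_natCast_of_lt (by omega), if_pos (by omega), if_pos (by omega)]
            rfl
        _ = ∑ j ∈ (Finset.range (n + 1)).image (fun j : ℕ => (j : ZMod N)),
              (‖ψ (j, 0)‖ ^ 2 + ‖ψ (j, 1)‖ ^ 2) := (Finset.sum_image
                (f := fun j : ZMod N => ‖ψ (j, 0)‖ ^ 2 + ‖ψ (j, 1)‖ ^ 2) hinj).symm
        _ ≤ ∑ j : ZMod N, (‖ψ (j, 0)‖ ^ 2 + ‖ψ (j, 1)‖ ^ 2) :=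
            Finset.sum_le_sum_of_subset_of_nonneg (Finset.subset_univ _)
              fun j _ _ => by positivity
    -- the defect
    have hval : ∀ i : ZMod N, i.val + 1 < N → (i + 1).val = i.val + 1 := by
      intro i hi
      have h1 : (1 : ZMod N).val = 1 := by
        rw [ZMod.val_one_eq_one_mod, Nat.mod_eq_of_lt (by omega)]
      rw [ZMod.val_add, h1, Nat.mod_eq_of_lt hi]
    have up : ‖ψ - W ψ‖ ^ 2 ≤ 3 * nsq (V n) + 3 * nsq (V 0) := by
      rw [nrm']
      calc ∑ j : ZMod N, (‖(ψ - W ψ) (j + 1, 0)‖ ^ 2 + ‖(ψ - W ψ) (j, 1)‖ ^ 2)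
          ≤ ∑ j : ZMod N, ((if j = (n : ZMod N) then 3 * nsq (V n) else 0) +
              (if j = (-1 : ZMod N) then 3 * nsq (V 0) else 0)) := by
            refine Finset.sum_le_sum fun i _ => ?_
            have hnn : ∀ m, 0 ≤ nsq (V m) := fun m => by unfold nsq; positivity
            have e0 : (ψ - W ψ) (i + 1, 0) = ψ (i + 1, 0) - W ψ (i + 1, 0) := rfl
            have e1 : (ψ - W ψ) (i, 1) = ψ (i, 1) - W ψ (i, 1) := rfl
            rw [e0, e1, hW0, hW1]
            by_cases h1 : i.val + 1 < N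
            · rcases lt_trichotomy i.val n with h2 | h2 | h2
              · -- inside
                have z0 : ψ (i + 1, 0) - (conj (a i.val))⁻¹ * (ψ (i, 0) + b i.val * ψ (i + 1, 1)) = 0 := by
                  rw [hψle (i + 1) 0 (by rw [hval i h1]; omega), hψle (i + 1) 1 (by rw [hval i h1]; omega),
                    hψle i 0 (by omega), hval i h1, hVs0, hVs1, sub_eq_zero, eq_inv_mul_iff_mul_eq₀ (CUT_ne (h _))]
                  linear_combination (V i.val 0) * CUT_conj (h i.val)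
                have z1 : ψ (i, 1) - (conj (a i.val))⁻¹ *
                    (-(conj (b i.val) * ψ (i, 0)) + ψ (i + 1, 1)) = 0 := by
                  rw [hψle (i + 1) 1 (by rw [hval i h1]; omega), hψle i 1 (by omega),
                    hψle i 0 (by omega), hval i h1, hVs1, sub_eq_zero, eq_inv_mul_iff_mul_eq₀ (CUT_ne (h _))]
                  ring
                rw [z0, z1, norm_zero]
                have := hnn n
                have := hnn 0
                split_ifs <;> nlinarith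
              · -- the end
                have hi : i = (n : ZMod N) := by
                  rw [← h2]
                  exact (ZMod.natCast_zmod_val i).symm
                rw [hψgt (i + 1) 0 (by rw [hval i h1]; omega), hψgt (i + 1) 1 (by rw [hval i h1]; omega),
                  hψle i 1 (by omega), hψle i 0 (by omega), h2, if_pos hi]
                have hb := CUT_bd (a := a n) (b := conj (b n)) (p := V n 0) (q := V n 1) (by
                  rw [RCLike.norm_conj]; exact h n)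
                have e2 : (0 : ℂ) - (conj (a n))⁻¹ * (V n 0 + b n * 0) = -((conj (a n))⁻¹ * V n 0) := by
                  ring
                have e3 : V n 1 - (conj (a n))⁻¹ * (-(conj (b n) * V n 0) + 0) =
                    V n 1 + (conj (a n))⁻¹ * (conj (b n) * V n 0) := by ring
                rw [e2, e3, norm_neg]
                have : (0 : ℝ) ≤ if i = (-1 : ZMod N) then 3 * nsq (V 0) else 0 := by
                  have := hnn 0
                  split_ifs <;> nlinarith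
                unfold nsq at this ⊢
                linarith
              · -- outside
                rw [hψgt (i + 1) 0 (by rw [hval i h1]; omega), hψgt (i + 1) 1 (by rw [hval i h1]; omega),
                  hψgt i 1 (by omega), hψgt i 0 (by omega)]
                have := hnn n
                have := hnn 0
                simp only [mul_zero, neg_zero, add_zero, sub_zero, norm_zero]
                split_ifs <;> nlinarith
            · -- the start
              have h3 := ZMod.val_lt i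
              have h4 : i.val = N - 1 := by omega
              have hi : i + 1 = 0 := by
                rw [← ZMod.val_eq_zero]
                have h1 : (1 : ZMod N).val = 1 := by
                  rw [ZMod.val_one_eq_one_mod, Nat.mod_eq_of_lt (by omega)]
                rw [ZMod.val_add, h1, h4, Nat.sub_add_cancel (by omega), Nat.mod_self]
              have hi' : i = -1 := eq_neg_of_add_eq_zero_left hi
              rw [hi, hψle 0 0 (by rw [ZMod.val_zero]; exact Nat.zero_le _),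
                hψle 0 1 (by rw [ZMod.val_zero]; exact Nat.zero_le _), hψgt i 0 (by omega),
                hψgt i 1 (by omega), ZMod.val_zero, if_pos hi']
              have hb := CUT_bd (a := a i.val) (b := - b i.val) (p := V 0 1) (q := V 0 0) (by
                  rw [norm_neg]; exact h i.val)
              have e2 : V 0 0 - (conj (a i.val))⁻¹ * (0 + b i.val * V 0 1) =
                  V 0 0 + (conj (a i.val))⁻¹ * (-b i.val * V 0 1) := by ring
              have e3 : (0 : ℂ) - (conj (a i.val))⁻¹ * (-(conj (b i.val) * 0) + V 0 1) =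
                  -((conj (a i.val))⁻¹ * V 0 1) := by ring
              rw [e2, e3, norm_neg]
              have : (0 : ℝ) ≤ if i = (n : ZMod N) then 3 * nsq (V n) else 0 := by
                have := hnn n
                split_ifs <;> nlinarith
              unfold nsq at this ⊢
              linarith
        _ = 3 * nsq (V n) + 3 * nsq (V 0) := by
            rw [Finset.sum_add_distrib]
            simp
    have hfin := hW ψ
    have h5 : (2 * ε * ‖ψ‖) ^ 2 ≤ ‖ψ - W ψ‖ ^ 2 := pow_le_pow_left₀ (by positivity) hfin 2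
    have h6 : (2 * ε * ‖ψ‖) ^ 2 = 4 * (ε ^ 2 * ‖ψ‖ ^ 2) := by ring
    have h7 : ε ^ 2 * ∑ j ∈ Finset.range (n + 1), nsq (V j) ≤ ε ^ 2 * ‖ψ‖ ^ 2 :=
      mul_le_mul_of_nonneg_left low (by positivity)
    have h8 : 0 ≤ nsq (V n) := by unfold nsq; positivity
    have h9 : 0 ≤ nsq (V 0) := by unfold nsq; positivity
    linarith
  rw [hV0] at hgoal
  rw [hV] at hgoal
  exact hgoal

end Pool.Agent.H728R2.OS
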