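import Pool.Agent.H728R2.OS.Base

open Set Filter Topology Complex Matrix
open scoped ComplexConjugate

namespace Pool.Agent.H728R2.OS

private theorem iter_cancel {Z : Type*} (f : Z ≃ Z) (n : ℕ) (z : Z) :
    f^[n] (f.symm^[n] z) = z :=
  Function.LeftInverse.iterate (f := f.symm) (g := f) (fun w => f.apply_symm_apply w) n z

private theorem iter_cancel' {Z : Type*} (f : Z ≃ Z) (n : ℕ) (z : Z) :
    f.symm^[n] (f^[n] z) = z :=
  Function.LeftInverse.iterate (f := f) (g := f.symm) (fun w => f.symm_apply_apply w) n z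

private theorem iter_sub {Z : Type*} (f : Z ≃ Z) {i n : ℕ} (h : i ≤ n) (z : Z) :
    f^[i] (f.symm^[n] z) = f.symm^[n - i] z := by
  obtain ⟨k, rfl⟩ := Nat.exists_eq_add_of_le h
  rw [Function.iterate_add_apply, iter_cancel, Nat.add_sub_cancel_left]

private theorem phi_symm {Z : Type*} (f : Z ≃ Z) (φ : Z → ℝ) (n : ℕ) (z : Z) :
    Phi f.symm (fun w => (φ (f.symm w))⁻¹) n z = (Phi f φ n (f.symm^[n] z))⁻¹ := by
  unfold Phi
  rw [Finset.prod_inv_distrib]
  congr 1
  rw [← Finset.prod_range_reflect (fun i => φ (f^[i] (f.symm^[n] z)))]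
  apply Finset.prod_congr rfl
  intro j hj
  have hj' : j < n := Finset.mem_range.1 hj
  rw [iter_sub f (by omega), ← Function.iterate_succ_apply' (⇑f.symm)]
  congr 2
  omega

private theorem phi_add {Z : Type*} (f : Z → Z) (φ : Z → ℝ) (m n : ℕ) (z : Z) :
    Phi f φ (m + n) z = Phi f φ m z * Phi f φ n (f^[m] z) := by
  unfold Phi
  rw [Finset.prod_range_add]
  congr 1
  apply Finset.prod_congr rfl
  intro i _
  rw [add_comm m i, Function.iterate_add_apply]

/-- Reversal of time. -/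
theorem exists_symm {B : Type*} [MetricSpace B] [CompactSpace B] (D : TopData B) :
    ∃ D' : TopData B, D'.T = D.T.symm ∧ D'.F = D.F.symm ∧ D'.Λ = D.Λ ∧
      (∀ z, D'.φ z = (D.φ (D.F.symm z))⁻¹) ∧
      (∀ n z, D'.up n z = D.dn n z) ∧ ∀ n z, D'.dn n z = D.up n z := by
  have hpos : ∀ n z, 0 < Phi D.F D.φ n z := fun n z => Finset.prod_pos fun i _ => D.φ_pos _
  have hphi : ∀ n z, Phi D.F.symm (fun w => (D.φ (D.F.symm w))⁻¹) n z =
      (Phi D.F D.φ n (D.F.symm^[n] z))⁻¹ := fun n z => phi_symm D.F.toEquiv D.φ n z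
  have hfst : ∀ z, (D.F.symm z).1 = D.T.symm z.1 := by
    intro z
    have := D.fst_F (D.F.symm z)
    rw [D.F.apply_symm_apply] at this
    rw [this, D.T.symm_apply_apply]
  have hfstn : ∀ n z, ((D.F)^[n] z).1 = (D.T)^[n] z.1 := by
    intro n
    induction n with
    | zero => intro z; rfl
    | succ n ih =>
      intro z
      rw [Function.iterate_succ_apply, ih, Function.iterate_succ_apply, D.fst_F]
  have hfstn' : ∀ n z, ((D.F.symm)^[n] z).1 = (D.T.symm)^[n] z.1 := by
    intro n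
    induction n with
    | zero => intro z; rfl
    | succ n ih =>
      intro z
      rw [Function.iterate_succ_apply, ih, Function.iterate_succ_apply, hfst]
  have hΛ : ∀ x, D.T.symm x ∈ D.Λ ↔ x ∈ D.Λ := by
    intro x
    rw [← D.Λ_inv (D.T.symm x), D.T.apply_symm_apply]
  have hΛn : ∀ n x, (D.T.symm)^[n] x ∈ D.Λ ↔ x ∈ D.Λ := by
    intro n
    induction n with
    | zero => intro x; rfl
    | succ n ih => intro x; rw [Function.iterate_succ_apply, ih, hΛ]
  have hcan : ∀ n z, (D.F)^[n] ((D.F.symm)^[n] z) = z := fun n z => iter_cancel D.F.toEquiv n z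
  have hcan' : ∀ n z, (D.F.symm)^[n] ((D.F)^[n] z) = z := fun n z => iter_cancel' D.F.toEquiv n z
  have hcanT : ∀ n x, (D.T)^[n] ((D.T.symm)^[n] x) = x := fun n z => iter_cancel D.T.toEquiv n z
  refine ⟨{ T := D.T.symm
            F := D.F.symm
            fst_F := hfst
            φ := fun w => (D.φ (D.F.symm w))⁻¹
            φ_pos := fun z => inv_pos.2 (D.φ_pos _)
            φ_cont := (D.φ_cont.comp D.F.symm.continuous).inv₀ fun z => (D.φ_pos _).ne'
            Λ := D.Λ
            Λ_closed := D.Λ_closed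
            Λ_inv := hΛ
            K := D.K
            K_pos := D.K_pos
            sum_le := ?_
            mob := ?_
            ex_le := ?_
            ex_ge := ?_ }, rfl, rfl, rfl, fun _ => rfl, ?_, ?_⟩
  · intro z hz n
    set z0 := (D.F.symm)^[n] z with hz0
    have hz0Λ : z0.1 ∈ D.Λ := by rw [hz0, hfstn', hΛn]; exact hz
    have hterm : ∀ j, j ≤ n → Phi D.F.symm (fun w => (D.φ (D.F.symm w))⁻¹) j z =
        Phi D.F D.φ (n - j) z0 / Phi D.F D.φ n z0 := by
      intro j hj
      rw [hphi]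
      have h1 := phi_add D.F D.φ (n - j) j z0
      rw [Nat.sub_add_cancel hj] at h1
      have h2 : (D.F)^[n - j] z0 = (D.F.symm)^[j] z := by
        have := iter_sub D.F.toEquiv (show n - j ≤ n by omega) z
        have e : n - (n - j) = j := by omega
        rw [e] at this
        exact this
      rw [h2] at h1
      rw [h1]
      have := (hpos (n - j) z0).ne'
      have := (hpos j ((D.F.symm)^[j] z)).ne'
      field_simp
    have hsum : ∑ j ∈ Finset.range (n + 1), Phi D.F.symm (fun w => (D.φ (D.F.symm w))⁻¹) j z =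
        (∑ j ∈ Finset.range (n + 1), Phi D.F D.φ j z0) / Phi D.F D.φ n z0 := by
      rw [Finset.sum_div, ← Finset.sum_range_reflect (fun j => Phi D.F D.φ j z0 / _)]
      apply Finset.sum_congr rfl
      intro j hj
      rw [hterm j (by have := Finset.mem_range.1 hj; omega)]
      congr 2
    rw [hsum, hphi, div_le_iff₀ (hpos n z0), ← hz0]
    have := D.sum_le z0 hz0Λ n
    have hne := (hpos n z0).ne'
    calc _ ≤ D.K * (1 + Phi D.F D.φ n z0) := this
      _ = D.K * (1 + (Phi D.F D.φ n z0)⁻¹) * Phi D.F D.φ n z0 := by field_simp; ring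
  · intro x y y'
    set w := D.F.symm (x, y) with hw
    set w' := D.F.symm (x, y') with hw'
    have e1 : w.1 = w'.1 := by rw [hw, hw', hfst, hfst]
    have hm := D.mob w.1 w.2 w'.2
    have e2 : (w.1, w.2) = w := rfl
    have e3 : (w.1, w'.2) = w' := by rw [e1]
    rw [e2, e3, hw, hw', D.F.apply_symm_apply, D.F.apply_symm_apply, ← hw, ← hw'] at hm
    simp only at hm
    show ‖e w.2 - e w'.2‖ ^ 2 * ((D.φ w)⁻¹ * (D.φ w')⁻¹) = ‖e y - e y'‖ ^ 2
    rw [← hm]
    have := (D.φ_pos w).ne'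
    have := (D.φ_pos w').ne'
    field_simp
  · intro x n
    obtain ⟨y0, hy0⟩ := D.ex_ge ((D.T.symm)^[n] x) n
    refine ⟨((D.F)^[n] ((D.T.symm)^[n] x, y0)).2, ?_⟩
    have e1 : (x, ((D.F)^[n] ((D.T.symm)^[n] x, y0)).2) = (D.F)^[n] ((D.T.symm)^[n] x, y0) := by
      apply Prod.ext
      · rw [hfstn, hcanT]
      · rfl
    rw [e1, hphi, hcan']
    exact inv_le_one_of_one_le₀ hy0
  · intro x n
    obtain ⟨y0, hy0⟩ := D.ex_le ((D.T.symm)^[n] x) n
    refine ⟨((D.F)^[n] ((D.T.symm)^[n] x, y0)).2, ?_⟩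
    have e1 : (x, ((D.F)^[n] ((D.T.symm)^[n] x, y0)).2) = (D.F)^[n] ((D.T.symm)^[n] x, y0) := by
      apply Prod.ext
      · rw [hfstn, hcanT]
      · rfl
    rw [e1, hphi, hcan']
    exact (one_le_inv₀ (hpos _ _)).2 hy0
  · intro n z
    exact hphi n z
  · intro n z
    show (Phi D.F.symm (fun w => (D.φ (D.F.symm w))⁻¹) n ((D.F.symm.symm)^[n] z))⁻¹ = _
    rw [hphi, Homeomorph.symm_symm, hcan', inv_inv]
    rfl

end Pool.Agent.H728R2.OS
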