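import Pool.Agent.H728R2.OS.Base
import Pool.Agent.H728R2.OS.S.TSYM

open Set Filter Topology Complex Matrix
open scoped ComplexConjugate

namespace Pool.Agent.H728R2.OS

namespace DISJ

variable {B : Type*} [MetricSpace B] [CompactSpace B] (D : TopData B)

theorem Phi_add {Z : Type*} (f : Z → Z) (φ : Z → ℝ) (i j : ℕ) (z : Z) :
    Phi f φ (i + j) z = Phi f φ i z * Phi f φ j (f^[i] z) := by
  unfold Phi
  rw [Finset.prod_range_add]
  congr 1
  apply Finset.prod_congr rfl
  intro k _
  rw [← Function.iterate_add_apply, Nat.add_comm k i]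

theorem Phi_pos (n : ℕ) (z : B × Circ) : 0 < Phi D.F D.φ n z :=
  Finset.prod_pos fun _ _ => D.φ_pos _

theorem fst_iter (n : ℕ) (z : B × Circ) (hz : z.1 ∈ D.Λ) : (D.F^[n] z).1 ∈ D.Λ := by
  induction n with
  | zero => exact hz
  | succ n ih =>
    rw [Function.iterate_succ_apply', D.fst_F]
    exact (D.Λ_inv _).2 ih

/-- If the forward weights are bounded then the first one is small. -/
theorem up_le (N : ℕ) (hg : ∀ z : B × Circ, z.1 ∈ D.Λ → 4 ≤ D.up N z ∨ 4 ≤ D.dn N z)
    (z : B × Circ) (hz : z.1 ∈ D.Λ) (hb : ∃ C : ℝ, ∀ n, D.up n z ≤ C) : D.up N z ≤ 1 / 4 := by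
  obtain ⟨C, hC⟩ := hb
  set W : ℕ → ℝ := fun j => Phi D.F D.φ (j * N) z with hW
  have hWpos : ∀ j, 0 < W j := fun j => Phi_pos D _ z
  have hdich : ∀ j, 4 * W (j + 1) ≤ W (j + 2) ∨ 4 * W (j + 1) ≤ W j := by
    intro j
    have hp : (D.F^[(j + 1) * N] z).1 ∈ D.Λ := fst_iter D _ z hz
    rcases hg _ hp with h | h
    · left
      have e1 : W (j + 2) = W (j + 1) * Phi D.F D.φ N (D.F^[(j + 1) * N] z) := by
        rw [hW]
        simp only
        rw [show (j + 2) * N = (j + 1) * N + N by ring, Phi_add]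
      rw [e1]
      have : (4 : ℝ) ≤ Phi D.F D.φ N (D.F^[(j + 1) * N] z) := h
      nlinarith [hWpos (j + 1)]
    · right
      have e0 : D.F.symm^[N] (D.F^[(j + 1) * N] z) = D.F^[j * N] z := by
        rw [show (j + 1) * N = N + j * N by ring, Function.iterate_add_apply]
        exact (Function.LeftInverse.iterate D.F.symm_apply_apply N) _
      have e1 : W (j + 1) = W j * Phi D.F D.φ N (D.F^[j * N] z) := by
        rw [hW]
        simp only
        rw [show (j + 1) * N = j * N + N by ring, Phi_add]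
      have h' : (4 : ℝ) ≤ (Phi D.F D.φ N (D.F^[j * N] z))⁻¹ := by
        have := h
        unfold TopData.dn at this
        rwa [e0] at this
      have hpos := Phi_pos D N (D.F^[j * N] z)
      rw [e1]
      have h'' : 4 * Phi D.F D.φ N (D.F^[j * N] z) ≤ 1 := by
        have := mul_le_mul_of_nonneg_right h' hpos.le
        rwa [inv_mul_cancel₀ hpos.ne'] at this
      nlinarith [hWpos j]
  have hno : ¬ 4 * W 1 ≤ W 2 := by
    intro h
    have hgrow : ∀ k, 4 * W (k + 1) ≤ W (k + 2) := by
      intro k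
      induction k with
      | zero => exact h
      | succ k ih =>
        rcases hdich (k + 1) with h1 | h1
        · exact h1
        · exfalso
          have := hWpos (k + 2)
          have := hWpos (k + 1)
          have h1' : 4 * W (k + 2) ≤ W (k + 1) := h1
          linarith
    have hpow : ∀ k, 4 ^ k * W 1 ≤ W (k + 1) := by
      intro k
      induction k with
      | zero => simp
      | succ k ih =>
        have := hgrow k
        calc 4 ^ (k + 1) * W 1 = 4 * (4 ^ k * W 1) := by ring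
          _ ≤ 4 * W (k + 1) := by linarith
          _ ≤ W (k + 1 + 1) := this
    obtain ⟨k, hk⟩ := pow_unbounded_of_one_lt (C / W 1) (by norm_num : (1 : ℝ) < 4)
    have h1 := hpow k
    have h2 : W (k + 1) ≤ C := hC _
    have h3 : C < 4 ^ k * W 1 := by
      rwa [div_lt_iff₀ (hWpos 1)] at hk
    linarith
  rcases hdich 0 with h | h
  · exact absurd h hno
  · have e0 : W 0 = 1 := by
      rw [hW]
      simp [Phi]
    have e1 : W 1 = D.up N z := by
      rw [hW]
      simp [TopData.up]
    have h' : 4 * W 1 ≤ W 0 := h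
    rw [e0, e1] at h'
    linarith

end DISJ

/-- `S` and `U` are disjoint. -/
theorem disjoint_S_U {B : Type*} [MetricSpace B] [CompactSpace B] (D : TopData B) (N : ℕ)
    (hN : 0 < N) (hg : ∀ z : B × Circ, z.1 ∈ D.Λ → 4 ≤ D.up N z ∨ 4 ≤ D.dn N z) :
    Disjoint D.S D.U := by
  obtain ⟨D', hT', hF', hΛ', hφ', hup, hdn⟩ := exists_symm D
  rw [Set.disjoint_left]
  intro z hz hz'
  have h1 := DISJ.up_le D N hg z hz.1 hz.2
  have h2 := DISJ.up_le D' N (fun z hz => by
    rw [hup, hdn]
    exact (hg z (hΛ' ▸ hz)).symm) z (hΛ'.symm ▸ hz.1) (by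
      obtain ⟨C, hC⟩ := hz'.2
      exact ⟨C, fun n => by rw [hup]; exact hC n⟩)
  rw [hup] at h2
  rcases hg z hz.1 with h | h
  · linarith
  · linarith

/-- If the periodic points of `T` are dense in `Λ` and `R` is a closed graph over `Λ` which is
invariant under `F`, then the periodic points of `F` are dense in `R`. -/
theorem per_dense {B : Type*} [MetricSpace B] [CompactSpace B] (T : B ≃ₜ B)
    (F : (B × Circ) ≃ₜ (B × Circ)) (hF : ∀ z, (F z).1 = T z.1) (Λ : Set B)
    (hΛ : Λ ⊆ closure (Per T)) (hP : Per T ⊆ Λ) (R : Set (B × Circ)) (hR : IsClosed R)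
    (hsub : ∀ z ∈ R, z.1 ∈ Λ) (hinv : ∀ z, F z ∈ R ↔ z ∈ R) (hgr : ∀ x ∈ Λ, ∃! y, (x, y) ∈ R) :
    R ⊆ closure (Per F) := by
  intro z hz
  have hx := hΛ (hsub z hz)
  rw [mem_closure_iff_seq_limit] at hx
  obtain ⟨xs, hxs, hlim⟩ := hx
  have hex : ∀ n, ∃ y, (xs n, y) ∈ R := fun n => (hgr _ (hP (hxs n))).exists
  choose ys hys using hex
  -- the points are periodic
  have hiter : ∀ (n : ℕ) (w : B × Circ), (F^[n] w).1 = T^[n] w.1 := by
    intro n
    induction n with
    | zero => intro w; rfl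
    | succ n ih =>
      intro w
      rw [Function.iterate_succ_apply', Function.iterate_succ_apply', hF, ih]
  have hiR : ∀ (n : ℕ) (w : B × Circ), w ∈ R → F^[n] w ∈ R := by
    intro n
    induction n with
    | zero => intro w hw; exact hw
    | succ n ih =>
      intro w hw
      rw [Function.iterate_succ_apply']
      exact (hinv _).2 (ih w hw)
  have hper : ∀ n, (xs n, ys n) ∈ Per F := by
    intro n
    obtain ⟨k, hk, hkx⟩ := hxs n
    refine ⟨k, hk, ?_⟩
    have h1 : F^[k] (xs n, ys n) ∈ R := hiR k _ (hys n)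
    have h2 : (F^[k] (xs n, ys n)).1 = xs n := by rw [hiter]; exact hkx
    have h3 : (xs n, (F^[k] (xs n, ys n)).2) ∈ R := by
      have : F^[k] (xs n, ys n) = (xs n, (F^[k] (xs n, ys n)).2) := Prod.ext h2 rfl
      rwa [this] at h1
    have h4 := (hgr _ (hP (hxs n))).unique h3 (hys n)
    exact Prod.ext h2 h4
  obtain ⟨y, φ, hφ, hy⟩ := CompactSpace.tendsto_subseq ys
  have hlim2 : Tendsto (fun n => (xs (φ n), ys (φ n))) atTop (𝓝 (z.1, y)) :=
    (hlim.comp hφ.tendsto_atTop).prodMk_nhds hy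
  have hmem : (z.1, y) ∈ R := hR.mem_of_tendsto hlim2 (Eventually.of_forall fun n => hys _)
  have heq : y = z.2 := (hgr _ (hsub z hz)).unique hmem hz
  rw [heq] at hlim2
  exact mem_closure_of_tendsto hlim2 (Eventually.of_forall fun n => hper _)

end Pool.Agent.H728R2.OS
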