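import Pool.Agent.H728R2.OS.Base

open Set Filter Topology Complex Matrix
open scoped ComplexConjugate

namespace Pool.Agent.H728R2.OS

private theorem circ_infinite : Infinite Circ := by
  have h : Function.Injective (fun x : Set.Ico (0 : ℝ) (0 + 1) => ((x : ℝ) : UnitAddCircle)) := by
    intro x y hxy
    have := (AddCircle.equivIco (1 : ℝ) 0).symm.injective (a₁ := x) (a₂ := y) hxy
    exact this
  have h2 : Infinite (Set.Ico (0 : ℝ) (0 + 1)) := by
    rw [Set.infinite_coe_iff]
    exact Set.Ico_infinite (by norm_num)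
  exact Infinite.of_injective _ h

private theorem pr_add' (a b : ℕ → ℂ) (θ : ℂ) (m n : ℕ) :
    pr a b θ (m + n) = pr (fun j => a (m + j)) (fun j => b (m + j)) θ n * pr a b θ m := by
  induction n with
  | zero => simp [pr]
  | succ n ih =>
    rw [← add_assoc]
    simp only [pr]
    rw [ih]
    simp only [Matrix.mul_assoc]

private theorem pr_period (a b : ℕ → ℂ) (θ : ℂ) (k : ℕ) (ha : ∀ j, a (k + j) = a j)
    (hb : ∀ j, b (k + j) = b j) (q : ℕ) : pr a b θ (k * q) = (pr a b θ k) ^ q := by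
  induction q with
  | zero => simp [pr]
  | succ q ih =>
    have : k * (q + 1) = k + k * q := by ring
    rw [this, pr_add' a b θ k (k * q)]
    have h1 : (fun j => a (k + j)) = a := funext ha
    have h2 : (fun j => b (k + j)) = b := funext hb
    rw [h1, h2, ih, pow_succ]

private theorem norm_e (y : Circ) : ‖e y‖ = 1 := by
  unfold e
  simp

private theorem fib_finite (hinj : Function.Injective e) (α β : ℂ)
    (hαβ : ‖α‖ ^ 2 - ‖β‖ ^ 2 = 1) (h2 : (su α β).trace ≠ 2) (h2' : (su α β).trace ≠ -2) :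
    {y : Circ | e y = (α * e y + β) / (conj β * e y + conj α)}.Finite := by
  classical
  let p : Polynomial ℂ := Polynomial.C (conj β) * Polynomial.X ^ 2 +
    Polynomial.C (conj α - α) * Polynomial.X + Polynomial.C (-β)
  have hp : p ≠ 0 := by
    intro h0
    have hc0 : p.coeff 0 = 0 := by rw [h0]; simp
    have hc1 : p.coeff 1 = 0 := by rw [h0]; simp
    have e0 : -β = 0 := by
      have : p.coeff 0 = -β := by
        simp [p, Polynomial.coeff_C, Polynomial.coeff_X_pow, Polynomial.coeff_X]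
      rw [this] at hc0
      exact hc0
    have e1 : conj α - α = 0 := by
      have : p.coeff 1 = conj α - α := by
        simp [p, Polynomial.coeff_C, Polynomial.coeff_X_pow, Polynomial.coeff_X]
      rw [this] at hc1
      exact hc1
    have hb : β = 0 := by simpa using e0
    have ha : conj α = α := by linear_combination e1
    obtain ⟨r, hr⟩ := Complex.conj_eq_iff_real.1 ha
    rw [hb, hr] at hαβ
    simp only [norm_zero, Complex.norm_real, Real.norm_eq_abs, sq_abs] at hαβ
    have hr2 : (r - 1) * (r + 1) = 0 := by nlinarith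
    rcases mul_eq_zero.1 hr2 with h | h
    · have : r = 1 := by linarith
      apply h2
      rw [hr, this]
      simp [su, Matrix.trace_fin_two]
      norm_num
    · have : r = -1 := by linarith
      apply h2'
      rw [hr, this]
      simp [su, Matrix.trace_fin_two]
      norm_num
  have hfin : {z : ℂ | p.IsRoot z}.Finite := Polynomial.finite_setOf_isRoot hp
  refine Set.Finite.subset (hfin.preimage (hinj.injOn)) ?_
  intro y hy
  simp only [Set.mem_setOf_eq, Set.mem_preimage] at hy ⊢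
  have hden : conj β * e y + conj α ≠ 0 := by
    intro h
    have h1 : conj α = -(conj β * e y) := by linear_combination h
    have h2 : ‖α‖ = ‖β‖ := by
      have := congrArg norm h1
      simpa [norm_e] using this
    rw [h2] at hαβ
    simp at hαβ
  have h3 : e y * (conj β * e y + conj α) = α * e y + β := by
    rw [eq_div_iff hden] at hy
    exact hy
  simp only [Polynomial.IsRoot.def, p, Polynomial.eval_add, Polynomial.eval_mul,
    Polynomial.eval_C, Polynomial.eval_pow, Polynomial.eval_X]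
  linear_combination h3

/-- If the number of periodic points does not change under small rotations of the fibres then no
periodic product has its trace in `[-2, 2]`. The analytic facts are hypotheses. -/
theorem no_elliptic {B : Type*} [TopologicalSpace B] (T : B ≃ₜ B)
    (f : (B × Circ) ≃ₜ (B × Circ)) (a b : B → ℂ)
    (hab : ∀ x, ‖a x‖ ^ 2 - ‖b x‖ ^ 2 = 1)
    (hinj : Function.Injective e)
    (hreal : ∀ (x : B) (θ : ℝ) (n : ℕ), ∃ α β : ℂ, ‖α‖ ^ 2 - ‖β‖ ^ 2 = 1 ∧
      pr (fun j => a (T^[j] x)) (fun j => b (T^[j] x)) θ n = su α β)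
    (hiter : ∀ (θ : ℝ) (n : ℕ) (x : B) (y : Circ) (α β : ℂ), ‖α‖ ^ 2 - ‖β‖ ^ 2 = 1 →
      pr (fun j => a (T^[j] x)) (fun j => b (T^[j] x)) θ n = su α β →
      ((f.trans (rotC θ))^[n] (x, y)).1 = T^[n] x ∧
      e ((f.trans (rotC θ))^[n] (x, y)).2 = (α * e y + β) / (conj β * e y + conj α))
    (hTfin : ∀ m : ℕ, 0 < m → {x | T^[m] x = x}.Finite)
    (ε : ℝ) (hε : 0 < ε)
    (hcount : ∀ θ : ℝ, |θ| < ε → ∀ m : ℕ, 0 < m →
      ({z | f^[m] z = z}.Finite ↔ {z | (f.trans (rotC θ))^[m] z = z}.Finite))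
    (hord : ∀ (x : B) (k : ℕ), 0 < k → ∀ (θ₀ t₀ : ℝ), |t₀| ≤ 2 →
      (pr (fun j => a (T^[j] x)) (fun j => b (T^[j] x)) θ₀ k).trace = t₀ → ∀ δ : ℝ, 0 < δ →
      ∃ θ₁ : ℝ, |θ₁ - θ₀| < δ ∧ ∃ q : ℕ, 0 < q ∧
        (pr (fun j => a (T^[j] x)) (fun j => b (T^[j] x)) θ₁ k) ^ q = 1)
    (hpar : ∀ (x : B) (k : ℕ), 0 < k → {θ : ℝ |
      (pr (fun j => a (T^[j] x)) (fun j => b (T^[j] x)) θ k).trace = 2 ∨
      (pr (fun j => a (T^[j] x)) (fun j => b (T^[j] x)) θ k).trace = -2}.Countable)
    (x : B) (k : ℕ) (hk : 0 < k) (hx : T^[k] x = x) (θ : ℝ) (hθ : |θ| < ε) (t : ℝ)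
    (ht : |t| ≤ 2) :
    (pr (fun j => a (T^[j] x)) (fun j => b (T^[j] x)) θ k).trace ≠ t := by
  intro htr
  obtain ⟨θ₁, hθ₁, q, hq, hpq⟩ := hord x k hk θ t ht htr (ε - |θ|) (by linarith)
  have hθ₁ε : |θ₁| < ε := by
    have h1 : |θ₁| ≤ |θ₁ - θ| + |θ| := by
      have := abs_add_le (θ₁ - θ) θ
      simpa using this
    linarith
  have hm : 0 < k * q := Nat.mul_pos hk hq
  have hshift : ∀ j, T^[k + j] x = T^[j] x := by
    intro j
    rw [add_comm, Function.iterate_add_apply, hx]
  have hprm : pr (fun j => a (T^[j] x)) (fun j => b (T^[j] x)) θ₁ (k * q) = su 1 0 := by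
    rw [pr_period _ _ _ k (fun j => by simp only [hshift]) (fun j => by simp only [hshift]) q, hpq]
    ext i j
    fin_cases i <;> fin_cases j <;> simp [su]
  have hfix : ∀ y : Circ, (f.trans (rotC θ₁))^[k * q] (x, y) = (x, y) := by
    intro y
    obtain ⟨h1, h2⟩ := hiter θ₁ (k * q) x y 1 0 (by simp) hprm
    apply Prod.ext
    · rw [h1]
      have hper : Function.IsPeriodicPt T k x := hx
      exact (hper.mul_const q)
    · apply hinj
      rw [h2]
      simp
  have hinf : {z | (f.trans (rotC θ₁))^[k * q] z = z}.Infinite := by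
    have := circ_infinite
    have h1 : (Set.range (fun y : Circ => (x, y))).Infinite :=
      Set.infinite_range_of_injective (fun y y' h => by simpa using h)
    refine h1.mono ?_
    rintro _ ⟨y, rfl⟩
    exact hfix y
  have hfinf : ¬ {z | f^[k * q] z = z}.Finite := by
    intro h
    exact hinf ((hcount θ₁ hθ₁ε (k * q) hm).1 h)
  -- the bad parameters
  have hbad : (⋃ x' ∈ {x' | T^[k * q] x' = x'}, {θ : ℝ |
      (pr (fun j => a (T^[j] x')) (fun j => b (T^[j] x')) θ (k * q)).trace = 2 ∨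
      (pr (fun j => a (T^[j] x')) (fun j => b (T^[j] x')) θ (k * q)).trace = -2}).Countable :=
    Set.Countable.biUnion (hTfin (k * q) hm).countable (fun x' _ => hpar x' (k * q) hm)
  obtain ⟨θ₂, hθ₂, hθ₂b⟩ : ∃ θ₂ ∈ Set.Ioo (-ε) ε, θ₂ ∉ (⋃ x' ∈ {x' | T^[k * q] x' = x'}, {θ : ℝ |
      (pr (fun j => a (T^[j] x')) (fun j => b (T^[j] x')) θ (k * q)).trace = 2 ∨
      (pr (fun j => a (T^[j] x')) (fun j => b (T^[j] x')) θ (k * q)).trace = -2}) := by
    by_contra hcon
    push Not at hcon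
    have h1 : (Set.Ioo (-ε) ε).Countable := hbad.mono hcon
    have h2 : ¬ (Set.Ioo (-ε) ε).Countable := by
      rw [← Cardinal.le_aleph0_iff_set_countable, Cardinal.mk_Ioo_real (by linarith), not_le]
      exact Cardinal.aleph0_lt_continuum
    exact h2 h1
  have hθ₂ε : |θ₂| < ε := abs_lt.2 ⟨hθ₂.1, hθ₂.2⟩
  have hfin2 : {z | (f.trans (rotC θ₂))^[k * q] z = z}.Finite := by
    have hsub : {z | (f.trans (rotC θ₂))^[k * q] z = z} ⊆
        ⋃ x' ∈ {x' | T^[k * q] x' = x'},
          (fun y : Circ => (x', y)) '' {y | (f.trans (rotC θ₂))^[k * q] (x', y) = (x', y)} := by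
      rintro ⟨x', y⟩ hz
      have hz' : (f.trans (rotC θ₂))^[k * q] (x', y) = (x', y) := hz
      obtain ⟨α, β, hαβ, hpr⟩ := hreal x' θ₂ (k * q)
      obtain ⟨h1, h2⟩ := hiter θ₂ (k * q) x' y α β hαβ hpr
      have hx' : T^[k * q] x' = x' := by
        rw [← h1, hz']
      simp only [Set.mem_iUnion]
      exact ⟨x', hx', ⟨y, hz', rfl⟩⟩
    refine Set.Finite.subset ?_ hsub
    refine Set.Finite.biUnion (hTfin (k * q) hm) (fun x' hx' => ?_)
    apply Set.Finite.image
    obtain ⟨α, β, hαβ, hpr⟩ := hreal x' θ₂ (k * q)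
    have hnb : ¬ ((pr (fun j => a (T^[j] x')) (fun j => b (T^[j] x')) θ₂ (k * q)).trace = 2 ∨
      (pr (fun j => a (T^[j] x')) (fun j => b (T^[j] x')) θ₂ (k * q)).trace = -2) := by
      intro hh
      apply hθ₂b
      simp only [Set.mem_iUnion]
      exact ⟨x', hx', hh⟩
    rw [not_or, hpr] at hnb
    refine Set.Finite.subset (fib_finite hinj α β hαβ hnb.1 hnb.2) ?_
    intro y hy
    have hy' : (f.trans (rotC θ₂))^[k * q] (x', y) = (x', y) := hy
    obtain ⟨h1, h2⟩ := hiter θ₂ (k * q) x' y α β hαβ hpr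
    rw [hy'] at h2
    exact h2
  exact hfinf ((hcount θ₂ hθ₂ε (k * q) hm).2 hfin2)

end Pool.Agent.H728R2.OS
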