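import Pool.Agent.H728R2.OS.Base

open Set Filter Topology Complex Matrix
open scoped ComplexConjugate

namespace Pool.Agent.H728R2.OS

private theorem grow_pos {Z : Type*} (f : Z → Z) (φ : Z → ℝ) (h : ∀ z, 0 < φ z) (n : ℕ) (z : Z) :
    0 < Phi f φ n z := Finset.prod_pos fun _ _ => h _

private theorem grow_add {Z : Type*} (f : Z → Z) (φ : Z → ℝ) (i j : ℕ) (z : Z) :
    Phi f φ (i + j) z = Phi f φ i z * Phi f φ j (f^[i] z) := by
  unfold Phi
  rw [Finset.prod_range_add]
  congr 1
  apply Finset.prod_congr rfl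
  intro x _
  rw [← Function.iterate_add_apply, add_comm]

private theorem grow_mem {B : Type*} [MetricSpace B] [CompactSpace B] (D : TopData B) (n : ℕ)
    (z : B × Circ) : (D.F^[n] z).1 ∈ D.Λ ↔ z.1 ∈ D.Λ := by
  induction n with
  | zero => rfl
  | succ n ih =>
    rw [Function.iterate_succ_apply', D.fst_F, D.Λ_inv, ih]

/-- Growth in the future or in the past. -/
theorem exists_growth {B : Type*} [MetricSpace B] [CompactSpace B] (D : TopData B) :
    ∃ N : ℕ, 0 < N ∧ ∀ z : B × Circ, z.1 ∈ D.Λ → 4 ≤ D.up N z ∨ 4 ≤ D.dn N z := by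
  obtain ⟨N, hN⟩ := exists_nat_ge (max (16 * D.K ^ 2) 1)
  have hN1 : (1 : ℝ) ≤ N := (le_max_right _ _).trans hN
  have hN2 : 16 * D.K ^ 2 ≤ N := (le_max_left _ _).trans hN
  have hK := D.K_pos
  refine ⟨N, by exact_mod_cast (lt_of_lt_of_le one_pos hN1), fun z hz => ?_⟩
  by_contra hcon
  rw [not_or, not_le, not_le] at hcon
  obtain ⟨h1, h2⟩ := hcon
  unfold TopData.up at h1
  unfold TopData.dn at h2
  set z0 := D.F.symm^[N] z with hz0
  have hFz : D.F^[N] z0 = z := by
    rw [hz0]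
    exact (Function.LeftInverse.iterate (f := D.F.symm) (g := D.F)
      (fun x => D.F.apply_symm_apply x) N) z
  have hz0m : z0.1 ∈ D.Λ := by
    rw [← grow_mem D N z0, hFz]
    exact hz
  set P := Phi D.F D.φ N z0 with hP
  have hPpos : 0 < P := grow_pos _ _ D.φ_pos _ _
  -- normalised products
  obtain ⟨u, hu⟩ : ∃ u : ℕ → ℝ, ∀ j, u j = Phi D.F D.φ j z0 / P := ⟨_, fun _ => rfl⟩
  have upos : ∀ j, 0 < u j := fun j => by
    rw [hu]; exact div_pos (grow_pos _ _ D.φ_pos _ _) hPpos
  have uN : u N = 1 := by rw [hu, ← hP, div_self hPpos.ne']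
  have u0 : u 0 < 4 := by
    rw [hu]
    have : Phi D.F D.φ 0 z0 = 1 := by simp [Phi]
    rw [this, one_div]
    exact h2
  have u2N : u (N + N) < 4 := by
    rw [hu, grow_add, hFz, ← hP, mul_div_cancel_left₀ _ hPpos.ne']
    exact h1
  have uadd : ∀ i j, u (i + j) = u i * Phi D.F D.φ j (D.F^[i] z0) := by
    intro i j
    rw [hu, hu, grow_add]
    ring
  -- first inequality
  have s1 : ∑ j ∈ Finset.range (N + N + 1), u j < 8 * D.K := by
    have h3 := D.sum_le z0 hz0m (N + N)
    have h4 : ∑ j ∈ Finset.range (N + N + 1), u j =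
        (∑ j ∈ Finset.range (N + N + 1), Phi D.F D.φ j z0) / P := by
      rw [Finset.sum_div]
      exact Finset.sum_congr rfl fun j _ => hu j
    have h5 : D.K * (1 + Phi D.F D.φ (N + N) z0) / P = D.K * (u 0 + u (N + N)) := by
      rw [hu, hu]
      have : Phi D.F D.φ 0 z0 = 1 := by simp [Phi]
      rw [this]
      ring
    rw [h4]
    calc _ ≤ D.K * (1 + Phi D.F D.φ (N + N) z0) / P :=
          div_le_div_of_nonneg_right h3 hPpos.le
      _ = D.K * (u 0 + u (N + N)) := h5
      _ < D.K * 8 := mul_lt_mul_of_pos_left (by linarith) hK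
      _ = 8 * D.K := by ring
  have hNp : (0 : ℝ) < (N : ℝ) + 1 := by linarith
  -- a small value on the left
  obtain ⟨j1, hj1, hj1u⟩ : ∃ j1 ≤ N, u j1 ≤ 8 * D.K / (N + 1) := by
    by_contra hc
    push Not at hc
    have h3 : ∑ j ∈ Finset.range (N + 1), u j ≤ ∑ j ∈ Finset.range (N + N + 1), u j := by
      apply Finset.sum_le_sum_of_subset_of_nonneg
      · intro x hx
        rw [Finset.mem_range] at hx ⊢
        omega
      · intro j _ _
        exact (upos j).le
    have h4 : ∑ _j ∈ Finset.range (N + 1), 8 * D.K / ((N : ℝ) + 1) ≤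
        ∑ j ∈ Finset.range (N + 1), u j := by
      apply Finset.sum_le_sum
      intro j hj
      rw [Finset.mem_range] at hj
      exact (hc j (by omega)).le
    rw [Finset.sum_const, Finset.card_range, nsmul_eq_mul] at h4
    push_cast at h4
    rw [mul_div_cancel₀ _ hNp.ne'] at h4
    linarith
  -- a small value on the right
  obtain ⟨j2, hj2, hj2', hj2u⟩ : ∃ j2, N ≤ j2 ∧ j2 ≤ N + N ∧ u j2 ≤ 8 * D.K / (N + 1) := by
    by_contra hc
    push Not at hc
    have h3 : ∑ j ∈ Finset.Icc N (N + N), u j ≤ ∑ j ∈ Finset.range (N + N + 1), u j := by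
      apply Finset.sum_le_sum_of_subset_of_nonneg
      · intro x hx
        rw [Finset.mem_Icc] at hx
        rw [Finset.mem_range]
        omega
      · intro j _ _
        exact (upos j).le
    have h4 : ∑ _j ∈ Finset.Icc N (N + N), 8 * D.K / ((N : ℝ) + 1) ≤
        ∑ j ∈ Finset.Icc N (N + N), u j := by
      apply Finset.sum_le_sum
      intro j hj
      rw [Finset.mem_Icc] at hj
      exact (hc j hj.1 hj.2).le
    rw [Finset.sum_const, Nat.card_Icc, nsmul_eq_mul] at h4
    have h5 : N + N + 1 - N = N + 1 := by omega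
    rw [h5] at h4
    push_cast at h4
    rw [mul_div_cancel₀ _ hNp.ne'] at h4
    linarith
  -- second inequality
  have hm1 : (D.F^[j1] z0).1 ∈ D.Λ := (grow_mem D j1 z0).2 hz0m
  have h6 := D.sum_le _ hm1 (j2 - j1)
  have h7 : ∑ i ∈ Finset.range (j2 - j1 + 1), u (j1 + i) ≤ D.K * (u j1 + u j2) := by
    have h8 : ∑ i ∈ Finset.range (j2 - j1 + 1), u (j1 + i) =
        u j1 * ∑ i ∈ Finset.range (j2 - j1 + 1), Phi D.F D.φ i (D.F^[j1] z0) := by
      rw [Finset.mul_sum]
      exact Finset.sum_congr rfl fun i _ => uadd j1 i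
    have h9 : u j2 = u j1 * Phi D.F D.φ (j2 - j1) (D.F^[j1] z0) := by
      rw [← uadd]
      congr 1
      omega
    rw [h8, h9]
    calc _ ≤ u j1 * (D.K * (1 + Phi D.F D.φ (j2 - j1) (D.F^[j1] z0))) :=
          mul_le_mul_of_nonneg_left h6 (upos j1).le
      _ = _ := by ring
  have h10 : u N ≤ ∑ i ∈ Finset.range (j2 - j1 + 1), u (j1 + i) := by
    have : u N = u (j1 + (N - j1)) := by congr 1; omega
    rw [this]
    apply Finset.single_le_sum (f := fun i => u (j1 + i)) (fun i _ => (upos _).le)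
    rw [Finset.mem_range]
    omega
  have h11 : D.K * (u j1 + u j2) ≤ D.K * (8 * D.K / (N + 1) + 8 * D.K / (N + 1)) :=
    mul_le_mul_of_nonneg_left (by linarith) hK.le
  have h12 : D.K * (8 * D.K / ((N : ℝ) + 1) + 8 * D.K / (N + 1)) = 16 * D.K ^ 2 / (N + 1) := by
    ring
  have h13 : 16 * D.K ^ 2 / ((N : ℝ) + 1) < 1 := by
    rw [div_lt_one hNp]
    linarith
  linarith

end Pool.Agent.H728R2.OS
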