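import Pool.Agent.H728R2.OS.Base

open Set Filter Topology Complex Matrix
open scoped ComplexConjugate

namespace Pool.Agent.H728R2.OS

namespace LIMaux

theorem norm_e (y : Circ) : ‖e y‖ = 1 := by
  unfold e
  exact Circle.norm_coe _

theorem rot_zero : rot 0 = 1 := by
  unfold rot
  ext i j
  fin_cases i <;> fin_cases j <;> simp

/-- the orbit of the vector -/
noncomputable def zt (a b : ℕ → ℂ) (ζ : ℂ) : ℕ → ℂ
  | 0 => ζ
  | n + 1 => a n * zt a b ζ n + b n * conj (zt a b ζ n)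

theorem pr_mulVec (a b : ℕ → ℂ) (ζ : ℂ) (n : ℕ) :
    pr a b 0 n *ᵥ ![ζ, conj ζ] = ![zt a b ζ n, conj (zt a b ζ n)] := by
  induction n with
  | zero =>
    show (1 : Matrix (Fin 2) (Fin 2) ℂ) *ᵥ _ = _
    rw [one_mulVec]
    rfl
  | succ n ih =>
    show (rot 0 * su (a n) (b n) * pr a b 0 n) *ᵥ _ = _
    rw [rot_zero, one_mul, ← mulVec_mulVec, ih]
    unfold su
    funext i
    fin_cases i
    · simp [Matrix.mulVec, dotProduct, Fin.sum_univ_two, zt]
    · simp [Matrix.mulVec, dotProduct, Fin.sum_univ_two, zt]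
      ring

theorem nsq_zt (a b : ℕ → ℂ) (ζ : ℂ) (n : ℕ) :
    nsq (pr a b 0 n *ᵥ ![ζ, conj ζ]) = 2 * ‖zt a b ζ n‖ ^ 2 := by
  rw [pr_mulVec]
  unfold nsq
  simp
  ring

theorem den_ne {a b w : ℂ} (hab : ‖a‖ ^ 2 - ‖b‖ ^ 2 = 1) (hw : ‖w‖ = 1) :
    conj b * w + conj a ≠ 0 := by
  intro h
  have h1 : conj a = -(conj b * w) := by
    rw [eq_neg_iff_add_eq_zero, add_comm]
    exact h
  have h2 : ‖a‖ = ‖b‖ := by
    have := congrArg norm h1
    rw [norm_neg, norm_mul, hw, mul_one, RCLike.norm_conj, RCLike.norm_conj] at this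
    exact this
  rw [h2] at hab
  linarith

end LIMaux

open LIMaux in
theorem LIMaux.key {B : Type*} [MetricSpace B] (T : B ≃ₜ B) (f : (B × Circ) ≃ₜ (B × Circ))
    (hT : ∀ x y, (f (x, y)).1 = T x) (a b : B → ℂ) (hab : ∀ x, ‖a x‖ ^ 2 - ‖b x‖ ^ 2 = 1)
    (hf : Mob f a b) (x : B) (y : Circ) (ζ : ℂ) (hζ : ζ ^ 2 = e y) (n : ℕ) :
    (f^[n] (x, y)).1 = T^[n] x ∧
    zt (fun j => a (T^[j] x)) (fun j => b (T^[j] x)) ζ n =
      e (f^[n] (x, y)).2 * conj (zt (fun j => a (T^[j] x)) (fun j => b (T^[j] x)) ζ n) ∧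
    ‖zt (fun j => a (T^[j] x)) (fun j => b (T^[j] x)) ζ n‖ ^ 2 = Phi f (wt a b) n (x, y) := by
  have hn1 : ‖ζ‖ ^ 2 = 1 := by
    rw [← norm_pow, hζ, norm_e]
  induction n with
  | zero =>
    refine ⟨rfl, ?_, ?_⟩
    · show ζ = e y * conj ζ
      rw [← hζ, sq, mul_assoc, Complex.mul_conj, Complex.normSq_eq_norm_sq, hn1]
      simp
    · show ‖ζ‖ ^ 2 = _
      rw [hn1]
      simp [Phi]
  | succ n ih =>
    obtain ⟨h1, h2, h3⟩ := ih
    obtain ⟨w, hw⟩ : ∃ w, w = zt (fun j => a (T^[j] x)) (fun j => b (T^[j] x)) ζ n := ⟨_, rfl⟩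
    obtain ⟨p, hp⟩ : ∃ p, p = f^[n] (x, y) := ⟨_, rfl⟩
    rw [← hw, ← hp] at h2
    rw [← hw] at h3
    rw [← hp] at h1
    have hp' : p = (T^[n] x, p.2) := Prod.ext h1 rfl
    have e1 : f^[n + 1] (x, y) = f p := by rw [Function.iterate_succ_apply', hp]
    have e2 : T^[n + 1] x = T (T^[n] x) := by rw [Function.iterate_succ_apply']
    have e3 : zt (fun j => a (T^[j] x)) (fun j => b (T^[j] x)) ζ (n + 1) =
        a (T^[n] x) * w + b (T^[n] x) * conj w := by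
      rw [hw]; rfl
    have hd := den_ne (hab (T^[n] x)) (norm_e p.2)
    have hm : e (f p).2 = (a (T^[n] x) * e p.2 + b (T^[n] x)) /
        (conj (b (T^[n] x)) * e p.2 + conj (a (T^[n] x))) := by
      have := hf (T^[n] x) p.2
      rwa [← hp'] at this
    have e4 : conj (a (T^[n] x) * w + b (T^[n] x) * conj w) =
        conj w * (conj (b (T^[n] x)) * e p.2 + conj (a (T^[n] x))) := by
      rw [map_add, map_mul, map_mul, Complex.conj_conj]
      linear_combination (conj (b (T^[n] x))) * h2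
    refine ⟨?_, ?_, ?_⟩
    · rw [e1, e2, hp', hT]
    · rw [e1, e3, e4, hm, div_mul_eq_mul_div, eq_div_iff hd]
      linear_combination (a (T^[n] x) *
        (conj (b (T^[n] x)) * e p.2 + conj (a (T^[n] x)))) * h2
    · rw [e3]
      have e5 : ‖a (T^[n] x) * w + b (T^[n] x) * conj w‖ =
          ‖w‖ * ‖conj (b (T^[n] x)) * e p.2 + conj (a (T^[n] x))‖ := by
        rw [← RCLike.norm_conj (a (T^[n] x) * w + b (T^[n] x) * conj w), e4, norm_mul,
          RCLike.norm_conj]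
      rw [e5, mul_pow, h3]
      unfold Phi
      rw [Finset.prod_range_succ, ← hp]
      unfold wt
      rw [h1]

open LIMaux in
/-- The summed inequality over the closure of the periodic points. -/
theorem sum_le_closure {B : Type*} [MetricSpace B] (T : B ≃ₜ B) (f : (B × Circ) ≃ₜ (B × Circ))
    (hT : ∀ x y, (f (x, y)).1 = T x) (a b : B → ℂ) (hab : ∀ x, ‖a x‖ ^ 2 - ‖b x‖ ^ 2 = 1)
    (hf : Mob f a b) (hc : Continuous (wt a b)) (ε : ℝ) (hε : 0 < ε)
    (hsum : ∀ (x : B) (k : ℕ), 0 < k → T^[k] x = x → ∀ (n : ℕ) (v : Fin 2 → ℂ),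
      ε ^ 2 * ∑ j ∈ Finset.range (n + 1),
        nsq (pr (fun j => a (T^[j] x)) (fun j => b (T^[j] x)) 0 j *ᵥ v) ≤
      nsq v + nsq (pr (fun j => a (T^[j] x)) (fun j => b (T^[j] x)) 0 n *ᵥ v))
    (z : B × Circ) (hz : z.1 ∈ closure (Per T)) (n : ℕ) :
    ∑ j ∈ Finset.range (n + 1), Phi f (wt a b) j z ≤ (ε ^ 2)⁻¹ * (1 + Phi f (wt a b) n z) := by
  have hcont : ∀ j, Continuous (Phi f (wt a b) j) := by
    intro j
    unfold Phi
    exact continuous_finsetProd _ fun i _ => hc.comp (f.continuous.iterate i)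
  have hcl : IsClosed {z : B × Circ | ∑ j ∈ Finset.range (n + 1), Phi f (wt a b) j z ≤
      (ε ^ 2)⁻¹ * (1 + Phi f (wt a b) n z)} := by
    apply isClosed_le
    · exact continuous_finsetSum _ fun j _ => hcont j
    · exact continuous_const.mul (continuous_const.add (hcont n))
  have hsub : (Per T) ×ˢ (univ : Set Circ) ⊆ {z : B × Circ |
      ∑ j ∈ Finset.range (n + 1), Phi f (wt a b) j z ≤
      (ε ^ 2)⁻¹ * (1 + Phi f (wt a b) n z)} := by
    rintro ⟨x, y⟩ ⟨⟨k, hk, hx⟩, -⟩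
    obtain ⟨ζ, hζ⟩ := IsAlgClosed.exists_pow_nat_eq (e y) (n := 2) (by norm_num)
    have hk' := fun j => (LIMaux.key T f hT a b hab hf x y ζ hζ j).2.2
    have h1 := hsum x k hk hx n ![ζ, conj ζ]
    have h0 : nsq ![ζ, conj ζ] = 2 := by
      have hn1 : ‖ζ‖ ^ 2 = 1 := by rw [← norm_pow, hζ, norm_e]
      unfold nsq
      simp only [cons_val_zero, cons_val_one, RCLike.norm_conj]
      rw [hn1]
      norm_num
    rw [h0] at h1
    simp only [nsq_zt, hk'] at h1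
    rw [← Finset.mul_sum] at h1
    show ∑ j ∈ Finset.range (n + 1), Phi f (wt a b) j (x, y) ≤
      (ε ^ 2)⁻¹ * (1 + Phi f (wt a b) n (x, y))
    have hε2 : 0 < ε ^ 2 := by positivity
    rw [inv_mul_eq_div, le_div_iff₀ hε2]
    linarith
  have hz' : z ∈ closure ((Per T) ×ˢ (univ : Set Circ)) := by
    rw [closure_prod_eq, closure_univ]
    exact ⟨hz, mem_univ _⟩
  exact closure_minimal hsub hcl hz'

end Pool.Agent.H728R2.OS
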