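import Pool.Agent.H728R2.OS.Base

open Set Filter Topology Complex Matrix
open scoped ComplexConjugate

namespace Pool.Agent.H728R2.OS

private lemma mr_norm_e (y : Circ) : ‖e y‖ = 1 := by
  unfold e
  exact Circle.norm_coe _

private lemma mr_surj (u : ℂ) (hu : ‖u‖ = 1) : ∃ y : Circ, e y = u := by
  obtain ⟨y, hy⟩ := (AddCircle.homeomorphCircle (one_ne_zero' ℝ)).surjective
    (⟨u, mem_sphere_zero_iff_norm.2 hu⟩ : Circle)
  refine ⟨y, ?_⟩
  unfold e
  rw [← AddCircle.homeomorphCircle_apply (one_ne_zero' ℝ), hy]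

private lemma mr_den (a b : ℂ) (h : ‖a‖ ^ 2 - ‖b‖ ^ 2 = 1) (u : ℂ) (hu : ‖u‖ = 1) :
    conj b * u + conj a ≠ 0 := by
  intro h0
  have h1 : conj a = -(conj b * u) := by linear_combination h0
  have h2 : ‖a‖ = ‖b‖ := by
    have := congrArg norm h1
    rwa [Complex.norm_conj, norm_neg, norm_mul, Complex.norm_conj, hu, mul_one] at this
  rw [h2] at h
  norm_num at h

private lemma mr_sq (a : ℂ) : (((‖a‖ ^ 2 : ℝ)) : ℂ) = a * conj a := by
  rw [Complex.mul_conj, Complex.normSq_eq_norm_sq]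

private lemma mr_c (a b : ℂ) (h : ‖a‖ ^ 2 - ‖b‖ ^ 2 = 1) : a * conj a - b * conj b = 1 := by
  rw [← mr_sq, ← mr_sq, ← Complex.ofReal_sub, h, Complex.ofReal_one]

private lemma mr_r (a b : ℂ) (h : a * conj a - b * conj b = 1) : ‖a‖ ^ 2 - ‖b‖ ^ 2 = 1 := by
  rw [← mr_sq, ← mr_sq, ← Complex.ofReal_sub] at h
  exact_mod_cast h

/-- The Moebius relation for the distances of two points of a fibre. -/
theorem mob_rel {B : Type*} (f : B × Circ → B × Circ) (a b : B → ℂ)
    (hab : ∀ x, ‖a x‖ ^ 2 - ‖b x‖ ^ 2 = 1) (hf : Mob f a b) (x : B) (y y' : Circ) :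
    ‖e (f (x, y)).2 - e (f (x, y')).2‖ ^ 2 * (wt a b (x, y) * wt a b (x, y')) =
      ‖e y - e y'‖ ^ 2 := by
  have hD := mr_den (a x) (b x) (hab x) (e y) (mr_norm_e y)
  have hD' := mr_den (a x) (b x) (hab x) (e y') (mr_norm_e y')
  have hc := mr_c _ _ (hab x)
  rw [hf x y, hf x y']
  unfold wt
  show _ * (‖conj (b x) * e y + conj (a x)‖ ^ 2 * ‖conj (b x) * e y' + conj (a x)‖ ^ 2) = _
  rw [← mul_pow, ← mul_pow, ← norm_mul, ← norm_mul]
  congr 2
  have hN := div_mul_cancel₀ (a x * e y + b x) hD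
  have hN' := div_mul_cancel₀ (a x * e y' + b x) hD'
  linear_combination (conj (b x) * e y' + conj (a x)) * hN -
    (conj (b x) * e y + conj (a x)) * hN' + (e y - e y') * hc

private lemma mr_iter {B : Type*} (T : B → B) (f : B × Circ → B × Circ)
    (hT : ∀ x y, (f (x, y)).1 = T x) (a b : B → ℂ) (hab : ∀ x, ‖a x‖ ^ 2 - ‖b x‖ ^ 2 = 1)
    (hf : Mob f a b) (x : B) (n : ℕ) : ∃ α β : ℂ, ‖α‖ ^ 2 - ‖β‖ ^ 2 = 1 ∧
      ∀ y, (f^[n] (x, y)).1 = T^[n] x ∧
        Phi f (wt a b) n (x, y) = ‖conj β * e y + conj α‖ ^ 2 ∧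
        e (f^[n] (x, y)).2 = (α * e y + β) / (conj β * e y + conj α) := by
  induction n with
  | zero =>
    refine ⟨1, 0, by norm_num, fun y => ⟨rfl, ?_, ?_⟩⟩
    · simp [Phi]
    · simp
  | succ n ih =>
    obtain ⟨α, β, hαβ, ih⟩ := ih
    set a' := a (T^[n] x) with ha'
    set b' := b (T^[n] x) with hb'
    have h' : ‖a'‖ ^ 2 - ‖b'‖ ^ 2 = 1 := hab _
    refine ⟨a' * α + b' * conj β, a' * β + b' * conj α, ?_, ?_⟩
    · apply mr_r
      have h1 := mr_c _ _ h'
      have h2 := mr_c _ _ hαβ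
      simp only [map_add, map_mul, Complex.conj_conj]
      linear_combination (α * conj α - β * conj β) * h1 + h2
    · intro y
      obtain ⟨i1, i2, i3⟩ := ih y
      have hp : f^[n] (x, y) = (T^[n] x, (f^[n] (x, y)).2) := Prod.ext i1 rfl
      have hD := mr_den α β hαβ (e y) (mr_norm_e y)
      have hD2 := mr_den a' b' h' (e (f^[n] (x, y)).2) (mr_norm_e _)
      have key : (conj b' * e (f^[n] (x, y)).2 + conj a') * (conj β * e y + conj α) =
          conj (a' * β + b' * conj α) * e y + conj (a' * α + b' * conj β) := by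
        rw [i3]
        have hN := div_mul_cancel₀ (α * e y + β) hD
        simp only [map_add, map_mul, Complex.conj_conj]
        linear_combination conj b' * hN
      refine ⟨?_, ?_, ?_⟩
      · rw [Function.iterate_succ_apply', hp, hT, Function.iterate_succ_apply']
      · unfold Phi
        rw [Finset.prod_range_succ]
        have h3 : wt a b (f^[n] (x, y)) = ‖conj b' * e (f^[n] (x, y)).2 + conj a'‖ ^ 2 := by
          unfold wt
          rw [i1]
        rw [h3]
        unfold Phi at i2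
        rw [i2, ← key, norm_mul]
        ring
      · rw [Function.iterate_succ_apply']
        have h4 : e (f (f^[n] (x, y))).2 = (a' * e (f^[n] (x, y)).2 + b') /
            (conj b' * e (f^[n] (x, y)).2 + conj a') := by
          conv_lhs => rw [hp]
          exact hf _ _
        rw [h4, ← key, div_eq_div_iff hD2 (mul_ne_zero hD2 hD)]
        have h5 : e (f^[n] (x, y)).2 * (conj β * e y + conj α) = α * e y + β := by
          rw [i3]; exact div_mul_cancel₀ _ hD
        linear_combination (conj b' * e (f^[n] (x, y)).2 + conj a') * a' * h5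

/-- In each fibre some products of weights are at most one and some are at least one. -/
theorem ex_le_ge {B : Type*} (T : B → B) (f : B × Circ → B × Circ)
    (hT : ∀ x y, (f (x, y)).1 = T x) (a b : B → ℂ) (hab : ∀ x, ‖a x‖ ^ 2 - ‖b x‖ ^ 2 = 1)
    (hf : Mob f a b) (x : B) (n : ℕ) :
    (∃ y, Phi f (wt a b) n (x, y) ≤ 1) ∧ ∃ y, 1 ≤ Phi f (wt a b) n (x, y) := by
  obtain ⟨α, β, hαβ, hy⟩ := mr_iter T f hT a b hab hf x n
  have hα1 : 1 ≤ ‖α‖ := by
    have h1 : 0 ≤ ‖β‖ ^ 2 := sq_nonneg _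
    have h2 : 0 ≤ ‖α‖ := norm_nonneg _
    nlinarith
  by_cases hβ : β = 0
  · have h1 : ∀ y, Phi f (wt a b) n (x, y) = 1 := by
      intro y
      rw [(hy y).2.1, hβ]
      rw [hβ] at hαβ
      simp only [map_zero, zero_mul, zero_add, Complex.norm_conj]
      simpa using hαβ
    exact ⟨⟨0, (h1 0).le⟩, ⟨0, (h1 0).ge⟩⟩
  have hb0 : 0 < ‖β‖ := norm_pos_iff.2 hβ
  have ha0 : 0 < ‖α‖ := by linarith
  have hba : ‖β‖ ≤ ‖α‖ := by nlinarith
  set u : ℂ := conj α * β / (‖α‖ * ‖β‖ : ℝ) with hu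
  have hun : ‖u‖ = 1 := by
    rw [hu, norm_div, norm_mul, Complex.norm_conj, Complex.norm_real, Real.norm_eq_abs,
      abs_of_pos (by positivity)]
    exact div_self (by positivity)
  have hbu : conj β * u = conj α * (‖β‖ / ‖α‖ : ℝ) := by
    have h1 : β * conj β = ((‖β‖ ^ 2 : ℝ) : ℂ) := (mr_sq β).symm
    have ha' : ((‖α‖ : ℝ) : ℂ) ≠ 0 := by exact_mod_cast ha0.ne'
    have hb' : ((‖β‖ : ℝ) : ℂ) ≠ 0 := by exact_mod_cast hb0.ne'
    rw [hu]
    push_cast at h1 ⊢
    field_simp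
    linear_combination conj α * h1
  constructor
  · obtain ⟨y, hyu⟩ := mr_surj (-u) (by rw [norm_neg, hun])
    refine ⟨y, ?_⟩
    rw [(hy y).2.1, hyu]
    have h2 : conj β * -u + conj α = conj α * (1 - ‖β‖ / ‖α‖ : ℝ) := by
      push_cast
      push_cast at hbu
      linear_combination -hbu
    rw [h2, norm_mul, Complex.norm_conj, Complex.norm_real, Real.norm_eq_abs, abs_of_nonneg
      (by rw [sub_nonneg, div_le_one ha0]; exact hba)]
    have h3 : ‖α‖ * (1 - ‖β‖ / ‖α‖) = ‖α‖ - ‖β‖ := by field_simp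
    rw [h3]
    have h4 : 0 ≤ ‖α‖ - ‖β‖ := by linarith
    have h5 : (‖α‖ - ‖β‖) ≤ 1 := by nlinarith
    nlinarith
  · obtain ⟨y, hyu⟩ := mr_surj u hun
    refine ⟨y, ?_⟩
    rw [(hy y).2.1, hyu]
    have h2 : conj β * u + conj α = conj α * (1 + ‖β‖ / ‖α‖ : ℝ) := by
      push_cast
      push_cast at hbu
      linear_combination hbu
    rw [h2, norm_mul, Complex.norm_conj, Complex.norm_real, Real.norm_eq_abs, abs_of_nonneg
      (by positivity)]
    have h3 : ‖α‖ * (1 + ‖β‖ / ‖α‖) = ‖α‖ + ‖β‖ := by field_simp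
    rw [h3]
    nlinarith

end Pool.Agent.H728R2.OS
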