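import Pool.Agent.H728R2.OS.Base

open Set Filter Topology Complex Matrix
open scoped ComplexConjugate

namespace Pool.Agent.H728R2.OS

theorem pert_rotC_apply {B : Type*} [TopologicalSpace B] (θ : ℝ) (y : B × Circ) :
    rotC θ y = (y.1, y.2 + (θ : UnitAddCircle)) := rfl

theorem pert_rotC_symm_apply {B : Type*} [TopologicalSpace B] (θ : ℝ) (y : B × Circ) :
    (rotC θ).symm y = (y.1, y.2 + -(θ : UnitAddCircle)) := rfl

theorem pert_torus_add {d : ℕ} (z : (Fin d → ℝ) × ℝ) (θ : ℝ) :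
    toTorus1 (z.1, z.2 + θ) = ((toTorus1 z).1, (toTorus1 z).2 + (θ : UnitAddCircle)) := by
  simp only [toTorus1]
  rw [AddCircle.coe_add]

theorem pert_torus_sub {d : ℕ} (z : (Fin d → ℝ) × ℝ) (θ : ℝ) :
    toTorus1 (z.1, z.2 - θ) = ((toTorus1 z).1, (toTorus1 z).2 + -(θ : UnitAddCircle)) := by
  simp only [toTorus1]
  rw [AddCircle.coe_sub, sub_eq_add_neg]

theorem pert_lift {d : ℕ} {f : (Torus d × Circ) ≃ₜ (Torus d × Circ)}
    {F : (Fin d → ℝ) × ℝ → (Fin d → ℝ) × ℝ} (hF : IsLift toTorus1 F f) (θ : ℝ) :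
    IsLift toTorus1 (fun z => ((F z).1, (F z).2 + θ)) (f.trans (rotC θ)) := by
  intro z
  rw [pert_torus_add (F z) θ, hF z]
  rfl

theorem pert_lift_symm {d : ℕ} {f : (Torus d × Circ) ≃ₜ (Torus d × Circ)}
    {G : (Fin d → ℝ) × ℝ → (Fin d → ℝ) × ℝ} (hG : IsLift toTorus1 G f.symm) (θ : ℝ) :
    IsLift toTorus1 (fun z => G (z.1, z.2 - θ)) (f.trans (rotC θ)).symm := by
  intro z
  rw [hG, pert_torus_sub z θ]
  rfl

theorem pert_diffeo {d : ℕ} {r : ℕ∞} {f : (Torus d × Circ) ≃ₜ (Torus d × Circ)}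
    (hf : IsDiffeo toTorus1 r f) (θ : ℝ) : IsDiffeo toTorus1 r (f.trans (rotC θ)) := by
  obtain ⟨⟨F, hF, hFl⟩, G, hG, hGl⟩ := hf
  refine ⟨⟨_, ?_, pert_lift hFl θ⟩, _, ?_, pert_lift_symm hGl θ⟩
  · exact hF.fst.prodMk (hF.snd.add contDiff_const)
  · exact hG.comp (contDiff_fst.prodMk (contDiff_snd.sub contDiff_const))

theorem pert_close {d : ℕ} {r : ℕ∞} {f : (Torus d × Circ) ≃ₜ (Torus d × Circ)}
    (hf : IsDiffeo toTorus1 r f) {k : ℕ} (hk : (k : ℕ∞) ≤ r) {ε θ : ℝ} (hθ : |θ| < ε) :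
    CkClose toTorus1 k ε f (f.trans (rotC θ)) := by
  obtain ⟨⟨F, hF, hFl⟩, -⟩ := hf
  have hk' : ((k : ℕ∞) : WithTop ℕ∞) ≤ ((r : ℕ∞) : WithTop ℕ∞) := by exact_mod_cast hk
  have hFk : ContDiff ℝ k F := hF.of_le hk'
  refine ⟨F, fun z => ((F z).1, (F z).2 + θ), hFk,
    hFk.fst.prodMk (hFk.snd.add contDiff_const), hFl, pert_lift hFl θ, ?_⟩
  have hfun : (fun w => ((F w).1, (F w).2 + θ) - F w) =
      fun _ : (Fin d → ℝ) × ℝ => ((0 : Fin d → ℝ), θ) := by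
    funext w
    ext1
    · simp
    · simp
  have hpos : 0 < ε := (abs_nonneg θ).trans_lt hθ
  intro j _ z
  rw [hfun]
  rcases Nat.eq_zero_or_pos j with hj | hj
  · subst hj
    rw [norm_iteratedFDeriv_zero, Prod.norm_def]
    simp only [norm_zero, Real.norm_eq_abs]
    exact max_lt hpos hθ
  · rw [iteratedFDeriv_const_of_ne (by omega)]
    simpa using hpos

/-- Rotations of the fibres by small angles are small perturbations. -/
theorem omegaStable_rot {d : ℕ} {r : ℕ∞} {f : (Torus d × Circ) ≃ₜ (Torus d × Circ)}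
    (hf : IsDiffeo toTorus1 r f) (hs : OmegaStable toTorus1 r f) :
    ∃ ε : ℝ, 0 < ε ∧ ε ≤ 1 ∧ ∀ θ : ℝ, |θ| < ε → OmegaConj f (f.trans (rotC θ)) := by
  obtain ⟨k, hk, ε, hε, H⟩ := hs
  refine ⟨min ε 1, lt_min hε one_pos, min_le_right _ _, fun θ hθ => ?_⟩
  exact H _ (pert_diffeo hf θ) (pert_close hf hk (hθ.trans_le (min_le_left _ _)))

end Pool.Agent.H728R2.OS
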