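import Pool.Agent.H728R2.OS.Base

open Set Filter Topology Complex Matrix
open scoped ComplexConjugate

namespace Pool.Agent.H728R2.OS

private theorem phi_e_coe (t : ℝ) : e ((t : ℝ) : UnitAddCircle) =
    Complex.exp (2 * Real.pi * I * (t : ℂ)) := by
  unfold e
  rw [AddCircle.toCircle_apply_mk, Circle.coe_exp]
  congr 1
  push_cast
  ring

private theorem phi_norm_e (y : Circ) : ‖e y‖ = 1 := Circle.norm_coe _

private theorem phi_den_ne {a b E : ℂ} (hab : ‖a‖ ^ 2 - ‖b‖ ^ 2 = 1) (hE : ‖E‖ = 1) :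
    conj b * E + conj a ≠ 0 := by
  intro h
  have h1 : conj a = -(conj b * E) := by linear_combination h
  have h2 : ‖a‖ = ‖b‖ := by
    have := congrArg norm h1
    rw [norm_neg, norm_mul, hE, mul_one, Complex.norm_conj, Complex.norm_conj] at this
    exact this
  rw [h2] at hab
  norm_num at hab

private theorem phi_hasDerivAt {h : ℝ → ℝ} {h' s : ℝ} (hh : HasDerivAt h h' s) :
    HasDerivAt (fun t => Complex.exp (2 * Real.pi * I * (h t : ℂ)))
      (2 * Real.pi * I * h' * Complex.exp (2 * Real.pi * I * (h s : ℂ))) s := by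
  have h1 : HasDerivAt (fun t => ((h t : ℝ) : ℂ)) (h' : ℂ) s := hh.ofReal_comp
  have h2 := (h1.const_mul (2 * Real.pi * I)).cexp
  convert h2 using 1
  ring

private theorem phi_curve {d : ℕ} {F : (Fin d → ℝ) × ℝ → (Fin d → ℝ) × ℝ} (hF : ContDiff ℝ 1 F)
    (z : (Fin d → ℝ) × ℝ) :
    HasDerivAt (fun s => F (z.1, s)) (fderiv ℝ F z ((0 : Fin d → ℝ), (1 : ℝ))) z.2 := by
  have h1 : HasFDerivAt F (fderiv ℝ F z) (z.1, z.2) := (hF.differentiable (by norm_num) z).hasFDerivAt
  have h2 : HasDerivAt (fun s : ℝ => (z.1, s)) ((0 : Fin d → ℝ), (1 : ℝ)) z.2 :=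
    (hasDerivAt_const z.2 z.1).prodMk (hasDerivAt_id z.2)
  exact h1.comp_hasDerivAt z.2 h2

private theorem phi_quot (d : ℕ) : IsOpenQuotientMap (toTorus1 (d := d)) := by
  have h0 : IsOpenQuotientMap (fun t : ℝ => (t : UnitAddCircle)) :=
    QuotientAddGroup.isOpenQuotientMap_mk
  have h1 : IsOpenQuotientMap (toTorus (d := d)) := IsOpenQuotientMap.piMap fun _ => h0
  exact h1.prodMap h0

/-- The weight is the inverse of the derivative along the fibres; in particular it is
continuous. -/
theorem wt_continuous {d : ℕ} {T : Torus d ≃ₜ Torus d}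
    {f : (Torus d × Circ) ≃ₜ (Torus d × Circ)} (hT : ∀ x y, (f (x, y)).1 = T x)
    {a b : Torus d → ℂ} (hab : ∀ x, ‖a x‖ ^ 2 - ‖b x‖ ^ 2 = 1) (hf : Mob f a b)
    {F : (Fin d → ℝ) × ℝ → (Fin d → ℝ) × ℝ} (hF : ContDiff ℝ 1 F) (hl : IsLift toTorus1 F f) :
    (∀ z, 0 < wt a b z) ∧ Continuous (wt a b) ∧
      ∀ z, fderiv ℝ F z ((0 : Fin d → ℝ), (1 : ℝ)) = (0, (wt a b (toTorus1 z))⁻¹) := by
  have hpos : ∀ z, 0 < wt a b z := by
    intro z
    have := norm_pos_iff.2 (phi_den_ne (hab z.1) (phi_norm_e z.2))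
    unfold wt
    positivity
  have hder : ∀ z, fderiv ℝ F z ((0 : Fin d → ℝ), (1 : ℝ)) = (0, (wt a b (toTorus1 z))⁻¹) := by
    intro z
    have hc := phi_curve hF z
    refine Prod.ext ?_ ?_
    · funext i
      have h1 : HasDerivAt (fun s => (F (z.1, s)).1 i)
          ((fderiv ℝ F z ((0 : Fin d → ℝ), (1 : ℝ))).1 i) z.2 :=
        ((ContinuousLinearMap.proj (R := ℝ) (φ := fun _ : Fin d => ℝ) i).comp
          (ContinuousLinearMap.fst ℝ (Fin d → ℝ) ℝ)).hasFDerivAt.comp_hasDerivAt z.2 hc
      have h2 := phi_hasDerivAt h1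
      have h3 : (fun t => Complex.exp (2 * Real.pi * I * (((F (z.1, t)).1 i : ℝ) : ℂ))) =
          fun _ => e (T (toTorus z.1) i) := by
        funext t
        rw [← phi_e_coe]
        congr 1
        have h4 := congrArg Prod.fst (hl (z.1, t))
        have h5 : (f (toTorus1 (z.1, t))).1 = T (toTorus z.1) := hT _ _
        rw [h5] at h4
        exact congrFun h4 i
      rw [h3] at h2
      have h4 := h2.unique (hasDerivAt_const _ _)
      have h5 : (2 * Real.pi * I : ℂ) ≠ 0 := Complex.two_pi_I_ne_zero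
      rcases mul_eq_zero.1 h4 with h6 | h6
      · rcases mul_eq_zero.1 h6 with h7 | h7
        · exact absurd h7 h5
        · simpa using h7
      · exact absurd h6 (Complex.exp_ne_zero _)
    · have h1 : HasDerivAt (fun s => (F (z.1, s)).2)
          ((fderiv ℝ F z ((0 : Fin d → ℝ), (1 : ℝ))).2) z.2 :=
        (ContinuousLinearMap.snd ℝ (Fin d → ℝ) ℝ).hasFDerivAt.comp_hasDerivAt z.2 hc
      generalize (fderiv ℝ F z ((0 : Fin d → ℝ), (1 : ℝ))).2 = g' at h1 ⊢
      have h2 := phi_hasDerivAt h1
      have hE := phi_hasDerivAt (hasDerivAt_id z.2)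
      simp only [id] at hE
      set x := toTorus z.1 with hx
      have key : ∀ t : ℝ, Complex.exp (2 * Real.pi * I * (((F (z.1, t)).2 : ℝ) : ℂ)) =
          (a x * Complex.exp (2 * Real.pi * I * (t : ℂ)) + b x) /
            (conj (b x) * Complex.exp (2 * Real.pi * I * (t : ℂ)) + conj (a x)) := by
        intro t
        have h4 := congrArg Prod.snd (hl (z.1, t))
        have h5 : e (f (toTorus1 (z.1, t))).2 = _ := hf x ((t : ℝ) : UnitAddCircle)
        rw [← h4] at h5
        have h6 : e ((toTorus1 (F (z.1, t))).2) =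
            Complex.exp (2 * Real.pi * I * (((F (z.1, t)).2 : ℝ) : ℂ)) := phi_e_coe _
        rw [← h6, h5, phi_e_coe]
      have hnE : ‖Complex.exp (2 * Real.pi * I * (z.2 : ℂ))‖ = 1 := by
        rw [← phi_e_coe]; exact phi_norm_e _
      have hwt : wt a b (toTorus1 z) =
          ‖conj (b x) * Complex.exp (2 * Real.pi * I * (z.2 : ℂ)) + conj (a x)‖ ^ 2 := by
        unfold wt
        have : e (toTorus1 z).2 = Complex.exp (2 * Real.pi * I * (z.2 : ℂ)) := phi_e_coe _
        rw [this]
        rfl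
      rw [hwt]
      have hD := phi_den_ne (hab x) hnE
      have h7 : HasDerivAt (fun t : ℝ =>
          (a x * Complex.exp (2 * Real.pi * I * (t : ℂ)) + b x) /
            (conj (b x) * Complex.exp (2 * Real.pi * I * (t : ℂ)) + conj (a x))) _ z.2 :=
        ((hE.const_mul (a x)).add_const (b x)).div
          ((hE.const_mul (conj (b x))).add_const (conj (a x))) hD
      have h8 : (fun t : ℝ => Complex.exp (2 * Real.pi * I * (((F (z.1, t)).2 : ℝ) : ℂ))) =
          fun t : ℝ => (a x * Complex.exp (2 * Real.pi * I * (t : ℂ)) + b x) /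
            (conj (b x) * Complex.exp (2 * Real.pi * I * (t : ℂ)) + conj (a x)) := funext key
      rw [h8] at h2
      have h9 := h2.unique h7
      rw [key z.2] at h9
      have hab' : a x * conj (a x) - b x * conj (b x) = 1 := by
        rw [Complex.mul_conj, Complex.mul_conj, Complex.normSq_eq_norm_sq,
          Complex.normSq_eq_norm_sq]
        exact_mod_cast hab x
      have hEE : Complex.exp (2 * Real.pi * I * (z.2 : ℂ)) *
          conj (Complex.exp (2 * Real.pi * I * (z.2 : ℂ))) = 1 := by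
        rw [Complex.mul_conj, Complex.normSq_eq_norm_sq, hnE]
        norm_num
      generalize Complex.exp (2 * Real.pi * I * (z.2 : ℂ)) = E at *
      have h5 : (2 * Real.pi * I : ℂ) ≠ 0 := Complex.two_pi_I_ne_zero
      have hE0 : E ≠ 0 := by
        intro h
        rw [h] at hnE
        norm_num at hnE
      have hDD : (conj (b x) * E + conj (a x)) * conj (conj (b x) * E + conj (a x)) =
          ((‖conj (b x) * E + conj (a x)‖ ^ 2 : ℝ) : ℂ) := by
        rw [Complex.mul_conj, Complex.normSq_eq_norm_sq]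
      have hN : a x * E + b x = E * conj (conj (b x) * E + conj (a x)) := by
        simp only [map_add, map_mul, Complex.conj_conj]
        linear_combination (-(b x)) * hEE
      have h10 : (g' : ℂ) * ((‖conj (b x) * E + conj (a x)‖ ^ 2 : ℝ) : ℂ) = 1 := by
        rw [← hDD]
        rw [eq_div_iff (pow_ne_zero 2 hD), Complex.ofReal_one] at h9
        have hq : (a x * E + b x) / (conj (b x) * E + conj (a x)) *
            (conj (b x) * E + conj (a x)) = a x * E + b x := div_mul_cancel₀ _ hD
        have h11 : (g' : ℂ) * (a x * E + b x) * (conj (b x) * E + conj (a x)) = E := by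
          refine mul_left_cancel₀ h5 ?_
          linear_combination h9 - (2 * Real.pi * I * g' * (conj (b x) * E + conj (a x))) * hq +
            (2 * Real.pi * I * E) * hab'
        rw [hN] at h11
        have h12 : E * ((g' : ℂ) * ((conj (b x) * E + conj (a x)) *
          conj (conj (b x) * E + conj (a x)))) = E * 1 := by
          linear_combination h11
        exact mul_left_cancel₀ hE0 h12
      have h13 : g' * ‖conj (b x) * E + conj (a x)‖ ^ 2 = 1 := by exact_mod_cast h10
      exact eq_inv_of_mul_eq_one_left h13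
  refine ⟨hpos, ?_, hder⟩
  rw [← (phi_quot d).continuous_comp_iff]
  have h1 : (wt a b ∘ toTorus1) = fun z => ((fderiv ℝ F z ((0 : Fin d → ℝ), (1 : ℝ))).2)⁻¹ := by
    funext z
    rw [hder z]
    simp
  rw [h1]
  have h2 : Continuous (fun z => fderiv ℝ F z ((0 : Fin d → ℝ), (1 : ℝ))) :=
    (hF.continuous_fderiv (by norm_num)).clm_apply continuous_const
  refine h2.snd.inv₀ ?_
  intro z
  rw [hder z]
  exact (inv_pos.2 (hpos _)).ne'

end Pool.Agent.H728R2.OS
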