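import Pool.Agent.H728R2.OS.Base

open Set Filter Topology Complex Matrix
open scoped ComplexConjugate

namespace Pool.Agent.H728R2.OS

private lemma pow_pr_add (a b : ℕ → ℂ) (k : ℕ)
    (hper : ∀ j, a (j + k) = a j ∧ b (j + k) = b j) (θ : ℂ) (n : ℕ) :
    pr a b θ (n + k) = pr a b θ n * pr a b θ k := by
  induction n with
  | zero => simp [pr]
  | succ n ih =>
    have e : n + 1 + k = (n + k) + 1 := by ring
    rw [e, pr, ih, (hper n).1, (hper n).2, pr]
    simp only [Matrix.mul_assoc]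

private lemma pow_pr_mul (a b : ℕ → ℂ) (k : ℕ)
    (hper : ∀ j, a (j + k) = a j ∧ b (j + k) = b j) (θ : ℂ) (q : ℕ) :
    pr a b θ (q * k) = pr a b θ k ^ q := by
  induction q with
  | zero => simp [pr]
  | succ q ih =>
    rw [Nat.succ_mul, pow_pr_add a b k hper θ, ih, pow_succ]

/-- If no periodic product has an eigenvalue of modulus one, then `1` is not an eigenvalue of the
products over multiples of the period. -/
theorem det_pow_ne (a b : ℕ → ℂ) (k : ℕ) (hk : 0 < k)
    (hper : ∀ j, a (j + k) = a j ∧ b (j + k) = b j) (θ : ℝ)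
    (h : ∀ l : ℂ, ‖l‖ = 1 → (pr a b θ k - l • (1 : Matrix (Fin 2) (Fin 2) ℂ)).det ≠ 0)
    (N : ℕ) (hN : 0 < N) (hkN : k ∣ N) :
    (pr a b θ N - (1 : Matrix (Fin 2) (Fin 2) ℂ)).det ≠ 0 := by
  obtain ⟨q, rfl⟩ := hkN
  have hq : 0 < q := by
    rcases Nat.eq_zero_or_pos q with h0 | h0
    · subst h0; simp at hN
    · exact h0
  rw [mul_comm, pow_pr_mul a b k hper]
  intro hdet
  set M := pr a b θ k with hM
  have hspec : (1 : ℂ) ∈ spectrum ℂ (M ^ q) := by
    rw [spectrum.mem_iff]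
    intro hu
    rw [Matrix.isUnit_iff_isUnit_det] at hu
    have : (algebraMap ℂ (Matrix (Fin 2) (Fin 2) ℂ) 1 - M ^ q).det = 0 := by
      rw [map_one, ← neg_sub, Matrix.det_neg, hdet]
      simp
    rw [this] at hu
    simp at hu
  have h2 := spectrum.map_pow_of_nonempty (𝕜 := ℂ) (a := M) ?_ q
  · rw [h2] at hspec
    obtain ⟨l, hl, hlq⟩ := hspec
    have hlq' : l ^ q = 1 := hlq
    have hnorm : ‖l‖ = 1 := by
      have : ‖l‖ ^ q = 1 := by rw [← norm_pow, hlq', norm_one]
      exact (pow_eq_one_iff_of_nonneg (norm_nonneg _) hq.ne').1 this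
    apply h l hnorm
    rw [spectrum.mem_iff, Matrix.isUnit_iff_isUnit_det] at hl
    have h3 : (algebraMap ℂ (Matrix (Fin 2) (Fin 2) ℂ) l - M).det = 0 := by
      by_contra hne
      exact hl (isUnit_iff_ne_zero.2 hne)
    rw [← neg_sub, Matrix.det_neg] at h3
    have h4 : algebraMap ℂ (Matrix (Fin 2) (Fin 2) ℂ) l = l • (1 : Matrix (Fin 2) (Fin 2) ℂ) := by
      rw [Algebra.algebraMap_eq_smul_one]
    rw [h4] at h3
    simpa using h3
  · exact spectrum.nonempty_of_isAlgClosed_of_finiteDimensional ℂ M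

end Pool.Agent.H728R2.OS
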