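import Pool.Agent.H728R2.OS.Base

open Set Filter Topology Complex Matrix
open scoped ComplexConjugate

namespace Pool.Agent.H728R2.OS

namespace SectAux

theorem Phi_zero {Z : Type*} (f : Z → Z) (φ : Z → ℝ) (z : Z) : Phi f φ 0 z = 1 := by
  simp [Phi]

theorem Phi_add {Z : Type*} (f : Z → Z) (φ : Z → ℝ) (m n : ℕ) (z : Z) :
    Phi f φ (m + n) z = Phi f φ m z * Phi f φ n (f^[m] z) := by
  unfold Phi
  rw [Finset.prod_range_add]
  congr 1
  refine Finset.prod_congr rfl fun i _ => ?_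
  rw [Nat.add_comm m i, Function.iterate_add_apply]

theorem Phi_succ' {Z : Type*} (f : Z → Z) (φ : Z → ℝ) (n : ℕ) (z : Z) :
    Phi f φ (n + 1) z = φ z * Phi f φ n (f z) := by
  rw [Nat.add_comm, Phi_add]
  simp [Phi]

theorem Phi_succ {Z : Type*} (f : Z → Z) (φ : Z → ℝ) (n : ℕ) (z : Z) :
    Phi f φ (n + 1) z = Phi f φ n z * φ (f^[n] z) := by
  rw [Phi_add]
  simp [Phi]

variable {B : Type*} [MetricSpace B] [CompactSpace B] (D : TopData B)

theorem up_pos (n : ℕ) (z : B × Circ) : 0 < D.up n z := by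
  unfold TopData.up Phi
  exact Finset.prod_pos fun _ _ => D.φ_pos _

theorem up_cont (n : ℕ) : Continuous (D.up n) := by
  unfold TopData.up Phi
  exact continuous_finsetProd _ fun i _ => D.φ_cont.comp (D.F.continuous.iterate i)

theorem fst_iter (n : ℕ) (z : B × Circ) : (D.F^[n] z).1 = D.T^[n] z.1 := by
  induction n with
  | zero => rfl
  | succ n ih => rw [Function.iterate_succ_apply', Function.iterate_succ_apply', D.fst_F, ih]

theorem iter_mem (n : ℕ) (z : B × Circ) (hz : z.1 ∈ D.Λ) : (D.F^[n] z).1 ∈ D.Λ := by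
  rw [fst_iter]
  induction n with
  | zero => exact hz
  | succ n ih => rw [Function.iterate_succ_apply', D.Λ_inv]; exact ih

theorem symm_iter (n : ℕ) (z : B × Circ) : D.F.symm^[n] (D.F^[n] z) = z :=
  (Function.LeftInverse.iterate D.F.symm_apply_apply n) z

/-- the weights along the multiples of `N` -/
noncomputable def W (N j : ℕ) (z : B × Circ) : ℝ := D.up (j * N) z

theorem W_pos (N j : ℕ) (z : B × Circ) : 0 < W D N j z := up_pos D _ z

theorem W_zero (N : ℕ) (z : B × Circ) : W D N 0 z = 1 := by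
  unfold W TopData.up
  rw [Nat.zero_mul, Phi_zero]

theorem W_succ (N j : ℕ) (z : B × Circ) :
    W D N (j + 1) z = W D N j z * D.up N (D.F^[j * N] z) := by
  unfold W TopData.up
  rw [Nat.succ_mul, Phi_add]

theorem key (N : ℕ) (hg : ∀ z : B × Circ, z.1 ∈ D.Λ → 4 ≤ D.up N z ∨ 4 ≤ D.dn N z)
    (z : B × Circ) (hz : z.1 ∈ D.Λ) (j : ℕ) :
    4 * W D N (j + 1) z ≤ W D N (j + 2) z ∨ 4 * W D N (j + 1) z ≤ W D N j z := by
  have h1 := W_pos D N (j + 1) z
  rcases hg (D.F^[(j + 1) * N] z) (iter_mem D _ z hz) with h | h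
  · left
    rw [W_succ D N (j + 1) z, mul_comm]
    exact mul_le_mul_of_nonneg_left h h1.le
  · right
    have h2 : D.dn N (D.F^[(j + 1) * N] z) = (D.up N (D.F^[j * N] z))⁻¹ := by
      unfold TopData.dn TopData.up
      rw [Nat.succ_mul, Nat.add_comm, Function.iterate_add_apply, symm_iter]
    rw [h2] at h
    have h3 := up_pos D N (D.F^[j * N] z)
    rw [W_succ D N j z]
    have h4 : 4 * D.up N (D.F^[j * N] z) ≤ 1 := by
      have := mul_le_mul_of_nonneg_right h h3.le
      rwa [inv_mul_cancel₀ h3.ne'] at this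
    have h5 := W_pos D N j z
    nlinarith

/-- growth persists -/
theorem grow (N : ℕ) (hg : ∀ z : B × Circ, z.1 ∈ D.Λ → 4 ≤ D.up N z ∨ 4 ≤ D.dn N z)
    (z : B × Circ) (hz : z.1 ∈ D.Λ) (j : ℕ)
    (h : 4 * W D N (j + 1) z ≤ W D N (j + 2) z) (k : ℕ) :
    4 * W D N (j + 1 + k) z ≤ W D N (j + 2 + k) z := by
  induction k with
  | zero => exact h
  | succ k ih =>
    have h1 : j + 1 + (k + 1) = (j + k + 1) + 1 := by ring
    have h2 : j + 2 + (k + 1) = (j + k + 1) + 2 := by ring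
    have h3 : j + 1 + k = j + k + 1 := by ring
    have h4 : j + 2 + k = (j + k + 1) + 1 := by ring
    rw [h3, h4] at ih
    rw [h1, h2]
    rcases key D N hg z hz (j + k + 1) with h5 | h5
    · exact h5
    · exfalso
      have h6 := W_pos D N (j + k + 1) z
      linarith

theorem decay (N : ℕ) (hg : ∀ z : B × Circ, z.1 ∈ D.Λ → 4 ≤ D.up N z ∨ 4 ≤ D.dn N z)
    (z : B × Circ) (hz : z ∈ D.S) (j : ℕ) : W D N j z ≤ (1 / 4) ^ j := by
  obtain ⟨hz1, C, hC⟩ := hz
  have hno : ∀ j, ¬ 4 * W D N (j + 1) z ≤ W D N (j + 2) z := by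
    intro j h
    have hgr := grow D N hg z hz1 j h
    have hp : ∀ k : ℕ, 4 ^ k * W D N (j + 1) z ≤ W D N (j + 1 + k) z := by
      intro k
      induction k with
      | zero => simp
      | succ k ih =>
        have h1 := hgr k
        have h2 : j + 1 + (k + 1) = j + 2 + k := by ring
        rw [h2, pow_succ]
        linarith
    have h0 := W_pos D N (j + 1) z
    obtain ⟨k, hk⟩ := pow_unbounded_of_one_lt (C / W D N (j + 1) z) (by norm_num : (1 : ℝ) < 4)
    rw [div_lt_iff₀ h0] at hk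
    have h3 := hp k
    have h4 : W D N (j + 1 + k) z ≤ C := hC _
    linarith
  induction j with
  | zero => rw [W_zero]; simp
  | succ j ih =>
    rcases key D N hg z hz1 j with h | h
    · exact absurd h (hno j)
    · rw [pow_succ]
      linarith

theorem exists_M : ∃ M : ℝ, 1 ≤ M ∧ ∀ z, D.φ z ≤ M := by
  have h : BddAbove (range D.φ) := (isCompact_range D.φ_cont).bddAbove
  obtain ⟨C, hC⟩ := h
  exact ⟨max 1 C, le_max_left _ _, fun z => (hC (mem_range_self z)).trans (le_max_right _ _)⟩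

theorem up_le_pow {M : ℝ} (hM : ∀ z, D.φ z ≤ M) (r : ℕ) (z : B × Circ) :
    D.up r z ≤ M ^ r := by
  unfold TopData.up Phi
  calc ∏ i ∈ Finset.range r, D.φ (D.F^[i] z) ≤ ∏ _i ∈ Finset.range r, M :=
        Finset.prod_le_prod (fun i _ => (D.φ_pos _).le) (fun i _ => hM _)
    _ = M ^ r := by simp

theorem up_le {M : ℝ} (hM1 : 1 ≤ M) (hM : ∀ z, D.φ z ≤ M) (N : ℕ) (hN : 0 < N) (z : B × Circ)
    (hW : ∀ j, W D N j z ≤ (1 / 4) ^ j) (n : ℕ) :
    D.up n z ≤ (1 / 4) ^ (n / N) * M ^ N := by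
  have h1 : D.up n z = W D N (n / N) z * D.up (n % N) (D.F^[(n / N) * N] z) := by
    unfold W TopData.up
    rw [← Phi_add, Nat.div_add_mod']
  rw [h1]
  have h2 : D.up (n % N) (D.F^[(n / N) * N] z) ≤ M ^ N :=
    (up_le_pow D hM _ _).trans (pow_le_pow_right₀ hM1 (Nat.mod_lt _ hN).le)
  exact mul_le_mul (hW _) h2 (up_pos D _ _).le (by positivity)

theorem mem_S_iff (N : ℕ) (hN : 0 < N)
    (hg : ∀ z : B × Circ, z.1 ∈ D.Λ → 4 ≤ D.up N z ∨ 4 ≤ D.dn N z) (z : B × Circ) :
    z ∈ D.S ↔ z.1 ∈ D.Λ ∧ ∀ j, W D N j z ≤ (1 / 4) ^ j := by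
  constructor
  · intro h
    exact ⟨h.1, decay D N hg z h⟩
  · rintro ⟨h1, h2⟩
    obtain ⟨M, hM1, hM⟩ := exists_M D
    refine ⟨h1, M ^ N, fun n => (up_le D hM1 hM N hN z h2 n).trans ?_⟩
    have h3 : ((1 : ℝ) / 4) ^ (n / N) ≤ 1 := pow_le_one₀ (by norm_num) (by norm_num)
    have h4 : 0 < M ^ N := by positivity
    nlinarith

/-- the two-sided estimate for a segment with small end -/
theorem segment (N : ℕ) (hg : ∀ z : B × Circ, z.1 ∈ D.Λ → 4 ≤ D.up N z ∨ 4 ≤ D.dn N z)
    (z : B × Circ) (hz : z.1 ∈ D.Λ) (n : ℕ) (hn : W D N n z ≤ 1) (j : ℕ) (hj : 2 * j ≤ n) :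
    W D N j z ≤ (1 / 4) ^ j := by
  by_cases hex : ∃ i, i + 1 ≤ j ∧ 4 * W D N (i + 1) z ≤ W D N (i + 2) z
  · obtain ⟨i, hi, h⟩ := hex
    have hgr := grow D N hg z hz i h
    have hp : ∀ k : ℕ, 4 ^ k * W D N j z ≤ W D N (j + k) z := by
      intro k
      induction k with
      | zero => simp
      | succ k ih =>
        have h1 := hgr (j + k - (i + 1))
        have h2 : i + 1 + (j + k - (i + 1)) = j + k := by omega
        have h3 : i + 2 + (j + k - (i + 1)) = j + (k + 1) := by omega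
        rw [h2, h3] at h1
        rw [pow_succ]
        linarith
    have h4 := hp (n - j)
    have h5 : j + (n - j) = n := by omega
    rw [h5] at h4
    have h6 : (4 : ℝ) ^ j ≤ 4 ^ (n - j) := pow_le_pow_right₀ (by norm_num) (by omega)
    have h7 := W_pos D N j z
    have h8 : (4 : ℝ) ^ j * W D N j z ≤ 1 := by nlinarith
    rw [one_div, inv_pow]
    rwa [le_inv_comm₀ h7 (by positivity), ← one_div, le_div_iff₀ h7]
  · push Not at hex
    clear hj
    induction j with
    | zero => rw [W_zero]; simp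
    | succ j ih =>
      have ih' := ih (fun i hi => hex i (by omega))
      rcases key D N hg z hz j with h | h
      · exact absurd h (not_le.2 (hex j le_rfl))
      · rw [pow_succ]
        linarith

theorem norm_e (y : Circ) : ‖e y‖ = 1 := by
  unfold e
  exact Circle.norm_coe _

theorem e_inj : Function.Injective e := by
  intro y y' h
  unfold e at h
  exact AddCircle.injective_toCircle one_ne_zero (Circle.coe_injective h)

theorem mob_iter (x : B) (y y' : Circ) (n : ℕ) :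
    ‖e (D.F^[n] (x, y)).2 - e (D.F^[n] (x, y')).2‖ ^ 2 * (D.up n (x, y) * D.up n (x, y')) =
      ‖e y - e y'‖ ^ 2 := by
  induction n with
  | zero =>
    unfold TopData.up
    simp [Phi_zero]
  | succ n ih =>
    rw [← ih]
    have h1 : D.F^[n] (x, y) = (D.T^[n] x, (D.F^[n] (x, y)).2) :=
      Prod.ext (fst_iter D n (x, y)) rfl
    have h2 : D.F^[n] (x, y') = (D.T^[n] x, (D.F^[n] (x, y')).2) :=
      Prod.ext (fst_iter D n (x, y')) rfl
    have h3 := D.mob (D.T^[n] x) (D.F^[n] (x, y)).2 (D.F^[n] (x, y')).2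
    rw [← h1, ← h2] at h3
    rw [← h3, Function.iterate_succ_apply', Function.iterate_succ_apply']
    have h4 : D.up (n + 1) (x, y) = D.up n (x, y) * D.φ (D.F^[n] (x, y)) := Phi_succ _ _ _ _
    have h5 : D.up (n + 1) (x, y') = D.up n (x, y') * D.φ (D.F^[n] (x, y')) := Phi_succ _ _ _ _
    rw [h4, h5]
    ring

end SectAux

open SectAux

/-- The set `S` of points with bounded forward weights is the graph of a continuous invariant
section over `Λ`, and the forward weights decay exponentially on it. -/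
theorem section_S {B : Type*} [MetricSpace B] [CompactSpace B] (D : TopData B) (N : ℕ)
    (hN : 0 < N) (hg : ∀ z : B × Circ, z.1 ∈ D.Λ → 4 ≤ D.up N z ∨ 4 ≤ D.dn N z) :
    IsClosed D.S ∧ (∀ z, D.F z ∈ D.S ↔ z ∈ D.S) ∧
      (∀ x ∈ D.Λ, ∃! y, (x, y) ∈ D.S) ∧
      ∃ C μ : ℝ, 0 < C ∧ 0 < μ ∧ μ < 1 ∧ ∀ z ∈ D.S, ∀ n, D.up n z ≤ C * μ ^ n := by
  have hmem := mem_S_iff D N hN hg
  refine ⟨?_, ?_, ?_, ?_⟩
  · have h1 : D.S = (Prod.fst ⁻¹' D.Λ) ∩ ⋂ j : ℕ, {z | W D N j z ≤ (1 / 4) ^ j} := by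
      ext z
      rw [hmem]
      simp only [mem_inter_iff, mem_preimage, mem_iInter, mem_ofPred_eq]
    rw [h1]
    exact (D.Λ_closed.preimage continuous_fst).inter
      (isClosed_iInter fun j => isClosed_le (up_cont D _) continuous_const)
  · intro z
    have hup : ∀ n, D.up (n + 1) z = D.φ z * D.up n (D.F z) := fun n => Phi_succ' _ _ _ _
    have hφ := D.φ_pos z
    constructor
    · rintro ⟨h1, C, hC⟩
      rw [D.fst_F, D.Λ_inv] at h1
      refine ⟨h1, max 1 (D.φ z * C), fun n => ?_⟩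
      cases n with
      | zero =>
        have : D.up 0 z = 1 := Phi_zero _ _ _
        rw [this]
        exact le_max_left _ _
      | succ n =>
        rw [hup]
        exact (mul_le_mul_of_nonneg_left (hC n) hφ.le).trans (le_max_right _ _)
    · rintro ⟨h1, C, hC⟩
      refine ⟨by rw [D.fst_F, D.Λ_inv]; exact h1, C / D.φ z, fun n => ?_⟩
      rw [le_div_iff₀ hφ, mul_comm, ← hup]
      exact hC _
  · intro x hx
    have hex : ∃ y, (x, y) ∈ D.S := by
      choose y hy using fun n : ℕ => D.ex_le x (n * N)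
      obtain ⟨y0, -, ψ, hψ, hlim⟩ := isCompact_univ.tendsto_subseq (x := y) (fun n => mem_univ _)
      refine ⟨y0, (hmem _).2 ⟨hx, fun j => ?_⟩⟩
      have hc : Tendsto (fun n => W D N j (x, y (ψ n))) atTop (𝓝 (W D N j (x, y0))) := by
        have h1 : Continuous fun t : Circ => W D N j (x, t) :=
          (up_cont D (j * N)).comp (continuous_const.prodMk continuous_id)
        exact (h1.tendsto y0).comp hlim
      refine le_of_tendsto hc ?_
      filter_upwards [eventually_ge_atTop (2 * j)] with n hn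
      exact segment D N hg (x, y (ψ n)) hx (ψ n) (hy (ψ n)) j (hn.trans (hψ.id_le n))
    obtain ⟨y, hy⟩ := hex
    refine ⟨y, hy, fun y' hy' => ?_⟩
    have h1 := ((hmem _).1 hy).2
    have h2 := ((hmem _).1 hy').2
    have h3 : ∀ j : ℕ, ‖e y' - e y‖ ^ 2 ≤ 4 * (1 / 4) ^ j := by
      intro j
      rw [← mob_iter D x y' y (j * N)]
      have h4 : ‖e (D.F^[j * N] (x, y')).2 - e (D.F^[j * N] (x, y)).2‖ ^ 2 ≤ 4 := by
        have := norm_sub_le (e (D.F^[j * N] (x, y')).2) (e (D.F^[j * N] (x, y)).2)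
        rw [norm_e, norm_e] at this
        have h0 := norm_nonneg (e (D.F^[j * N] (x, y')).2 - e (D.F^[j * N] (x, y)).2)
        nlinarith
      have h5 : D.up (j * N) (x, y') * D.up (j * N) (x, y) ≤ (1 / 4) ^ j := by
        have h6 : D.up (j * N) (x, y') ≤ (1 / 4) ^ j := h2 j
        have h7 : D.up (j * N) (x, y) ≤ (1 / 4) ^ j := h1 j
        have h8 : ((1 : ℝ) / 4) ^ j ≤ 1 := pow_le_one₀ (by norm_num) (by norm_num)
        have h9 := up_pos D (j * N) (x, y')
        have h10 := up_pos D (j * N) (x, y)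
        calc D.up (j * N) (x, y') * D.up (j * N) (x, y) ≤ (1 / 4) ^ j * (1 / 4) ^ j :=
              mul_le_mul h6 h7 h10.le (by positivity)
          _ ≤ (1 / 4) ^ j * 1 := by gcongr
          _ = (1 / 4) ^ j := mul_one _
      have h9 := up_pos D (j * N) (x, y')
      have h10 := up_pos D (j * N) (x, y)
      exact mul_le_mul h4 h5 (by positivity) (by norm_num)
    have h4 : ‖e y' - e y‖ ^ 2 ≤ 0 := by
      have hl : Tendsto (fun j : ℕ => 4 * ((1 : ℝ) / 4) ^ j) atTop (𝓝 (4 * 0)) :=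
        (tendsto_pow_atTop_nhds_zero_of_lt_one (by norm_num) (by norm_num)).const_mul 4
      rw [mul_zero] at hl
      exact ge_of_tendsto' hl h3
    have h5 : ‖e y' - e y‖ = 0 := by
      have := norm_nonneg (e y' - e y)
      nlinarith [sq_nonneg ‖e y' - e y‖]
    exact e_inj (sub_eq_zero.1 (norm_eq_zero.1 h5))
  · obtain ⟨M, hM1, hM⟩ := exists_M D
    set μ : ℝ := (1 / 4 : ℝ) ^ ((N : ℝ)⁻¹) with hμ
    have hμN : μ ^ N = 1 / 4 := Real.rpow_inv_natCast_pow (by norm_num) hN.ne'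
    have hμ0 : 0 < μ := Real.rpow_pos_of_pos (by norm_num) _
    have hμ1 : μ < 1 := Real.rpow_lt_one (by norm_num) (by norm_num)
      (by positivity)
    refine ⟨4 * M ^ N, μ, by positivity, hμ0, hμ1, fun z hz n => ?_⟩
    refine (up_le D hM1 hM N hN z ((hmem z).1 hz).2 n).trans ?_
    have h1 : ((1 : ℝ) / 4) ^ (n / N) * μ ^ (n % N) = μ ^ n := by
      rw [← hμN, ← pow_mul, ← pow_add, Nat.div_add_mod]
    have h2 : (1 : ℝ) / 4 ≤ μ ^ (n % N) := by
      rw [← hμN]
      exact pow_le_pow_of_le_one hμ0.le hμ1.le (Nat.mod_lt _ hN).le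
    have h3 : 0 < ((1 : ℝ) / 4) ^ (n / N) := by positivity
    have h4 : 0 < M ^ N := by positivity
    have h5 : ((1 : ℝ) / 4) ^ (n / N) ≤ 4 * μ ^ n := by
      rw [← h1]
      nlinarith
    calc ((1 : ℝ) / 4) ^ (n / N) * M ^ N ≤ (4 * μ ^ n) * M ^ N := by gcongr
      _ = 4 * M ^ N * μ ^ n := by ring

end Pool.Agent.H728R2.OS
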