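import Pool.Agent.H728R2.OS.Base

open Set Filter Topology Complex Matrix
open scoped ComplexConjugate

namespace Pool.Agent.H728R2.OS

private lemma tra_det_su (a b : ℂ) (h : ‖a‖ ^ 2 - ‖b‖ ^ 2 = 1) : (su a b).det = 1 := by
  simp only [su, Matrix.det_fin_two_of]
  rw [Complex.mul_conj, Complex.mul_conj, Complex.normSq_eq_norm_sq, Complex.normSq_eq_norm_sq,
    ← Complex.ofReal_sub, h, Complex.ofReal_one]

private lemma tra_det_rot (θ : ℂ) : (rot θ).det = 1 := by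
  simp only [rot, Matrix.det_fin_two_of]
  rw [← Complex.exp_add]
  simp

/-- `pr` has determinant one. -/
theorem det_pr (a b : ℕ → ℂ) (h : ∀ j, ‖a j‖ ^ 2 - ‖b j‖ ^ 2 = 1) (θ : ℂ) (n : ℕ) :
    (pr a b θ n).det = 1 := by
  induction n with
  | zero => simp [pr]
  | succ n ih =>
    simp only [pr, Matrix.det_mul, ih, tra_det_rot, tra_det_su _ _ (h n), mul_one]

/-- The indefinite form `|v₀|² - |v₁|²`. -/
private noncomputable def traQ (v : Fin 2 → ℂ) : ℝ := ‖v 0‖ ^ 2 - ‖v 1‖ ^ 2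

private lemma traQ_eq (v : Fin 2 → ℂ) : traQ v = Complex.normSq (v 0) - Complex.normSq (v 1) := by
  simp [traQ, Complex.normSq_eq_norm_sq]

private lemma traQ_su (a b : ℂ) (h : ‖a‖ ^ 2 - ‖b‖ ^ 2 = 1) (v : Fin 2 → ℂ) :
    traQ ((su a b).mulVec v) = traQ v := by
  have h0 : (su a b).mulVec v 0 = a * v 0 + b * v 1 := by
    simp [su, Matrix.mulVec, dotProduct, Fin.sum_univ_two]
  have h1 : (su a b).mulVec v 1 = conj b * v 0 + conj a * v 1 := by
    simp [su, Matrix.mulVec, dotProduct, Fin.sum_univ_two]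
  have h' : Complex.normSq a - Complex.normSq b = 1 := by
    rw [Complex.normSq_eq_norm_sq, Complex.normSq_eq_norm_sq]; exact h
  rw [traQ_eq, traQ_eq, h0, h1]
  simp only [Complex.normSq_apply, Complex.add_re, Complex.mul_re, Complex.add_im, Complex.mul_im,
    Complex.conj_re, Complex.conj_im] at h' ⊢
  linear_combination ((v 0).re * (v 0).re + (v 0).im * (v 0).im -
    ((v 1).re * (v 1).re + (v 1).im * (v 1).im)) * h'

private lemma tra_norm_exp (θ : ℂ) :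
    ‖Complex.exp (Real.pi * θ * I)‖ = Real.exp (-(Real.pi * θ.im)) := by
  rw [Complex.norm_exp]
  congr 1
  simp [Complex.mul_re, Complex.mul_im]

private lemma tra_norm_exp' (θ : ℂ) :
    ‖Complex.exp (-(Real.pi * θ * I))‖ = Real.exp (Real.pi * θ.im) := by
  rw [Complex.norm_exp]
  congr 1
  simp [Complex.mul_re, Complex.mul_im]

private lemma traQ_rot (θ : ℂ) (v : Fin 2 → ℂ) :
    traQ ((rot θ).mulVec v) =
      Real.exp (-(Real.pi * θ.im)) ^ 2 * ‖v 0‖ ^ 2 - Real.exp (Real.pi * θ.im) ^ 2 * ‖v 1‖ ^ 2 := by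
  have h0 : (rot θ).mulVec v 0 = Complex.exp (Real.pi * θ * I) * v 0 := by
    simp [rot, Matrix.mulVec, dotProduct, Fin.sum_univ_two]
  have h1 : (rot θ).mulVec v 1 = Complex.exp (-(Real.pi * θ * I)) * v 1 := by
    simp [rot, Matrix.mulVec, dotProduct, Fin.sum_univ_two]
  rw [traQ, h0, h1, norm_mul, norm_mul, tra_norm_exp, tra_norm_exp', mul_pow, mul_pow]

private lemma tra_ne (v : Fin 2 → ℂ) (hv : v ≠ 0) : 0 < ‖v 0‖ ^ 2 ∨ 0 < ‖v 1‖ ^ 2 := by
  by_contra hcon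
  push Not at hcon
  apply hv
  ext i
  have h0 : ‖v 0‖ = 0 := by
    have := hcon.1
    have h2 := sq_nonneg ‖v 0‖
    exact pow_eq_zero_iff (two_ne_zero) |>.1 (le_antisymm this h2)
  have h1 : ‖v 1‖ = 0 := by
    have := hcon.2
    have h2 := sq_nonneg ‖v 1‖
    exact pow_eq_zero_iff (two_ne_zero) |>.1 (le_antisymm this h2)
  fin_cases i
  · simpa using norm_eq_zero.1 h0
  · simpa using norm_eq_zero.1 h1

private lemma traQ_rot_lt (θ : ℂ) (hθ : 0 < θ.im) (v : Fin 2 → ℂ) (hv : v ≠ 0) :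
    traQ ((rot θ).mulVec v) < traQ v := by
  rw [traQ_rot, traQ]
  have hp : 0 < Real.pi * θ.im := mul_pos Real.pi_pos hθ
  have e1 : Real.exp (-(Real.pi * θ.im)) ^ 2 < 1 := by
    have : Real.exp (-(Real.pi * θ.im)) < 1 := Real.exp_lt_one_iff.2 (by linarith)
    exact pow_lt_one₀ (Real.exp_pos _).le this two_ne_zero
  have e2 : 1 < Real.exp (Real.pi * θ.im) ^ 2 := by
    have : 1 < Real.exp (Real.pi * θ.im) := Real.one_lt_exp_iff.2 hp
    exact one_lt_pow₀ this two_ne_zero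
  have n0 := sq_nonneg ‖v 0‖
  have n1 := sq_nonneg ‖v 1‖
  rcases tra_ne v hv with h | h
  · nlinarith [mul_pos h (sub_pos.2 e1), mul_nonneg n1 (sub_pos.2 e2).le]
  · nlinarith [mul_nonneg n0 (sub_pos.2 e1).le, mul_pos h (sub_pos.2 e2)]

private lemma traQ_rot_gt (θ : ℂ) (hθ : θ.im < 0) (v : Fin 2 → ℂ) (hv : v ≠ 0) :
    traQ v < traQ ((rot θ).mulVec v) := by
  rw [traQ_rot, traQ]
  have hp : Real.pi * θ.im < 0 := mul_neg_of_pos_of_neg Real.pi_pos hθ
  have e1 : Real.exp (Real.pi * θ.im) ^ 2 < 1 := by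
    have : Real.exp (Real.pi * θ.im) < 1 := Real.exp_lt_one_iff.2 hp
    exact pow_lt_one₀ (Real.exp_pos _).le this two_ne_zero
  have e2 : 1 < Real.exp (-(Real.pi * θ.im)) ^ 2 := by
    have : 1 < Real.exp (-(Real.pi * θ.im)) := Real.one_lt_exp_iff.2 (by linarith)
    exact one_lt_pow₀ this two_ne_zero
  have n0 := sq_nonneg ‖v 0‖
  have n1 := sq_nonneg ‖v 1‖
  rcases tra_ne v hv with h | h
  · nlinarith [mul_pos h (sub_pos.2 e2), mul_nonneg n1 (sub_pos.2 e1).le]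
  · nlinarith [mul_nonneg n0 (sub_pos.2 e2).le, mul_pos h (sub_pos.2 e1)]

private lemma tra_mulVec_ne (M : Matrix (Fin 2) (Fin 2) ℂ) (hM : M.det = 1) (v : Fin 2 → ℂ)
    (hv : v ≠ 0) : M.mulVec v ≠ 0 := by
  intro h0
  have := (Matrix.exists_mulVec_eq_zero_iff (M := M)).1 ⟨v, hv, h0⟩
  rw [hM] at this
  exact one_ne_zero this

private lemma traQ_pr_lt (a b : ℕ → ℂ) (h : ∀ j, ‖a j‖ ^ 2 - ‖b j‖ ^ 2 = 1) (θ : ℂ)
    (hθ : 0 < θ.im) (v : Fin 2 → ℂ) (hv : v ≠ 0) (n : ℕ) :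
    traQ ((pr a b θ (n + 1)).mulVec v) < traQ v := by
  induction n with
  | zero =>
    have hs : (su (a 0) (b 0)).mulVec v ≠ 0 :=
      tra_mulVec_ne _ (tra_det_su _ _ (h 0)) v hv
    have := traQ_rot_lt θ hθ _ hs
    rw [traQ_su _ _ (h 0)] at this
    rw [Matrix.mulVec_mulVec] at this
    have e : pr a b θ (0 + 1) = rot θ * su (a 0) (b 0) := by
      simp only [pr, mul_one]
    rw [e]
    exact this
  | succ n ih =>
    refine lt_trans ?_ ih
    have hw : (pr a b θ (n + 1)).mulVec v ≠ 0 := tra_mulVec_ne _ (det_pr a b h θ _) v hv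
    have hs := tra_mulVec_ne _ (tra_det_su _ _ (h (n + 1))) _ hw
    have := traQ_rot_lt θ hθ _ hs
    rw [traQ_su _ _ (h (n + 1))] at this
    have e : (pr a b θ (n + 1 + 1)).mulVec v =
        (rot θ).mulVec ((su (a (n + 1)) (b (n + 1))).mulVec ((pr a b θ (n + 1)).mulVec v)) := by
      rw [Matrix.mulVec_mulVec, Matrix.mulVec_mulVec, pr]
    rw [e]
    exact this

private lemma traQ_pr_gt (a b : ℕ → ℂ) (h : ∀ j, ‖a j‖ ^ 2 - ‖b j‖ ^ 2 = 1) (θ : ℂ)
    (hθ : θ.im < 0) (v : Fin 2 → ℂ) (hv : v ≠ 0) (n : ℕ) :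
    traQ v < traQ ((pr a b θ (n + 1)).mulVec v) := by
  induction n with
  | zero =>
    have hs : (su (a 0) (b 0)).mulVec v ≠ 0 :=
      tra_mulVec_ne _ (tra_det_su _ _ (h 0)) v hv
    have := traQ_rot_gt θ hθ _ hs
    rw [traQ_su _ _ (h 0)] at this
    rw [Matrix.mulVec_mulVec] at this
    have e : pr a b θ (0 + 1) = rot θ * su (a 0) (b 0) := by
      simp only [pr, mul_one]
    rw [e]
    exact this
  | succ n ih =>
    refine lt_trans ih ?_
    have hw : (pr a b θ (n + 1)).mulVec v ≠ 0 := tra_mulVec_ne _ (det_pr a b h θ _) v hv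
    have hs := tra_mulVec_ne _ (tra_det_su _ _ (h (n + 1))) _ hw
    have := traQ_rot_gt θ hθ _ hs
    rw [traQ_su _ _ (h (n + 1))] at this
    have e : (pr a b θ (n + 1 + 1)).mulVec v =
        (rot θ).mulVec ((su (a (n + 1)) (b (n + 1))).mulVec ((pr a b θ (n + 1)).mulVec v)) := by
      rw [Matrix.mulVec_mulVec, Matrix.mulVec_mulVec, pr]
    rw [e]
    exact this

/-- Off the real axis there is no eigenvalue of modulus one. -/
theorem no_unimodular (a b : ℕ → ℂ) (h : ∀ j, ‖a j‖ ^ 2 - ‖b j‖ ^ 2 = 1) (k : ℕ) (hk : 0 < k)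
    (θ : ℂ) (hθ : θ.im ≠ 0) (l : ℂ) (hl : ‖l‖ = 1) :
    (pr a b θ k - l • (1 : Matrix (Fin 2) (Fin 2) ℂ)).det ≠ 0 := by
  intro hdet
  obtain ⟨v, hv, hv0⟩ := (Matrix.exists_mulVec_eq_zero_iff
    (M := pr a b θ k - l • (1 : Matrix (Fin 2) (Fin 2) ℂ))).2 hdet
  rw [Matrix.sub_mulVec, Matrix.smul_mulVec, Matrix.one_mulVec, sub_eq_zero] at hv0
  obtain ⟨n, rfl⟩ : ∃ n, k = n + 1 := ⟨k - 1, by omega⟩
  have hq : traQ ((pr a b θ (n + 1)).mulVec v) = traQ v := by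
    rw [hv0, traQ, traQ]
    simp [hl]
  rcases lt_or_gt_of_ne hθ with h' | h'
  · exact absurd hq (ne_of_gt (traQ_pr_gt a b h θ h' v hv n))
  · exact absurd hq (ne_of_lt (traQ_pr_lt a b h θ h' v hv n))

private lemma tra_charpoly (M : Matrix (Fin 2) (Fin 2) ℂ) (hM : M.det = 1) (l : ℂ) :
    (M - l • (1 : Matrix (Fin 2) (Fin 2) ℂ)).det = l ^ 2 - M.trace * l + 1 := by
  rw [Matrix.det_fin_two] at hM ⊢
  rw [Matrix.trace_fin_two]
  simp [Matrix.sub_apply, Matrix.smul_apply]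
  linear_combination hM

/-- A matrix of determinant one has an eigenvalue of modulus one iff its trace is in `[-2, 2]`. -/
theorem unimodular_iff (M : Matrix (Fin 2) (Fin 2) ℂ) (hM : M.det = 1) :
    (∃ l : ℂ, ‖l‖ = 1 ∧ (M - l • (1 : Matrix (Fin 2) (Fin 2) ℂ)).det = 0) ↔
      ∃ t : ℝ, |t| ≤ 2 ∧ M.trace = t := by
  constructor
  · rintro ⟨l, hl, h0⟩
    rw [tra_charpoly M hM] at h0
    have hl0 : l ≠ 0 := by
      rintro rfl
      simp at hl
    have hc : l * conj l = 1 := by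
      rw [Complex.mul_conj, Complex.normSq_eq_norm_sq, hl]; simp
    have ht : M.trace = l + conj l := by
      have : l * M.trace = l * (l + conj l) := by
        linear_combination -h0 - hc
      exact mul_left_cancel₀ hl0 this
    refine ⟨2 * l.re, ?_, ?_⟩
    · rw [abs_mul, abs_two]
      have := Complex.abs_re_le_norm l
      rw [hl] at this
      linarith
    · rw [ht, Complex.add_conj]
  · rintro ⟨t, ht, htr⟩
    have h4 : 0 ≤ 1 - t ^ 2 / 4 := by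
      have := (sq_le_sq' (by linarith [(abs_le.1 ht).1]) (abs_le.1 ht).2 : t ^ 2 ≤ 2 ^ 2)
      linarith
    set s : ℝ := Real.sqrt (1 - t ^ 2 / 4) with hs
    have hss : s ^ 2 = 1 - t ^ 2 / 4 := Real.sq_sqrt h4
    refine ⟨(⟨t / 2, s⟩ : ℂ), ?_, ?_⟩
    · have : ‖(⟨t / 2, s⟩ : ℂ)‖ ^ 2 = 1 := by
        rw [← Complex.normSq_eq_norm_sq, Complex.normSq_mk]
        nlinarith
      have h1 : (0 : ℝ) ≤ ‖(⟨t / 2, s⟩ : ℂ)‖ := norm_nonneg _
      nlinarith
    · rw [tra_charpoly M hM, htr]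
      apply Complex.ext
      · simp [pow_two]
        nlinarith
      · simp [pow_two]
        ring

private lemma tra_rot_real (θ : ℝ) :
    ∃ w : ℂ, ‖w‖ = 1 ∧ rot (θ : ℂ) = su w 0 := by
  refine ⟨Complex.exp (Real.pi * θ * I), ?_, ?_⟩
  · have : (Real.pi * θ * I : ℂ) = ((Real.pi * θ : ℝ) : ℂ) * I := by push_cast; ring
    rw [this, Complex.norm_exp_ofReal_mul_I]
  · rw [rot, su, ← Complex.exp_conj]
    congr 2
    simp

private lemma tra_su_mul (a b c d : ℂ) :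
    su a b * su c d = su (a * c + b * conj d) (a * d + b * conj c) := by
  ext i j
  fin_cases i <;> fin_cases j <;> simp [su, Matrix.mul_apply, Fin.sum_univ_two] <;> ring

private lemma tra_su_norm (a b c d : ℂ) (h : ‖a‖ ^ 2 - ‖b‖ ^ 2 = 1) (h' : ‖c‖ ^ 2 - ‖d‖ ^ 2 = 1) :
    ‖a * c + b * conj d‖ ^ 2 - ‖a * d + b * conj c‖ ^ 2 = 1 := by
  have h1 : Complex.normSq a - Complex.normSq b = 1 := by
    rw [Complex.normSq_eq_norm_sq, Complex.normSq_eq_norm_sq]; exact h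
  have h2 : Complex.normSq c - Complex.normSq d = 1 := by
    rw [Complex.normSq_eq_norm_sq, Complex.normSq_eq_norm_sq]; exact h'
  rw [← Complex.normSq_eq_norm_sq, ← Complex.normSq_eq_norm_sq]
  simp only [Complex.normSq_apply, Complex.add_re, Complex.mul_re, Complex.add_im, Complex.mul_im,
    Complex.conj_re, Complex.conj_im] at h1 h2 ⊢
  linear_combination (c.re * c.re + c.im * c.im - (d.re * d.re + d.im * d.im)) * h1 + h2

/-- For real `θ` the product is again a matrix of `SU(1,1)`. -/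
theorem pr_real (a b : ℕ → ℂ) (h : ∀ j, ‖a j‖ ^ 2 - ‖b j‖ ^ 2 = 1) (θ : ℝ) (n : ℕ) :
    ∃ α β : ℂ, ‖α‖ ^ 2 - ‖β‖ ^ 2 = 1 ∧ pr a b θ n = su α β := by
  obtain ⟨w, hw, hrot⟩ := tra_rot_real θ
  have hw' : ‖w‖ ^ 2 - ‖(0 : ℂ)‖ ^ 2 = 1 := by rw [hw]; simp
  induction n with
  | zero =>
    refine ⟨1, 0, by simp, ?_⟩
    ext i j
    fin_cases i <;> fin_cases j <;> simp [su, pr]
  | succ n ih =>
    obtain ⟨α, β, hαβ, hpr⟩ := ih
    rw [pr, hrot, tra_su_mul, hpr, tra_su_mul]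
    exact ⟨_, _, tra_su_norm _ _ _ _ (tra_su_norm _ _ _ _ hw' (h n)) hαβ, rfl⟩

end Pool.Agent.H728R2.OS
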