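import Pool.Agent.H728R2.OS.Base

open Set Filter Topology Complex Matrix
open scoped ComplexConjugate

namespace Pool.Agent.H728R2.OS

private theorem TRB_diff (a b : ℕ → ℂ) (n : ℕ) :
    ∀ i j, Differentiable ℂ (fun θ : ℂ => pr a b θ n i j) := by
  have h1 : Differentiable ℂ (fun θ : ℂ => Complex.exp (Real.pi * θ * I)) := by fun_prop
  have h2 : Differentiable ℂ (fun θ : ℂ => Complex.exp (-(Real.pi * θ * I))) := by fun_prop
  induction n with
  | zero =>
    intro i j
    simp only [pr]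
    exact differentiable_const _
  | succ n ih =>
    intro i j
    have e : (fun θ : ℂ => pr a b θ (n + 1) i j) = fun θ =>
        ∑ l, (∑ m, rot θ i m * su (a n) (b n) m l) * pr a b θ n l j := by
      funext θ
      simp only [pr, Matrix.mul_apply]
    rw [e]
    refine Differentiable.fun_sum fun l _ => ?_
    refine Differentiable.mul (Differentiable.fun_sum fun m _ => ?_) (ih l j)
    refine Differentiable.mul_const ?_ _
    fin_cases i <;> fin_cases m
    · simpa [rot] using h1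
    · simp [rot]
    · simp [rot]
    · simpa [rot] using h2

private theorem TRB_ch (M : Matrix (Fin 2) (Fin 2) ℂ) :
    M * M = M.trace • M - M.det • (1 : Matrix (Fin 2) (Fin 2) ℂ) := by
  ext i j
  fin_cases i <;> fin_cases j <;>
    simp [Matrix.mul_apply, Matrix.det_fin_two, Matrix.trace_fin_two, Fin.sum_univ_two] <;> ring

private theorem TRB_pow (M : Matrix (Fin 2) (Fin 2) ℂ) (α : ℝ) (hdet : M.det = 1)
    (htr : M.trace = ((2 * Real.cos α : ℝ) : ℂ)) (n : ℕ) :
    ((Real.sin α : ℝ) : ℂ) • M ^ n = ((Real.sin (n * α) : ℝ) : ℂ) • M -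
      ((Real.sin ((n - 1) * α) : ℝ) : ℂ) • (1 : Matrix (Fin 2) (Fin 2) ℂ) := by
  induction n with
  | zero =>
    simp
  | succ n ih =>
    have hsin : Real.sin (((n + 1 : ℕ) : ℝ) * α) =
        2 * Real.cos α * Real.sin (n * α) - Real.sin ((n - 1) * α) := by
      have e1 : ((n + 1 : ℕ) : ℝ) * α = n * α + α := by push_cast; ring
      have e2 : ((n : ℝ) - 1) * α = n * α - α := by ring
      rw [e1, e2, Real.sin_add, Real.sin_sub]
      ring
    have e3 : (((n + 1 : ℕ) : ℝ) - 1) * α = n * α := by push_cast; ring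
    rw [pow_succ, ← smul_mul_assoc, ih, sub_mul, smul_mul_assoc, smul_mul_assoc, one_mul,
      TRB_ch M, hdet, htr, hsin, e3]
    push_cast
    module

private theorem TRB_rat (t₀ : ℝ) (ht₀ : |t₀| ≤ 2) (ε : ℝ) (hε : 0 < ε) :
    ∃ r : ℚ, 0 < r ∧ r < 1 ∧ |2 * Real.cos (Real.pi * r) - t₀| < ε := by
  rw [abs_le] at ht₀
  set x₀ : ℝ := Real.arccos (t₀ / 2) / Real.pi with hx₀
  have hpi := Real.pi_pos
  have hx1 : x₀ ∈ Set.Icc (0 : ℝ) 1 := by
    constructor
    · exact div_nonneg (Real.arccos_nonneg _) hpi.le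
    · rw [hx₀, div_le_one hpi]
      exact Real.arccos_le_pi _
  have hx2 : 2 * Real.cos (Real.pi * x₀) = t₀ := by
    rw [hx₀, mul_div_cancel₀ _ hpi.ne', Real.cos_arccos (by linarith) (by linarith)]
    ring
  have hc : Continuous (fun x : ℝ => |2 * Real.cos (Real.pi * x) - t₀|) := by fun_prop
  have ho : IsOpen {x : ℝ | |2 * Real.cos (Real.pi * x) - t₀| < ε} :=
    isOpen_lt hc continuous_const
  have hmem : x₀ ∈ {x : ℝ | |2 * Real.cos (Real.pi * x) - t₀| < ε} := by
    show |2 * Real.cos (Real.pi * x₀) - t₀| < ε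
    rw [hx2, sub_self, abs_zero]
    exact hε
  have hcl : x₀ ∈ closure (Set.Ioo (0 : ℝ) 1) := by
    rw [closure_Ioo (by norm_num)]
    exact hx1
  obtain ⟨y, hy1, hy2⟩ := mem_closure_iff.1 hcl _ ho hmem
  obtain ⟨r, hx⟩ := (Rat.denseRange_cast (𝕜 := ℝ)).exists_mem_open
    (ho.inter isOpen_Ioo) ⟨y, hy1, hy2⟩
  refine ⟨r, ?_, ?_, hx.1⟩
  · exact_mod_cast hx.2.1
  · exact_mod_cast hx.2.2

/-- If the trace is in `[-2, 2]` for the real parameter `θ₀` then there are arbitrarily close real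
parameters for which the product has finite order. The hypothesis `hoff` says that for nonreal
parameters the trace is never in `[-2, 2]`. -/
theorem exists_finite_order (a b : ℕ → ℂ) (k : ℕ)
    (hdet : ∀ θ : ℂ, (pr a b θ k).det = 1)
    (hoff : ∀ θ : ℂ, θ.im ≠ 0 → ∀ t : ℝ, |t| ≤ 2 → (pr a b θ k).trace ≠ t)
    (θ₀ : ℝ) (t₀ : ℝ) (ht₀ : |t₀| ≤ 2) (h₀ : (pr a b θ₀ k).trace = t₀) (δ : ℝ) (hδ : 0 < δ) :
    ∃ θ₁ : ℝ, |θ₁ - θ₀| < δ ∧ ∃ q : ℕ, 0 < q ∧ (pr a b θ₁ k) ^ q = 1 := by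
  set g : ℂ → ℂ := fun θ => (pr a b θ k).trace with hg
  have hgd : Differentiable ℂ g := by
    have e : g = fun θ => pr a b θ k 0 0 + pr a b θ k 1 1 := by
      funext θ
      simp [hg, Matrix.trace_fin_two]
    rw [e]
    exact (TRB_diff a b k 0 0).add (TRB_diff a b k 1 1)
  have hga : AnalyticAt ℂ g θ₀ := hgd.analyticAt _
  have hmap : 𝓝 (g θ₀) ≤ map g (𝓝 (θ₀ : ℂ)) := by
    rcases hga.eventually_constant_or_nhds_le_map_nhds with h | h
    · exfalso
      rw [Metric.eventually_nhds_iff] at h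
      obtain ⟨η, hη, h⟩ := h
      have h1 : dist ((θ₀ : ℂ) + (η / 2 : ℝ) * I) θ₀ < η := by
        rw [dist_eq_norm, add_sub_cancel_left, norm_mul, Complex.norm_I, mul_one,
          Complex.norm_real, Real.norm_eq_abs, abs_of_pos (by positivity)]
        linarith
      have h2 := h h1
      refine hoff ((θ₀ : ℂ) + (η / 2 : ℝ) * I) ?_ t₀ ht₀ ?_
      · simp
        exact hη.ne'
      · exact h2.trans h₀
    · exact h
  have hball : g '' Metric.ball (θ₀ : ℂ) δ ∈ 𝓝 (g θ₀) :=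
    hmap (Filter.image_mem_map (Metric.ball_mem_nhds _ hδ))
  rw [Metric.mem_nhds_iff] at hball
  obtain ⟨ε, hε, hsub⟩ := hball
  obtain ⟨r, hr0, hr1, hr⟩ := TRB_rat t₀ ht₀ ε hε
  have hmem : (((2 * Real.cos (Real.pi * r) : ℝ)) : ℂ) ∈ Metric.ball (g θ₀) ε := by
    have : g θ₀ = ((t₀ : ℝ) : ℂ) := h₀
    rw [Metric.mem_ball, this, dist_eq_norm, ← Complex.ofReal_sub, Complex.norm_real,
      Real.norm_eq_abs]
    exact hr
  obtain ⟨θ, hθ, hgθ⟩ := hsub hmem
  have hθim : θ.im = 0 := by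
    by_contra h
    refine hoff θ h _ ?_ hgθ
    rw [abs_mul, abs_of_pos (by norm_num : (0 : ℝ) < 2)]
    have := Real.abs_cos_le_one (Real.pi * r)
    linarith
  have hθre : ((θ.re : ℝ) : ℂ) = θ := by
    apply Complex.ext <;> simp [hθim]
  refine ⟨θ.re, ?_, 2 * r.den, by have := r.den_pos; omega, ?_⟩
  · rw [Metric.mem_ball, ← hθre, dist_eq_norm, ← Complex.ofReal_sub, Complex.norm_real,
      Real.norm_eq_abs] at hθ
    exact hθ
  · rw [hθre]
    have hpow := TRB_pow (pr a b θ k) (Real.pi * r) (hdet θ) hgθ (2 * r.den)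
    have hden : (r.den : ℝ) * (r : ℝ) = r.num := by
      exact_mod_cast Rat.den_mul_eq_num r
    have e1 : ((2 * r.den : ℕ) : ℝ) * (Real.pi * r) = r.num * (2 * Real.pi) := by
      push_cast
      linear_combination 2 * Real.pi * hden
    have e2 : (((2 * r.den : ℕ) : ℝ) - 1) * (Real.pi * r) =
        -(Real.pi * r) + r.num * (2 * Real.pi) := by
      linear_combination e1
    have s1 : Real.sin (((2 * r.den : ℕ) : ℝ) * (Real.pi * r)) = 0 := by
      have := Real.sin_add_int_mul_two_pi 0 r.num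
      rw [zero_add, Real.sin_zero] at this
      rw [e1, this]
    have s2 : Real.sin ((((2 * r.den : ℕ) : ℝ) - 1) * (Real.pi * r)) =
        -Real.sin (Real.pi * r) := by
      rw [e2, Real.sin_add_int_mul_two_pi, Real.sin_neg]
    rw [s1, s2] at hpow
    have hs : 0 < Real.sin (Real.pi * r) := by
      apply Real.sin_pos_of_pos_of_lt_pi
      · have : (0 : ℝ) < r := by exact_mod_cast hr0
        positivity
      · have : (r : ℝ) < 1 := by exact_mod_cast hr1
        nlinarith [Real.pi_pos]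
    have hs' : ((Real.sin (Real.pi * r) : ℝ) : ℂ) ≠ 0 := by exact_mod_cast hs.ne'
    have h3 : ((Real.sin (Real.pi * r) : ℝ) : ℂ) • (pr a b θ k) ^ (2 * r.den) =
        ((Real.sin (Real.pi * r) : ℝ) : ℂ) • (1 : Matrix (Fin 2) (Fin 2) ℂ) := by
      rw [hpow]
      simp
    exact smul_right_injective _ hs' h3

end Pool.Agent.H728R2.OS
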