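import Pool.Agent.H728R2.OS.Base

open Set Filter Topology Complex Matrix
open scoped ComplexConjugate

namespace Pool.Agent.H728R2.OS

private lemma trc_diff (a b : ℕ → ℂ) (k : ℕ) (i j : Fin 2) :
    Differentiable ℂ (fun θ : ℂ => pr a b θ k i j) := by
  induction k generalizing i j with
  | zero =>
    simp only [pr]
    exact differentiable_const _
  | succ k ih =>
    have h0 : Differentiable ℂ (fun θ : ℂ => Complex.exp (Real.pi * θ * I)) := by fun_prop
    have h1 : Differentiable ℂ (fun θ : ℂ => Complex.exp (-(Real.pi * θ * I))) := by fun_prop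
    have ih0 := ih 0 j
    have ih1 := ih 1 j
    fin_cases i
    · have e : (fun θ : ℂ => pr a b θ (k + 1) 0 j) = fun θ =>
          Complex.exp (Real.pi * θ * I) * (a k * pr a b θ k 0 j + b k * pr a b θ k 1 j) := by
        funext θ
        simp only [pr, rot, su, Matrix.mul_apply, Fin.sum_univ_two, Matrix.of_apply,
          Matrix.cons_val_zero, Matrix.cons_val_one, Matrix.cons_val', Matrix.cons_val_fin_one]
        ring
      show Differentiable ℂ (fun θ : ℂ => pr a b θ (k + 1) 0 j)
      rw [e]
      exact h0.mul ((ih0.const_mul _).add (ih1.const_mul _))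
    · have e : (fun θ : ℂ => pr a b θ (k + 1) 1 j) = fun θ =>
          Complex.exp (-(Real.pi * θ * I)) *
            (conj (b k) * pr a b θ k 0 j + conj (a k) * pr a b θ k 1 j) := by
        funext θ
        simp only [pr, rot, su, Matrix.mul_apply, Fin.sum_univ_two, Matrix.of_apply,
          Matrix.cons_val_zero, Matrix.cons_val_one, Matrix.cons_val', Matrix.cons_val_fin_one]
        ring
      show Differentiable ℂ (fun θ : ℂ => pr a b θ (k + 1) 1 j)
      rw [e]
      exact h1.mul ((ih0.const_mul _).add (ih1.const_mul _))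

/-- The trace is `2` or `-2` for at most countably many real parameters. The hypothesis `hoff` says
that for nonreal parameters the trace is never in `[-2, 2]`. -/
theorem countable_parabolic (a b : ℕ → ℂ) (k : ℕ)
    (hoff : ∀ θ : ℂ, θ.im ≠ 0 → ∀ t : ℝ, |t| ≤ 2 → (pr a b θ k).trace ≠ t) :
    {θ : ℝ | (pr a b θ k).trace = 2 ∨ (pr a b θ k).trace = -2}.Countable := by
  set g : ℂ → ℂ := fun θ => ((pr a b θ k).trace - 2) * ((pr a b θ k).trace + 2) with hg
  have htr : Differentiable ℂ (fun θ : ℂ => (pr a b θ k).trace) := by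
    simp only [Matrix.trace, Fin.sum_univ_two, Matrix.diag_apply]
    exact (trc_diff a b k 0 0).add (trc_diff a b k 1 1)
  have hgd : Differentiable ℂ g := (htr.sub_const _).mul (htr.add_const _)
  have hga : AnalyticOnNhd ℂ g Set.univ := fun z _ => hgd.analyticAt z
  have hI : g I ≠ 0 := by
    have h1 := hoff I (by simp) 2 (by simp)
    have h2 := hoff I (by simp) (-2) (by simp)
    intro h0
    rcases mul_eq_zero.1 h0 with h | h
    · exact h1 (by push_cast; linear_combination h)
    · exact h2 (by push_cast; linear_combination h)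
  -- zeros of `g` are isolated
  have hiso : ∀ z : ℂ, ∀ᶠ w in 𝓝[≠] z, g w ≠ 0 := by
    intro z
    rcases (hga z (mem_univ z)).eventually_eq_zero_or_eventually_ne_zero with h | h
    · exfalso
      have h1 := hga.eqOn_zero_of_preconnected_of_eventuallyEq_zero isPreconnected_univ
        (mem_univ z) h
      exact hI (h1 (mem_univ I))
    · exact h
  -- real version
  have hisoR : ∀ x : ℝ, ∀ᶠ (y : ℝ) in 𝓝[≠] x, g (y : ℂ) ≠ 0 := by
    intro x
    have ht : Tendsto (fun y : ℝ => (y : ℂ)) (𝓝[≠] x) (𝓝[≠] (x : ℂ)) := by
      apply tendsto_nhdsWithin_of_tendsto_nhds_of_eventually_within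
      · exact (Complex.continuous_ofReal.tendsto x).mono_left nhdsWithin_le_nhds
      · filter_upwards [self_mem_nhdsWithin] with y hy
        simpa using hy
    exact ht.eventually (hiso x)
  set Z : Set ℝ := {x | g (x : ℂ) = 0} with hZ
  have hsub : {θ : ℝ | (pr a b θ k).trace = 2 ∨ (pr a b θ k).trace = -2} ⊆ Z := by
    rintro θ (h | h)
    · simp [hZ, hg, h]
    · simp [hZ, hg, h]
  refine Set.Countable.mono hsub ?_
  have hdisc : DiscreteTopology Z := by
    rw [discreteTopology_subtype_iff]
    intro x _
    have h1 := hisoR x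
    rw [Filter.inf_principal_eq_bot]
    filter_upwards [h1] with y hy
    exact hy
  exact Set.countable_coe_iff.1 (countable_of_Lindelof_of_discrete (X := Z))

end Pool.Agent.H728R2.OS
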