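import Pool.Agent.H728R2.OS.Base

open Set Filter Topology Complex Matrix
open scoped ComplexConjugate

namespace Pool.Agent.H728R2.OS

private theorem norm_one_sub_exp (φ : ℝ) (h : |φ| ≤ Real.pi) :
    2 * (|φ| / Real.pi) ≤ ‖(1 : ℂ) - Complex.exp (φ * I)‖ := by
  have e1 : ‖(1 : ℂ) - Complex.exp (φ * I)‖ = ‖2 * Real.sin (φ / 2)‖ := by
    rw [← Complex.norm_exp_I_mul_ofReal_sub_one, norm_sub_rev, mul_comm]
  have e2 : ‖2 * Real.sin (φ / 2)‖ = 2 * |Real.sin (φ / 2)| := by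
    rw [norm_mul]; simp
  have e3 : |φ| / Real.pi ≤ |Real.sin (φ / 2)| := by
    have h0 : 0 ≤ |φ| / 2 := by positivity
    have h1 : |φ| / 2 ≤ Real.pi / 2 := by linarith
    have h2 := Real.mul_le_sin h0 h1
    have h3 : Real.sin (|φ| / 2) ≤ |Real.sin (φ / 2)| := by
      rcases abs_cases φ with ⟨h4, _⟩ | ⟨h4, _⟩
      · rw [h4]; exact le_abs_self _
      · rw [h4, neg_div, Real.sin_neg]; exact neg_le_abs _
    have h4 : 2 / Real.pi * (|φ| / 2) = |φ| / Real.pi := by ring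
    linarith
  rw [e1, e2]
  linarith

/-- An isometry without eigenvalues on an arc around `1`. -/
theorem isometry_gap {E : Type*} [NormedAddCommGroup E] [InnerProductSpace ℂ E]
    [FiniteDimensional ℂ E] (W : E →ₗ[ℂ] E) (hW : ∀ ψ, ‖W ψ‖ = ‖ψ‖) (ε : ℝ) (hε : 0 < ε)
    (hε1 : ε ≤ 1)
    (h : ∀ θ : ℝ, |θ| < ε → ∀ ψ : E, Complex.exp (Real.pi * θ * I) • W ψ = ψ → ψ = 0) (ψ : E) :
    2 * ε * ‖ψ‖ ≤ ‖ψ - W ψ‖ := by
  by_cases hψ : ψ = 0
  · simp [hψ]
  have : Nontrivial E := ⟨⟨ψ, 0, hψ⟩⟩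
  set D : E →ₗ[ℂ] E := 1 - W with hD
  have hDv : ∀ x, D x = x - W x := fun x => by simp [hD]
  set H : E →ₗ[ℂ] E := LinearMap.adjoint D * D with hH
  have hHs : H.IsSymmetric := LinearMap.isSymmetric_adjoint_mul_self D
  have hHin : ∀ x, inner ℂ (H x) x = ((‖D x‖ ^ 2 : ℝ) : ℂ) := by
    intro x
    rw [hH, Module.End.mul_apply, LinearMap.adjoint_inner_left, inner_self_eq_norm_sq_to_K]
    simp
  have hinner : ∀ x y, inner ℂ (W x) (W y) = inner ℂ x y :=
    (LinearMap.norm_map_iff_inner_map_map W).1 hW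
  have hWW : LinearMap.adjoint W * W = 1 := by
    ext x
    apply ext_inner_right ℂ
    intro y
    rw [Module.End.mul_apply, LinearMap.adjoint_inner_left, hinner]
    simp
  have hWW' : W * LinearMap.adjoint W = 1 := mul_eq_one_comm.1 hWW
  have hadj : LinearMap.adjoint D = 1 - LinearMap.adjoint W := by
    rw [hD, map_sub]
    congr 1
    ext x
    apply ext_inner_right ℂ
    intro y
    rw [LinearMap.adjoint_inner_left]
    simp
  have hcomm : Commute H W := by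
    unfold Commute SemiconjBy
    rw [hH, hadj, hD]
    have e1 : (1 - LinearMap.adjoint W) * (1 - W) * W =
        W - W * W - LinearMap.adjoint W * W + (LinearMap.adjoint W * W) * W := by noncomm_ring
    have e2 : W * ((1 - LinearMap.adjoint W) * (1 - W)) =
        W - W * W - W * LinearMap.adjoint W + (W * LinearMap.adjoint W) * W := by noncomm_ring
    rw [e1, e2, hWW, hWW']
  set μ : ℝ := ⨅ x : {x : E // x ≠ 0}, RCLike.re (inner ℂ (H x) (x : E)) / ‖(x : E)‖ ^ 2 with hμ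
  have hev : Module.End.HasEigenvalue H (μ : ℂ) := hHs.hasEigenvalue_iInf_of_finiteDimensional
  -- an eigenvector of `W` in the eigenspace of `H`
  obtain ⟨u, hu0, huH, ζ, huW⟩ : ∃ u : E, u ≠ 0 ∧ H u = (μ : ℂ) • u ∧ ∃ ζ : ℂ, W u = ζ • u := by
    have hmaps : ∀ x ∈ Module.End.eigenspace H (μ : ℂ), W x ∈ Module.End.eigenspace H (μ : ℂ) := by
      intro x hx
      rw [Module.End.mem_eigenspace_iff] at hx ⊢
      have : H (W x) = W (H x) := by
        have := congrArg (fun f : Module.End ℂ E => f x) hcomm.eq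
        simpa [Module.End.mul_apply] using this
      rw [this, hx, map_smul]
    have : Nontrivial (Module.End.eigenspace H (μ : ℂ)) := by
      rw [Submodule.nontrivial_iff_ne_bot]
      exact hev
    obtain ⟨ζ, hζ⟩ := Module.End.exists_eigenvalue (W.restrict hmaps)
    obtain ⟨u, hu⟩ := hζ.exists_hasEigenvector
    refine ⟨u, fun h0 => hu.2 (Subtype.ext h0), ?_, ζ, ?_⟩
    · exact Module.End.mem_eigenspace_iff.1 u.2
    · have := hu.apply_eq_smul
      exact congrArg Subtype.val this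
  have hun : 0 < ‖u‖ := norm_pos_iff.2 hu0
  have hζ : ‖ζ‖ = 1 := by
    have := hW u
    rw [huW, norm_smul] at this
    have h2 : (‖ζ‖ - 1) * ‖u‖ = 0 := by linarith
    rcases mul_eq_zero.1 h2 with h3 | h3
    · linarith
    · exact absurd h3 hun.ne'
  have hζe : ζ = Complex.exp (Complex.arg ζ * I) := by
    have := Complex.norm_mul_exp_arg_mul_I ζ
    rw [hζ] at this
    simpa using this.symm
  set φ : ℝ := Complex.arg ζ with hφ
  have hφ1 : |φ| ≤ Real.pi := Complex.abs_arg_le_pi ζ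
  have hθ : ε ≤ |φ| / Real.pi := by
    by_contra hc
    push Not at hc
    apply hu0
    apply h (-(φ / Real.pi))
    · rwa [abs_neg, abs_div, abs_of_pos Real.pi_pos]
    · rw [huW, smul_smul]
      have : Complex.exp (Real.pi * ((-(φ / Real.pi) : ℝ) : ℂ) * I) * ζ = 1 := by
        rw [hζe, ← Complex.exp_add]
        have : (Real.pi : ℂ) * ((-(φ / Real.pi) : ℝ) : ℂ) * I + (φ : ℂ) * I = 0 := by
          have hpi : (Real.pi : ℂ) ≠ 0 := by exact_mod_cast Real.pi_ne_zero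
          push_cast
          field_simp
          ring
        rw [this, Complex.exp_zero]
      rw [this, one_smul]
  have hgap : 2 * ε ≤ ‖(1 : ℂ) - ζ‖ := by
    have := norm_one_sub_exp φ hφ1
    rw [← hζe] at this
    linarith
  have hμval : μ = ‖(1 : ℂ) - ζ‖ ^ 2 := by
    have e1 := hHin u
    rw [huH, inner_smul_left, inner_self_eq_norm_sq_to_K, hDv, huW] at e1
    have e2 : u - ζ • u = ((1 : ℂ) - ζ) • u := by rw [sub_smul, one_smul]
    rw [e2, norm_smul] at e1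
    have e3 : (μ : ℂ) * ((‖u‖ ^ 2 : ℝ) : ℂ) = (((‖(1 : ℂ) - ζ‖ * ‖u‖) ^ 2 : ℝ) : ℂ) := by
      rw [← e1]
      simp
    have e4 : μ * ‖u‖ ^ 2 = (‖(1 : ℂ) - ζ‖ * ‖u‖) ^ 2 := by exact_mod_cast e3
    rw [mul_pow] at e4
    exact mul_right_cancel₀ (pow_ne_zero 2 hun.ne') e4
  have hle : μ ≤ ‖D ψ‖ ^ 2 / ‖ψ‖ ^ 2 := by
    have hb : BddBelow (Set.range fun x : {x : E // x ≠ 0} =>
        RCLike.re (inner ℂ (H x) (x : E)) / ‖(x : E)‖ ^ 2) := by
      refine ⟨0, ?_⟩
      rintro _ ⟨x, rfl⟩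
      have : RCLike.re (inner ℂ (H x) (x : E)) = ‖D x‖ ^ 2 := by
        rw [hHin]; exact Complex.ofReal_re _
      simp only [this]
      positivity
    have := ciInf_le hb ⟨ψ, hψ⟩
    have e : RCLike.re (inner ℂ (H ψ) ψ) = ‖D ψ‖ ^ 2 := by
      rw [hHin]; exact Complex.ofReal_re _
    simp only [e] at this
    exact this
  have hψn : 0 < ‖ψ‖ := norm_pos_iff.2 hψ
  rw [le_div_iff₀ (by positivity)] at hle
  have hfin : (2 * ε * ‖ψ‖) ^ 2 ≤ ‖D ψ‖ ^ 2 := by
    calc (2 * ε * ‖ψ‖) ^ 2 = (2 * ε) ^ 2 * ‖ψ‖ ^ 2 := by ring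
      _ ≤ ‖(1 : ℂ) - ζ‖ ^ 2 * ‖ψ‖ ^ 2 := by
          apply mul_le_mul_of_nonneg_right _ (by positivity)
          exact pow_le_pow_left₀ (by positivity) hgap 2
      _ = μ * ‖ψ‖ ^ 2 := by rw [hμval]
      _ ≤ _ := hle
  rw [← hDv]
  exact le_of_sq_le_sq hfin (norm_nonneg _)

end Pool.Agent.H728R2.OS
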