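import Pool.Agent.H728R2.OS.Base

open Set Filter Topology Complex Matrix
open scoped ComplexConjugate

namespace Pool.Agent.H728R2.OS

private theorem unit_id (a b p q : ℂ) (h : ‖a‖ ^ 2 - ‖b‖ ^ 2 = 1) :
    ‖(conj a)⁻¹ * (p + b * q)‖ ^ 2 + ‖(conj a)⁻¹ * (-(conj b * p) + q)‖ ^ 2 =
      ‖p‖ ^ 2 + ‖q‖ ^ 2 := by
  have ha : 0 < ‖a‖ ^ 2 := by nlinarith [sq_nonneg ‖b‖]
  have key : ‖p + b * q‖ ^ 2 + ‖-(conj b * p) + q‖ ^ 2 = ‖a‖ ^ 2 * (‖p‖ ^ 2 + ‖q‖ ^ 2) := by
    have ha' : ‖a‖ ^ 2 = 1 + ‖b‖ ^ 2 := by linarith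
    rw [ha']
    simp only [← Complex.normSq_eq_norm_sq, Complex.normSq_apply, Complex.add_re, Complex.add_im,
      Complex.mul_re, Complex.mul_im, Complex.neg_re, Complex.neg_im, Complex.conj_re,
      Complex.conj_im]
    ring
  rw [norm_mul, norm_mul, norm_inv, Complex.norm_conj, mul_pow, mul_pow, ← mul_add, key, inv_pow,
    ← mul_assoc, inv_mul_cancel₀ ha.ne', one_mul]

/-- The quantum walk with scattering matrices `(1 / conj a) [[1, b], [-conj b, 1]]`, on sequences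
`ψ (j, 0) = p_j`, `ψ (j, 1) = q_j` indexed by `ZMod N`. -/
theorem walk_exists (N : ℕ) [NeZero N] (a b : ZMod N → ℂ)
    (h : ∀ j, ‖a j‖ ^ 2 - ‖b j‖ ^ 2 = 1) :
    ∃ W : EuclideanSpace ℂ (ZMod N × Fin 2) →ₗ[ℂ] EuclideanSpace ℂ (ZMod N × Fin 2),
      (∀ ψ, ‖W ψ‖ = ‖ψ‖) ∧
      (∀ ψ j, W ψ (j + 1, 0) = (conj (a j))⁻¹ * (ψ (j, 0) + b j * ψ (j + 1, 1))) ∧
      (∀ ψ j, W ψ (j, 1) = (conj (a j))⁻¹ * (-(conj (b j) * ψ (j, 0)) + ψ (j + 1, 1))) := by
  let g : EuclideanSpace ℂ (ZMod N × Fin 2) → (ZMod N × Fin 2) → ℂ := fun ψ i =>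
    if i.2 = 0 then (conj (a (i.1 - 1)))⁻¹ * (ψ (i.1 - 1, 0) + b (i.1 - 1) * ψ (i.1, 1))
    else (conj (a i.1))⁻¹ * (-(conj (b i.1) * ψ (i.1, 0)) + ψ (i.1 + 1, 1))
  let W : EuclideanSpace ℂ (ZMod N × Fin 2) →ₗ[ℂ] EuclideanSpace ℂ (ZMod N × Fin 2) :=
    { toFun := fun ψ => WithLp.toLp 2 (g ψ)
      map_add' := by
        intro x y
        ext ⟨j, i⟩
        simp only [g, PiLp.add_apply]
        split_ifs <;> ring
      map_smul' := by
        intro c x
        ext ⟨j, i⟩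
        simp only [g, PiLp.smul_apply, smul_eq_mul, RingHom.id_apply]
        split_ifs <;> ring }
  have hW0 : ∀ ψ j, W ψ (j + 1, 0) = (conj (a j))⁻¹ * (ψ (j, 0) + b j * ψ (j + 1, 1)) := by
    intro ψ j
    show g ψ (j + 1, 0) = _
    simp [g]
  have hW1 : ∀ ψ j, W ψ (j, 1) =
      (conj (a j))⁻¹ * (-(conj (b j) * ψ (j, 0)) + ψ (j + 1, 1)) := by
    intro ψ j
    show g ψ (j, 1) = _
    simp [g]
  refine ⟨W, ?_, hW0, hW1⟩
  intro ψ
  have hsq : ‖W ψ‖ ^ 2 = ‖ψ‖ ^ 2 := by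
    rw [EuclideanSpace.norm_sq_eq, EuclideanSpace.norm_sq_eq, Fintype.sum_prod_type,
      Fintype.sum_prod_type]
    simp only [Fin.sum_univ_two]
    rw [Finset.sum_add_distrib, Finset.sum_add_distrib]
    have h1 : ∀ (φ : ZMod N → ℝ), ∑ j, φ j = ∑ j, φ (j + 1) := fun φ =>
      (Equiv.sum_comp (Equiv.addRight (1 : ZMod N)) φ).symm
    rw [h1 (fun j => ‖W ψ (j, 0)‖ ^ 2), h1 (fun j => ‖ψ (j, 1)‖ ^ 2), ← Finset.sum_add_distrib,
      ← Finset.sum_add_distrib]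
    refine Finset.sum_congr rfl fun j _ => ?_
    rw [hW0, hW1]
    exact unit_id _ _ _ _ (h j)
  exact (sq_eq_sq₀ (norm_nonneg _) (norm_nonneg _)).1 hsq

/-- An eigenvector of the walk gives an eigenvector of the product for the eigenvalue `1`. -/
theorem walk_eigen (N : ℕ) [NeZero N] (a b : ℕ → ℂ) (h : ∀ j, ‖a j‖ ^ 2 - ‖b j‖ ^ 2 = 1)
    (W : EuclideanSpace ℂ (ZMod N × Fin 2) →ₗ[ℂ] EuclideanSpace ℂ (ZMod N × Fin 2))
    (h0 : ∀ ψ (j : ZMod N), W ψ (j + 1, 0) =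
      (conj (a j.val))⁻¹ * (ψ (j, 0) + b j.val * ψ (j + 1, 1)))
    (h1 : ∀ ψ (j : ZMod N), W ψ (j, 1) =
      (conj (a j.val))⁻¹ * (-(conj (b j.val) * ψ (j, 0)) + ψ (j + 1, 1)))
    (θ : ℝ) (ψ : EuclideanSpace ℂ (ZMod N × Fin 2))
    (hψ : Complex.exp (Real.pi * θ * I) • W ψ = ψ) (hne : ψ ≠ 0) :
    (pr a b θ N - (1 : Matrix (Fin 2) (Fin 2) ℂ)).det = 0 := by
  set w : ℂ := Complex.exp (Real.pi * θ * I) with hw
  have hwne : w ≠ 0 := Complex.exp_ne_zero _
  have hwinv : Complex.exp (-(Real.pi * θ * I)) = w⁻¹ := by rw [hw, Complex.exp_neg]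
  have hcomp : ∀ i, ψ i = w * W ψ i := by
    intro i
    conv_lhs => rw [← hψ]
    simp
  have haj : ∀ j : ℕ, conj (a j) ≠ 0 := by
    intro j hj
    have : a j = 0 := by simpa using hj
    have := h j
    rw [‹a j = 0›] at this
    simp at this
    nlinarith [sq_nonneg ‖b j‖]
  have hab : ∀ j : ℕ, a j * conj (a j) = 1 + b j * conj (b j) := by
    intro j
    have h2 : ((‖a j‖ ^ 2 : ℝ) : ℂ) = ((1 + ‖b j‖ ^ 2 : ℝ) : ℂ) := by
      congr 1
      linarith [h j]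
    rw [Complex.mul_conj, Complex.mul_conj, Complex.normSq_eq_norm_sq, Complex.normSq_eq_norm_sq]
    push_cast at h2 ⊢
    exact h2
  -- recursion for `q`
  have hq : ∀ j : ZMod N, ψ (j + 1, 1) =
      w⁻¹ * conj (a j.val) * ψ (j, 1) + conj (b j.val) * ψ (j, 0) := by
    intro j
    have e1 := hcomp (j, 1)
    rw [h1] at e1
    have e2 : conj (a j.val) * ψ (j, 1) =
        w * (-(conj (b j.val) * ψ (j, 0)) + ψ (j + 1, 1)) := by
      rw [e1]
      field_simp [haj j.val]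
    have e3 : w⁻¹ * (conj (a j.val) * ψ (j, 1)) =
        -(conj (b j.val) * ψ (j, 0)) + ψ (j + 1, 1) := by
      rw [e2, ← mul_assoc, inv_mul_cancel₀ hwne, one_mul]
    rw [mul_assoc, e3]
    ring
  have hp : ∀ j : ZMod N, ψ (j + 1, 0) =
      w * a j.val * ψ (j, 0) + b j.val * ψ (j, 1) := by
    intro j
    have e1 := hcomp (j + 1, 0)
    rw [h0, hq j] at e1
    have e2 : conj (a j.val) * ψ (j + 1, 0) =
        conj (a j.val) * (w * a j.val * ψ (j, 0) + b j.val * ψ (j, 1)) := by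
      calc conj (a j.val) * ψ (j + 1, 0)
          = w * (ψ (j, 0) + b j.val * (w⁻¹ * conj (a j.val) * ψ (j, 1) +
              conj (b j.val) * ψ (j, 0))) := by
            rw [e1]
            field_simp [haj j.val]
        _ = w * ((1 + b j.val * conj (b j.val)) * ψ (j, 0)) +
              (w * w⁻¹) * (b j.val * conj (a j.val) * ψ (j, 1)) := by ring
        _ = _ := by
            rw [← hab j.val, mul_inv_cancel₀ hwne]
            ring
    exact mul_left_cancel₀ (haj j.val) e2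
  -- the vectors
  let v : ZMod N → Fin 2 → ℂ := fun j => ![ψ (j, 0), w⁻¹ * ψ (j, 1)]
  have hstep : ∀ j : ZMod N, (rot θ * su (a j.val) (b j.val)).mulVec (v j) = v (j + 1) := by
    intro j
    rw [← Matrix.mulVec_mulVec]
    ext i
    fin_cases i
    · simp only [rot, su, v, Matrix.mulVec, dotProduct, Fin.sum_univ_two]
      simp [← hw]
      rw [hp j]
      field_simp
    · simp only [rot, su, v, Matrix.mulVec, dotProduct, Fin.sum_univ_two]
      simp only [hwinv, Matrix.of_apply, Matrix.cons_val', Matrix.cons_val_zero,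
        Matrix.cons_val_one, Matrix.cons_val_fin_one, Fin.isValue, Fin.mk_one]
      rw [hq j]
      field_simp
      ring
  have hprod : ∀ n : ℕ, n ≤ N → (pr a b θ n).mulVec (v 0) = v (n : ZMod N) := by
    intro n
    induction n with
    | zero => intro _; simp [pr]
    | succ n ih =>
      intro hn
      have hlt : n < N := hn
      have hval : ((n : ZMod N)).val = n := ZMod.val_natCast_of_lt hlt
      have := hstep (n : ZMod N)
      rw [hval] at this
      rw [pr, ← Matrix.mulVec_mulVec, ih hlt.le, this]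
      push_cast
      rfl
  have hv0 : v 0 ≠ 0 := by
    intro h00
    apply hne
    have hall : ∀ n : ℕ, n ≤ N → v (n : ZMod N) = 0 := by
      intro n hn
      rw [← hprod n hn, h00, Matrix.mulVec_zero]
    ext ⟨j, i⟩
    have hj := hall j.val (ZMod.val_lt j).le
    rw [ZMod.natCast_zmod_val] at hj
    fin_cases i
    · have := congrFun hj 0
      simpa [v] using this
    · have := congrFun hj 1
      simpa [v, hwne] using this
  apply Matrix.exists_mulVec_eq_zero_iff.1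
  refine ⟨v 0, hv0, ?_⟩
  rw [Matrix.sub_mulVec, hprod N le_rfl, Matrix.one_mulVec, ZMod.natCast_self, sub_self]

end Pool.Agent.H728R2.OS
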